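import Pool.Agent.NH24.DM.Stm

/-!
# Project DM: assembly of `ARCH` from `SEP` and `DOM`
-/

set_option autoImplicit false

open Finset

namespace Pool.Agent.NH24.DM

namespace Arch

theorem hier_anti {r : ℕ} {D : ℕ} {K : ℝ} (hK : 2 ≤ K) {x : Fin r → ℕ} (hx : Hier (D + 1) K x) :
    StrictAnti x := by
  have hx1 : ∀ i, (1 : ℝ) ≤ x i := fun i => by linarith [hx.1 i]
  have hstep : ∀ i j : Fin r, (i : ℕ) + 1 = j → x j < x i := by
    intro i j hij
    have h1 := hx.2 i j hij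
    have h2 : (x j : ℝ) ≤ (x j : ℝ) ^ (D + 1) := le_self_pow₀ (hx1 j) (Nat.succ_ne_zero _)
    have h3 : (x j : ℝ) < x i := by
      have := hx1 j
      nlinarith
    exact_mod_cast h3
  have key : ∀ d : ℕ, ∀ i j : Fin r, (i : ℕ) + 1 + d = j → x j < x i := by
    intro d
    induction d with
    | zero => exact fun i j hij => hstep i j (by omega)
    | succ d ih =>
      intro i j hij
      have hj := j.2
      let j' : Fin r := ⟨(i : ℕ) + 1 + d, by omega⟩
      exact (hstep j' j (by simp only [j']; omega)).trans (ih i j' rfl)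
  intro i j hij
  have hij' : (i : ℕ) < j := hij
  exact key (j - i - 1) i j (by omega)

theorem hier_mono {r : ℕ} {D : ℕ} {K K' : ℝ} (hK : K ≤ K') (hK0 : 0 ≤ K) (hK1 : 1 ≤ K')
    {x : Fin r → ℕ} (hx : Hier (D + 1) K' x) : Hier D K x := by
  refine ⟨fun i => hK.trans (hx.1 i), fun i j hij => le_trans ?_ (hx.2 i j hij)⟩
  have hx1 : (1 : ℝ) ≤ x j := hK1.trans (hx.1 j)
  refine mul_le_mul hK (pow_le_pow_right₀ hx1 (Nat.le_succ D)) (by positivity) (by linarith)

end Arch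

open Arch

theorem arch_of (h1 : SEP) (h2 : DOM) : ARCH := by
  intro r s D C
  have hs : (0 : ℝ) < 4 * s + 4 := by positivity
  obtain ⟨K, hK1, hK⟩ := h2 r D C (1 / (4 * s + 4)) (by positivity)
  obtain ⟨M, hM⟩ := h1 r s (D + 1) (max K 2) (Real.log (4 * s + 4))
  refine ⟨M, ?_⟩
  intro S T e hTS hTne hTs he0 hdom
  obtain ⟨x, hx1, hx2, hx3⟩ := hM T e hTs he0
  have hK2 : (2 : ℝ) ≤ max K 2 := le_max_right _ _
  refine ⟨x, hx1, hier_anti hK2 hx2, ?_⟩
  have hxH : Hier D K x := hier_mono (le_max_left _ _) (by linarith) (by linarith) hx2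
  have hd := hK x hxH S T e hTS hdom
  have hxpos : ∀ i, (0 : ℝ) < x i := fun i => by linarith [hx2.1 i]
  have hmn : ∀ v : Fin r → ℕ, (0 : ℝ) < mn x v := by
    intro v
    unfold mn
    push_cast
    exact prod_pos fun i _ => pow_pos (hxpos i) _
  set a : (Fin r → ℕ) → ℝ := fun v => |e v| / (mn x v : ℝ) with ha
  obtain ⟨u, huT, humax⟩ := exists_max_image T a hTne
  have hau : 0 < a u := div_pos (abs_pos.mpr (he0 u huT)) (hmn u)
  have hsmall : ∀ v ∈ T.erase u, a v ≤ a u / (4 * s + 4) := by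
    intro v hv
    obtain ⟨hvu, hvT⟩ := mem_erase.mp hv
    have h3 := hx3 u huT v hvT (Ne.symm hvu) (humax v hvT)
    rw [Real.exp_log hs] at h3
    rw [le_div_iff₀ hs]
    have : (4 * (s : ℝ) + 4) * a v < a u := h3
    linarith
  have hsum : ∑ v ∈ T.erase u, a v ≤ s * (a u / (4 * s + 4)) := by
    calc ∑ v ∈ T.erase u, a v ≤ ∑ _v ∈ T.erase u, a u / (4 * s + 4) := sum_le_sum hsmall
      _ = (T.erase u).card * (a u / (4 * s + 4)) := by rw [sum_const, nsmul_eq_mul]
      _ ≤ s * (a u / (4 * s + 4)) := by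
          refine mul_le_mul_of_nonneg_right ?_ (by positivity)
          have : (T.erase u).card ≤ s := (card_erase_le).trans hTs
          exact_mod_cast this
  have hTsum : ∑ v ∈ T, a v = a u + ∑ v ∈ T.erase u, a v := (add_sum_erase _ _ huT).symm
  have habs : ∀ v, |e v / (mn x v : ℝ)| = a v := by
    intro v
    rw [abs_div, abs_of_pos (hmn v)]
  have hsplit : ∑ w ∈ S, e w / (mn x w : ℝ) = e u / (mn x u : ℝ) +
      (∑ v ∈ T.erase u, e v / (mn x v : ℝ) + ∑ w ∈ S \ T, e w / (mn x w : ℝ)) := by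
    rw [← sum_sdiff hTS, ← add_sum_erase _ _ huT]
    ring
  have hb1 : |∑ v ∈ T.erase u, e v / (mn x v : ℝ)| ≤ ∑ v ∈ T.erase u, a v := by
    refine (abs_sum_le_sum_abs _ _).trans (le_of_eq ?_)
    exact sum_congr rfl fun v _ => habs v
  have hb2 : |∑ w ∈ S \ T, e w / (mn x w : ℝ)| ≤ 1 / (4 * s + 4) * ∑ u ∈ T, a u := by
    refine (abs_sum_le_sum_abs _ _).trans (le_trans (le_of_eq ?_) hd)
    exact sum_congr rfl fun v _ => habs v
  intro h0
  rw [hsplit] at h0
  have h5 : a u = |∑ v ∈ T.erase u, e v / (mn x v : ℝ) + ∑ w ∈ S \ T, e w / (mn x w : ℝ)| := by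
    rw [← habs u, ← abs_neg, ← eq_neg_of_add_eq_zero_right h0]
  have h6 := abs_add_le (∑ v ∈ T.erase u, e v / (mn x v : ℝ)) (∑ w ∈ S \ T, e w / (mn x w : ℝ))
  rw [hTsum] at hb2
  have h7 : a u ≤ s * (a u / (4 * s + 4)) + 1 / (4 * s + 4) * (a u + s * (a u / (4 * s + 4))) := by
    have h8 : (1 : ℝ) / (4 * s + 4) * (a u + ∑ v ∈ T.erase u, a v) ≤
        1 / (4 * s + 4) * (a u + s * (a u / (4 * s + 4))) :=
      mul_le_mul_of_nonneg_left (by linarith) (by positivity)
    linarith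
  have h9 : s * (a u / (4 * s + 4)) ≤ a u / 4 := by
    rw [← mul_div_assoc, div_le_div_iff₀ hs (by norm_num)]
    nlinarith
  have h10 : (1 : ℝ) / (4 * s + 4) * (a u + s * (a u / (4 * s + 4))) ≤ 1 / 4 * (2 * a u) := by
    refine mul_le_mul ?_ (by linarith) (by positivity) (by norm_num)
    rw [div_le_div_iff₀ hs (by norm_num)]
    have : (0 : ℝ) ≤ s := Nat.cast_nonneg s
    linarith
  linarith

end Pool.Agent.NH24.DM
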