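import Pool.Agent.Y760.ZG.Fld

/-!
# The class lemma for sequences of integers times `S`-units
-/

set_option autoImplicit false

open Filter Topology Finset

namespace Pool.Agent.NH24.DM

open Pool.Agent.TH932.Abs Pool.Agent.TH932.Germs Pool.Agent.TH932.Chi
open Pool.Agent.TH796.AL Pool.Agent.Y760.ZG

lemma gm_sum {ι : Type*} (t : Finset ι) (f : ι → ℕ → ℚ) :
    ∑ i ∈ t, gm (f i) = gm fun n => ∑ i ∈ t, f i n := by
  classical
  induction t using Finset.induction_on with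
  | empty =>
    rw [Finset.sum_empty, ← gm_zero]
    congr 1
  | insert a s ha ih =>
    rw [Finset.sum_insert ha, ih, gm_add]
    congr 1
    funext n
    rw [Finset.sum_insert ha]

lemma negl_KK {L : ℕ → ℝ} (hL : Tendsto L atTop atTop) {q : ℕ → ℤ} (hq : Negl L q) :
    gm (fun t => (q t : ℚ)) ∈ KK L hL := by
  refine ⟨q, fun _ => 1, hq, Negl.one hL, Eventually.of_forall fun _ => one_ne_zero, ?_⟩
  congr 1
  funext t
  push_cast
  rw [div_one]

/-- **the class lemma**: if a sum of integers of negligible size times `S`-units is smaller than the `S`-unit of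
the index `l0`, then the terms with asymptotically the same vector of exponents as `l0` have sum zero -/
theorem class_lemma {m : ℕ} {ι : Type} [Fintype ι] {L : ℕ → ℝ} (hL : Tendsto L atTop atTop)
    (E : ℕ → ι → Fin m → ℤ) (q : ℕ → ι → ℤ) (g : ι → Fin m → ℝ)
    (hE : ∀ l i, ∀ ε : ℝ, 0 < ε → ∀ᶠ t in (UU : Filter ℕ), |(E t l i : ℝ) - g l i * L t| ≤ ε * L t)
    (hq : ∀ l, ∀ ε : ℝ, 0 < ε → ∀ᶠ t in (UU : Filter ℕ), |(q t l : ℝ)| ≤ Real.exp (ε * L t))
    (x : ℝ) (l0 : ι) (hx : -∑ i : Fin m, g l0 i * Real.log (pr i) < x)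
    (hs : ∀ᶠ t in (UU : Filter ℕ),
      |∑ l, (q t l : ℝ) * ∏ i : Fin m, (pr i : ℝ) ^ (E t l i)| ≤ Real.exp (-(x * L t))) :
    ∀ᶠ t in (UU : Filter ℕ), ∀ s : Finset ι, (∀ l, l ∈ s ↔ g l = g l0) →
      ∑ l ∈ s, (q t l : ℚ) * ∏ i : Fin m, (pr i : ℚ) ^ (E t l i) = 0 := by
  classical
  have hc : ∀ l, ∃ κ : KK L hL, κ ≠ 0 ∧ gm (fun n => ∏ i, ((bs m).P i : ℚ) ^ (E n l i))
      = (κ : GG) * ch (bs m) hL (g l) := fun l => exists_const hL (g l) (fun n => E n l) (hE l)
  choose κ hκ0 hκ using hc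
  have hqK : ∀ l, gm (fun t => (q t l : ℚ)) ∈ KK L hL := fun l => negl_KK hL (hq l)
  have hmem : ∀ l, gm (fun t => (q t l : ℚ)) * (κ l : GG) ∈ KK L hL := fun l =>
    (KK L hL).mul_mem (hqK l) (κ l).2
  set a : ι → KA ⊥ hL := fun l => ⟨_, rho_mem_KA hL ⊥ ⟨_, hmem l⟩⟩ with ha
  set f : RgA ⊥ m hL := ∑ l, AddMonoidAlgebra.single (g l) (a l) with hf
  have hterm : ∀ l, gm (fun t => (q t l : ℚ) * ∏ i : Fin m, (pr i : ℚ) ^ (E t l i)) =
      gm (fun t => (q t l : ℚ)) * (κ l : GG) * ch (bs m) hL (g l) := by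
    intro l
    rw [mul_assoc, ← hκ l, gm_mul]
    rfl
  have hev : evA ⊥ (bs m) hL f = gr fun t => ∑ l, (q t l : ℝ) * ∏ i : Fin m, (pr i : ℝ) ^ (E t l i) := by
    rw [hf, map_sum]
    have h1 : ∀ l, evA ⊥ (bs m) hL (AddMonoidAlgebra.single (g l) (a l)) =
        rho (gm (fun t => (q t l : ℚ) * ∏ i : Fin m, (pr i : ℚ) ^ (E t l i))) := by
      intro l
      rw [evA_single, hterm l, map_mul]
    rw [Finset.sum_congr rfl fun l _ => h1 l, ← map_sum, gm_sum, rho_gm]
    congr 1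
    funext t
    push_cast
    rfl
  have hSR : evA ⊥ (bs m) hL f ∈ SR L x := by
    rw [hev]
    refine ⟨_, rfl, fun ε hε => ?_⟩
    filter_upwards [hs, L_nonneg hL] with t h1 h2
    refine h1.trans (Real.exp_le_exp.2 ?_)
    nlinarith
  have hcoef : f.coeff (g l0) = 0 := by
    by_contra hne
    have h1 := kp1 (F := ⊥) inferInstance f hSR (g l0) hne
    have h2 : lv (bs m) none (g l0) = -∑ i : Fin m, g l0 i * Real.log (pr i) := rfl
    rw [h2] at h1
    linarith
  have hcoef2 : f.coeff (g l0) = ∑ l ∈ univ.filter (fun l => g l = g l0), a l := by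
    rw [hf, AddMonoidAlgebra.coeff_sum, Finsupp.finsetSum_apply, Finset.sum_filter]
    refine Finset.sum_congr rfl fun l _ => ?_
    rw [AddMonoidAlgebra.coeff_single, Finsupp.single_apply]
  rw [hcoef2] at hcoef
  have h3 : ∑ l ∈ univ.filter (fun l => g l = g l0), gm (fun t => (q t l : ℚ)) * (κ l : GG) = 0 := by
    apply rho_injective
    rw [map_sum, map_zero]
    have h4 := congrArg (fun z : KA ⊥ hL => (z : HR)) hcoef
    simp only [AddSubmonoidClass.coe_finsetSum, ZeroMemClass.coe_zero] at h4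
    exact h4
  have h5 : gm (fun t => ∑ l ∈ univ.filter (fun l => g l = g l0),
      (q t l : ℚ) * ∏ i : Fin m, (pr i : ℚ) ^ (E t l i)) = 0 := by
    rw [← gm_sum, Finset.sum_congr rfl fun l _ => hterm l]
    have h6 : ∀ l ∈ univ.filter (fun l => g l = g l0),
        gm (fun t => (q t l : ℚ)) * (κ l : GG) * ch (bs m) hL (g l) =
          gm (fun t => (q t l : ℚ)) * (κ l : GG) * ch (bs m) hL (g l0) := by
      intro l hl
      rw [(mem_filter.1 hl).2]
    rw [Finset.sum_congr rfl h6, ← Finset.sum_mul, h3, zero_mul]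
  rw [← gm_zero, gm_eq] at h5
  filter_upwards [h5] with t ht s hs'
  have h7 : s = univ.filter (fun l => g l = g l0) := by
    ext l
    rw [hs' l, mem_filter]
    simp
  rw [h7]
  exact ht

end Pool.Agent.NH24.DM
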