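import Pool.Agent.NH24.DM.Stm

/-!
# Project DM: the terms outside of `T` are small
-/

set_option autoImplicit false

open Finset

namespace Pool.Agent.NH24.DM

namespace Dom

theorem sg_zero {n : ℕ} (D : ℕ) (v : Fin (n + 1) → ℕ) : sg D v 0 = v 0 := by
  unfold sg
  rw [Finset.sum_eq_single (0 : Fin (n + 1))]
  · simp
  · intro j hj hj0
    rw [mem_filter] at hj
    exact absurd (le_antisymm hj.2 (Fin.zero_le j)) hj0
  · intro h
    exact absurd (by simp) h

theorem sg_succ {n : ℕ} (D : ℕ) (v : Fin (n + 1) → ℕ) (i : Fin n) :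
    sg D v i.succ = v i.succ + D * sg D v i.castSucc := by
  unfold sg
  have h1 : univ.filter (· ≤ i.succ) = insert i.succ (univ.filter (· ≤ i.castSucc)) := by
    ext j
    rw [mem_insert, mem_filter, mem_filter]
    simp only [mem_univ, true_and, Fin.le_def, Fin.ext_iff, Fin.val_succ, Fin.val_castSucc]
    omega
  rw [h1, sum_insert]
  · congr 1
    · simp
    · rw [mul_sum]
      refine sum_congr rfl fun j hj => ?_
      rw [mem_filter] at hj
      have h2 : (j : ℕ) ≤ i := by
        have := hj.2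
        rw [Fin.le_def, Fin.val_castSucc] at this
        exact this
      rw [Fin.val_succ, Fin.val_castSucc, Nat.succ_sub h2, pow_succ]
      ring
  · rw [mem_filter]
    rintro ⟨-, h⟩
    rw [Fin.le_def, Fin.val_castSucc, Fin.val_succ] at h
    omega

theorem sg_inj {r : ℕ} (D : ℕ) (v w : Fin r → ℕ) (h : ∀ i, sg D v i = sg D w i) : v = w := by
  rcases r with _ | n
  · funext i
    exact i.elim0
  · funext i
    refine Fin.cases ?_ (fun i => ?_) i
    · have := h 0
      rwa [sg_zero, sg_zero] at this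
    · have h1 := h i.succ
      have h2 := h i.castSucc
      rw [sg_succ, sg_succ, h2] at h1
      exact Nat.add_right_cancel h1

theorem mn_pos {r : ℕ} {x : Fin r → ℕ} (hx : ∀ i, (1 : ℝ) ≤ x i) (v : Fin r → ℕ) :
    (0 : ℝ) < mn x v := by
  unfold mn
  push_cast
  exact prod_pos fun i _ => pow_pos (lt_of_lt_of_le one_pos (hx i)) _

theorem mn_le {r : ℕ} (D : ℕ) (K : ℝ) (hK : 1 ≤ K) (x : Fin r → ℕ) (hx : Hier D K x)
    (u w : Fin r → ℕ) (h : ∀ i, sg D u i ≤ sg D w i) :
    (mn x u : ℝ) * K ^ ds D u w ≤ mn x w := by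
  rcases r with _ | n
  · unfold mn ds
    simp
  · have hx1 : ∀ i, (1 : ℝ) ≤ x i := fun i => hK.trans (hx.1 i)
    have hx0 : ∀ i, (0 : ℝ) < x i := fun i => lt_of_lt_of_le one_pos (hx1 i)
    set τ : Fin (n + 1) → ℕ := fun i => sg D w i - sg D u i with hτ
    have e0 : w 0 = u 0 + τ 0 := by
      have := h 0
      simp only [hτ]
      rw [sg_zero, sg_zero] at *
      omega
    have e1 : ∀ i : Fin n, w i.succ + D * τ i.castSucc = u i.succ + τ i.succ := by
      intro i
      have h1 := h i.succ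
      have h2 := h i.castSucc
      simp only [hτ]
      rw [sg_succ, sg_succ] at h1
      rw [sg_succ, sg_succ]
      obtain ⟨a, ha⟩ := Nat.exists_eq_add_of_le h2
      rw [ha] at h1 ⊢
      rw [Nat.add_sub_cancel_left, mul_add]
      rw [mul_add] at h1
      omega
    have hA : (0 : ℝ) < ∏ i : Fin n, (x i.succ : ℝ) ^ (D * τ i.castSucc) :=
      prod_pos fun i _ => pow_pos (hx0 _) _
    have hw : (mn x w : ℝ) * ∏ i : Fin n, (x i.succ : ℝ) ^ (D * τ i.castSucc) =
        mn x u * ∏ i, (x i : ℝ) ^ τ i := by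
      unfold mn
      push_cast
      rw [Fin.prod_univ_succ, Fin.prod_univ_succ (fun i => (x i : ℝ) ^ u i),
        Fin.prod_univ_succ (fun i => (x i : ℝ) ^ τ i), mul_assoc, ← prod_mul_distrib]
      have h1 : ∀ i : Fin n, (x i.succ : ℝ) ^ w i.succ * (x i.succ : ℝ) ^ (D * τ i.castSucc) =
          (x i.succ : ℝ) ^ u i.succ * (x i.succ : ℝ) ^ τ i.succ := by
        intro i
        rw [← pow_add, ← pow_add, e1]
      simp_rw [h1]
      rw [e0, pow_add, prod_mul_distrib]
      ring
    have hB : K ^ ds D u w * ∏ i : Fin n, (x i.succ : ℝ) ^ (D * τ i.castSucc) ≤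
        ∏ i, (x i : ℝ) ^ τ i := by
      have hds : ds D u w = (∑ i : Fin n, τ i.castSucc) + τ (Fin.last n) := by
        unfold ds
        rw [Fin.sum_univ_castSucc]
      rw [Fin.prod_univ_castSucc, hds, pow_add, ← prod_pow_eq_pow_sum, mul_right_comm,
        ← prod_mul_distrib]
      refine mul_le_mul ?_ ?_ (by positivity) (prod_nonneg fun i _ => pow_nonneg (hx0 _).le _)
      · refine prod_le_prod (fun i _ => by positivity) fun i _ => ?_
        rw [pow_mul, ← mul_pow]
        refine pow_le_pow_left₀ (by positivity) ?_ _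
        exact hx.2 i.castSucc i.succ (by simp)
      · exact pow_le_pow_left₀ (by positivity) (hx.1 _) _
    have h3 : (mn x u : ℝ) * K ^ ds D u w * ∏ i : Fin n, (x i.succ : ℝ) ^ (D * τ i.castSucc) ≤
        mn x w * ∏ i : Fin n, (x i.succ : ℝ) ^ (D * τ i.castSucc) := by
      rw [hw, mul_assoc]
      exact mul_le_mul_of_nonneg_left hB (mn_pos hx1 u).le
    exact le_of_mul_le_mul_right h3 hA

theorem box_sum {r : ℕ} (y : ℝ) (hy0 : 0 ≤ y) (hy1 : y < 1) (F : Finset (Fin r → ℕ))
    (h0 : (0 : Fin r → ℕ) ∉ F) : ∑ τ ∈ F, ∏ i, y ^ τ i + 1 ≤ ((1 - y)⁻¹) ^ r := by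
  set N := F.sup (fun τ => univ.sup τ) with hN
  have hsub : insert (0 : Fin r → ℕ) F ⊆ Fintype.piFinset (fun _ : Fin r => range (N + 1)) := by
    intro τ hτ
    rw [Fintype.mem_piFinset]
    intro i
    rw [mem_range]
    rcases mem_insert.mp hτ with rfl | hτ
    · exact Nat.succ_pos _
    · have h1 : τ i ≤ univ.sup τ := le_sup (mem_univ i)
      have h2 : univ.sup τ ≤ N := le_sup (f := fun τ : Fin r → ℕ => univ.sup τ) hτ
      omega
  have hgeo : ∀ n : ℕ, ∑ j ∈ range n, y ^ j ≤ (1 - y)⁻¹ := by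
    intro n
    have h1 := geom_sum_mul_neg y n
    have h2 : (0 : ℝ) < 1 - y := by linarith
    have h3 : 0 ≤ y ^ n := pow_nonneg hy0 n
    rw [← one_div, le_div_iff₀ h2, h1]
    linarith
  calc ∑ τ ∈ F, ∏ i, y ^ τ i + 1 = ∑ τ ∈ insert (0 : Fin r → ℕ) F, ∏ i, y ^ τ i := by
        rw [sum_insert h0]
        simp
        ring
    _ ≤ ∑ τ ∈ Fintype.piFinset (fun _ : Fin r => range (N + 1)), ∏ i, y ^ τ i :=
        sum_le_sum_of_subset_of_nonneg hsub fun τ _ _ => prod_nonneg fun i _ => pow_nonneg hy0 _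
    _ = ∏ _i : Fin r, ∑ j ∈ range (N + 1), y ^ j := by
        rw [prod_univ_sum]
    _ ≤ ∏ _i : Fin r, (1 - y)⁻¹ :=
        prod_le_prod (fun i _ => sum_nonneg fun j _ => pow_nonneg hy0 _) fun i _ => hgeo _
    _ = ((1 - y)⁻¹) ^ r := by simp

end Dom

open Dom

theorem t_dom : DOM := by
  intro r D C ε hε
  set c : ℝ := max |C| 1 with hc
  have hc1 : 1 ≤ c := le_max_right _ _
  have hc0 : 0 < c := lt_of_lt_of_le one_pos hc1
  have hlog : 0 < Real.log (1 + ε) := Real.log_pos (by linarith)
  set K : ℝ := max (2 * c) (2 * (r + 1) * c / Real.log (1 + ε)) with hKdef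
  have hK2 : 2 * c ≤ K := le_max_left _ _
  have hK3 : 2 * (r + 1) * c / Real.log (1 + ε) ≤ K := le_max_right _ _
  have hK1 : 1 ≤ K := by linarith
  have hK0 : 0 < K := by linarith
  refine ⟨K, hK1, ?_⟩
  intro x hx S T e hTS hdom
  have hx1 : ∀ i, (1 : ℝ) ≤ x i := fun i => hK1.trans (hx.1 i)
  set y : ℝ := c / K with hy
  have hy0 : 0 ≤ y := by positivity
  have hy2 : y ≤ 1 / 2 := by
    rw [hy, div_le_iff₀ hK0]
    linarith
  have hy3 : 2 * (r + 1) * y ≤ Real.log (1 + ε) := by
    rw [div_le_iff₀ hlog] at hK3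
    rw [hy, ← mul_div_assoc, div_le_iff₀ hK0]
    linarith
  have hyr : ((1 - y)⁻¹) ^ r ≤ 1 + ε := by
    have h1 : (1 - y)⁻¹ ≤ Real.exp (2 * y) := by
      have h2 : (1 - y)⁻¹ ≤ 2 * y + 1 := by
        rw [inv_le_iff_one_le_mul₀ (by linarith)]
        nlinarith
      exact h2.trans (Real.add_one_le_exp _)
    calc ((1 - y)⁻¹) ^ r ≤ (Real.exp (2 * y)) ^ r :=
          pow_le_pow_left₀ (inv_nonneg.mpr (by linarith)) h1 r
      _ = Real.exp (r * (2 * y)) := (Real.exp_nat_mul _ _).symm
      _ ≤ Real.exp (Real.log (1 + ε)) := by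
          apply Real.exp_le_exp.mpr
          refine le_trans ?_ hy3
          nlinarith
      _ = 1 + ε := Real.exp_log (by linarith)
  -- the choice
  have hch : ∀ w, ∃ u, w ∈ S → u ∈ T ∧ (∀ i, sg D u i ≤ sg D w i) ∧
      |e w| ≤ C ^ ds D u w * |e u| := by
    intro w
    by_cases hw : w ∈ S
    · obtain ⟨u, h1, h2, h3⟩ := hdom w hw
      exact ⟨u, fun _ => ⟨h1, h2, h3⟩⟩
    · exact ⟨w, fun h => absurd h hw⟩
  choose U hU using hch
  have hest : ∀ w ∈ S, |e w| / (mn x w : ℝ) ≤ y ^ ds D (U w) w * (|e (U w)| / (mn x (U w) : ℝ)) := by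
    intro w hw
    obtain ⟨h1, h2, h3⟩ := hU w hw
    have h4 := mn_le D K hK1 x hx (U w) w h2
    have hpu := mn_pos hx1 (U w)
    have hpw := mn_pos hx1 w
    have h5 : |e w| ≤ c ^ ds D (U w) w * |e (U w)| := by
      refine h3.trans (mul_le_mul_of_nonneg_right ?_ (abs_nonneg _))
      calc C ^ ds D (U w) w ≤ |C ^ ds D (U w) w| := le_abs_self _
        _ = |C| ^ ds D (U w) w := abs_pow _ _
        _ ≤ c ^ ds D (U w) w := pow_le_pow_left₀ (abs_nonneg _) (le_max_left _ _) _
    rw [hy, div_pow, div_mul_div_comm, div_le_div_iff₀ hpw (by positivity)]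
    calc |e w| * (K ^ ds D (U w) w * (mn x (U w) : ℝ)) ≤
        (c ^ ds D (U w) w * |e (U w)|) * (K ^ ds D (U w) w * (mn x (U w) : ℝ)) :=
          mul_le_mul_of_nonneg_right h5 (by positivity)
      _ ≤ (c ^ ds D (U w) w * |e (U w)|) * (mn x w : ℝ) := by
          refine mul_le_mul_of_nonneg_left ?_ (by positivity)
          rw [mul_comm]
          exact h4
  calc ∑ w ∈ S \ T, |e w| / (mn x w : ℝ)
      ≤ ∑ w ∈ S \ T, y ^ ds D (U w) w * (|e (U w)| / (mn x (U w) : ℝ)) :=
        sum_le_sum fun w hw => hest w (mem_sdiff.mp hw).1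
    _ = ∑ u ∈ T, ∑ w ∈ (S \ T).filter (fun w => U w = u),
          y ^ ds D (U w) w * (|e (U w)| / (mn x (U w) : ℝ)) := by
        rw [sum_fiberwise_of_maps_to]
        exact fun w hw => (hU w (mem_sdiff.mp hw).1).1
    _ ≤ ∑ u ∈ T, ε * (|e u| / (mn x u : ℝ)) := by
        refine sum_le_sum fun u _ => ?_
        have h1 : ∑ w ∈ (S \ T).filter (fun w => U w = u),
            y ^ ds D (U w) w * (|e (U w)| / (mn x (U w) : ℝ)) =
            (∑ w ∈ (S \ T).filter (fun w => U w = u), y ^ ds D u w) *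
              (|e u| / (mn x u : ℝ)) := by
          rw [sum_mul]
          refine sum_congr rfl fun w hw => ?_
          rw [(mem_filter.mp hw).2]
        rw [h1]
        refine mul_le_mul_of_nonneg_right ?_ (div_nonneg (abs_nonneg _) (mn_pos hx1 u).le)
        -- the sum over the differences
        set F := ((S \ T).filter (fun w => U w = u)).image
          (fun w => fun i => sg D w i - sg D u i) with hF
        have hinj : Set.InjOn (fun w : Fin r → ℕ => fun i => sg D w i - sg D u i)
            ((S \ T).filter (fun w => U w = u) : Set (Fin r → ℕ)) := by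
          intro w hw w' hw' hww
          rw [mem_coe, mem_filter] at hw hw'
          have a1 := (hU w (mem_sdiff.mp hw.1).1).2.1
          have a2 := (hU w' (mem_sdiff.mp hw'.1).1).2.1
          rw [hw.2] at a1
          rw [hw'.2] at a2
          apply sg_inj D
          intro i
          have := congrFun hww i
          have b1 := a1 i
          have b2 := a2 i
          simp only at this
          omega
        have h2 : ∑ w ∈ (S \ T).filter (fun w => U w = u), y ^ ds D u w =
            ∑ τ ∈ F, ∏ i, y ^ τ i := by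
          rw [hF, sum_image hinj]
          refine sum_congr rfl fun w _ => ?_
          unfold ds
          rw [prod_pow_eq_pow_sum]
        have h0 : (0 : Fin r → ℕ) ∉ F := by
          rw [hF, mem_image]
          rintro ⟨w, hw, hw0⟩
          rw [mem_filter, mem_sdiff] at hw
          obtain ⟨a0, a1, -⟩ := hU w hw.1.1
          rw [hw.2] at a0 a1
          have : w = u := by
            apply sg_inj D
            intro i
            have := congrFun hw0 i
            have b1 := a1 i
            simp only [Pi.zero_apply] at this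
            omega
          rw [this] at hw
          exact hw.1.2 a0
        have h3 := box_sum y hy0 (by linarith) F h0
        rw [h2]
        linarith
    _ = ε * ∑ u ∈ T, |e u| / (mn x u : ℝ) := by rw [mul_sum]

end Pool.Agent.NH24.DM
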