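import Pool.Agent.NH24.DM.Four

/-!
# Vanishing of the sum over the class of a tuple of primes
-/

set_option autoImplicit false

open Filter Topology Finset

namespace Pool.Agent.NH24.DM

open GD (mzv trunc pw dec)
open Pool.Agent.TH932.Germs (UU ev_of_atTop)
open Pool.Agent.Y760.ZG (pr pr_prime pr_inj pr_ge primesBelow_pr ult_fin ult_lim)

variable {s D : ℕ} {δ C : ℝ} {d : ℕ → Dat s} {r : Fin s → ℕ} {om : Fin s → ℕ → ℝ}

lemma Ngl_q (h : Sq D δ C d) (hl : Lm d r om) (j : Fin s) {M : ℕ} (hM : 1 ≤ M) {n : List ℕ}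
    (hn : n ∈ dec (r j + 1) (M + 1)) : Ngl (LL d) fun t => ((d t).q D δ j n : ℝ) := by
  have hG : Ngl (LL d) fun t => (((d t).k : ℝ) + 1) ^ ⌈1 / δ⌉₊ *
      ((d t).cb δ C * (M : ℝ) ^ (⌈1 / δ⌉₊ * (2 * (d t).W D δ))) := by
    refine (h.Ngl_k.pow h.hL _).mul (h.Ngl_cb.mul (Ngl.pow_small h.hL (by exact_mod_cast hM) ?_))
    refine (Sm.const_mul h.hL h.W ((⌈1 / δ⌉₊ : ℝ) * 2)).of_le (Eventually.of_forall fun t => ?_)
    push_cast
    rw [mul_assoc]
  rw [GD.mem_dec] at hn
  obtain ⟨hn1, hn2, hn3⟩ := hn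
  rw [List.pairwise_cons] at hn2
  refine hG.of_le ?_
  filter_upwards [hl.len j] with t ht
  refine ((h.ok t).q_le h.δ0 j (M := M) (by rw [hn1, ht]) (fun x hx => ⟨hn3 x hx, ?_⟩) hM).trans (le_abs_self _)
  have := hn2.1 x hx
  omega

lemma log_primes {m M : ℕ} (hm : 1 ≤ m) (hM : m ≤ M) :
    Real.log m = ∑ i : Fin M, (padicValNat (pr i) m : ℝ) * Real.log (pr i) := by
  have h3 := nat_primes hm hM
  have h4 : (m : ℝ) = ∏ i ∈ range M, (pr i : ℝ) ^ padicValNat (pr i) m := by
    conv_lhs => rw [h3]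
    push_cast
    rfl
  rw [h4, Real.log_prod (fun i _ => by
    have := (pr_prime i).ne_zero
    positivity), ← Fin.sum_univ_eq_sum_range (fun i => Real.log ((pr i : ℝ) ^ padicValNat (pr i) m)) M]
  exact sum_congr rfl fun i _ => Real.log_pow _ _

/-- **the sum over the class of a tuple of primes vanishes** -/
theorem class_zero (h : Sq D δ C d) (hl : Lm d r om) (ht : TAIL) (hi : ISO) {j0 : Fin s}
    (hj0 : ∀ j, om j (r j) ≤ om j0 (r j0)) (M0 : ℕ) {p : List ℕ} (hp : p.length = r j0)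
    (hpp : ∀ x ∈ p, x.Prime ∧ x ≤ M0) (hpw : p.Pairwise (· > ·)) :
    ∀ᶠ t in (UU : Filter ℕ), ∀ J : Finset (Fin s), (∀ j, j ∈ J ↔ JJ r om j0 j) →
      ∑ j ∈ J, ∑ w ∈ (d t).Sj j, ((d t).e w : ℝ) / (pw (p ++ [1]) w : ℝ) = 0 := by
  classical
  have hδ := h.δ0
  set x : ℝ := Real.log ((M0 : ℝ) + 1) + 1 with hx
  have hM00 : (0 : ℝ) ≤ M0 := Nat.cast_nonneg _
  set M : ℕ := ⌈Real.exp ((x + 1) / δ)⌉₊ + M0 + 1 with hM
  have hMM0 : M0 ≤ M := by omega
  have hM1 : 1 ≤ M := by omega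
  have hMx : x + 1 ≤ δ * Real.log ((M : ℝ) + 1) := by
    have h1 : Real.exp ((x + 1) / δ) ≤ (M : ℝ) + 1 := by
      have h2 := Nat.le_ceil (Real.exp ((x + 1) / δ))
      have h3 : ((⌈Real.exp ((x + 1) / δ)⌉₊ : ℕ) : ℝ) ≤ M := by
        have : ⌈Real.exp ((x + 1) / δ)⌉₊ ≤ M := by omega
        exact_mod_cast this
      linarith
    have h2 := Real.log_le_log (Real.exp_pos _) h1
    rw [Real.log_exp, div_le_iff₀ hδ] at h2
    linarith
  -- the index type
  set ι : Type := Σ j : Fin s, {n : List ℕ // n ∈ dec (r j + 1) (M + 1)} with hι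
  have hmem : p ++ [1] ∈ dec (r j0 + 1) (M + 1) := by
    rw [GD.mem_dec]
    refine ⟨by rw [List.length_append, List.length_singleton, hp], ?_, ?_⟩
    · rw [List.pairwise_cons]
      refine ⟨fun y hy => ?_, ?_⟩
      · rw [List.mem_append, List.mem_singleton] at hy
        show y < M + 1
        rcases hy with hy | hy
        · have := (hpp y hy).2
          omega
        · omega
      · rw [List.pairwise_append]
        refine ⟨hpw, List.pairwise_singleton _ _, fun a ha b hb => ?_⟩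
        rw [List.mem_singleton] at hb
        rw [hb]
        exact (hpp a ha).1.one_lt
    · intro y hy
      rw [List.mem_append, List.mem_singleton] at hy
      rcases hy with hy | hy
      · exact (hpp y hy).1.one_lt.le
      · omega
  set l0 : ι := ⟨j0, ⟨p ++ [1], hmem⟩⟩ with hl0
  set g : ι → Fin M → ℝ := fun l i => gv om l.1 l.2.1 (pr i) with hg
  have hbd : ∀ l : ι, ∀ y ∈ l.2.1, 1 ≤ y ∧ y ≤ M := by
    intro l y hy
    have h1 := l.2.2
    rw [GD.mem_dec] at h1
    obtain ⟨hn1, hn2, hn3⟩ := h1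
    rw [List.pairwise_cons] at hn2
    have := hn2.1 y hy
    exact ⟨hn3 y hy, by omega⟩
  have hlen : ∀ l : ι, l.2.1.length = r l.1 + 1 := fun l => (GD.mem_dec.1 l.2.2).1
  -- the size of the class
  have hsize : -∑ i : Fin M, g l0 i * Real.log (pr i) < x := by
    have h1 : ∀ a ∈ range (p ++ [1]).length, om j0 a * Real.log ((p ++ [1]).getD a 0) =
        ∑ i : Fin M, om j0 a * ((padicValNat (pr i) ((p ++ [1]).getD a 0) : ℝ) * Real.log (pr i)) := by
      intro a ha
      have h2 := getD_mem_pos (M := M) (n := p ++ [1]) (fun y hy => hbd l0 y hy) a ha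
      rw [log_primes h2.1 h2.2, mul_sum]
    have h2 : -∑ i : Fin M, g l0 i * Real.log (pr i) =
        ∑ a ∈ range (p ++ [1]).length, om j0 a * Real.log ((p ++ [1]).getD a 0) := by
      refine Eq.trans ?_ (sum_congr rfl h1).symm
      rw [sum_comm, ← sum_neg_distrib]
      refine sum_congr rfl fun i _ => ?_
      show -(gv om j0 (p ++ [1]) (pr i) * Real.log (pr i)) = _
      unfold gv
      rw [neg_mul, neg_neg, sum_mul]
      exact sum_congr rfl fun a _ => by ring
    rw [h2]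
    have h3 : ∑ a ∈ range (p ++ [1]).length, om j0 a * Real.log ((p ++ [1]).getD a 0) ≤
        ∑ a ∈ range (p ++ [1]).length, om j0 a * Real.log ((M0 : ℝ) + 1) := by
      refine sum_le_sum fun a ha => ?_
      have ha' : a ≤ r j0 := by
        rw [mem_range, List.length_append, List.length_singleton, hp] at ha
        omega
      refine mul_le_mul_of_nonneg_left ?_ (hδ.le.trans (hl.pos h j0 ha'))
      have h4 : 1 ≤ (p ++ [1]).getD a 0 ∧ (p ++ [1]).getD a 0 ≤ M0 + 1 := by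
        refine getD_mem_pos (M := M0 + 1) (n := p ++ [1]) (fun y hy => ?_) a ha
        rw [List.mem_append, List.mem_singleton] at hy
        rcases hy with hy | hy
        · exact ⟨(hpp y hy).1.one_lt.le, by have := (hpp y hy).2; omega⟩
        · omega
      refine Real.log_le_log ?_ ?_
      · exact_mod_cast h4.1
      · exact_mod_cast h4.2
    have h5 : ∑ a ∈ range (p ++ [1]).length, om j0 a * Real.log ((M0 : ℝ) + 1) = Real.log ((M0 : ℝ) + 1) := by
      rw [← sum_mul, List.length_append, List.length_singleton, hp, hl.sum h j0, one_mul]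
    rw [h5] at h3
    linarith
  -- the class lemma
  have hlenall : ∀ᶠ t in (UU : Filter ℕ), ∀ j, ((d t).u j).length = r j + 1 := eventually_all.2 hl.len
  have hterm : ∀ᶠ t in (UU : Filter ℕ), ∀ l : ι,
      ((d t).q D δ l.1 l.2.1 : ℝ) * ∏ i : Fin M, (pr i : ℝ) ^ (d t).E D δ l.1 l.2.1 (pr i) =
        ∑ w ∈ (d t).Sj l.1, ((d t).e w : ℝ) / (pw l.2.1 w : ℝ) := by
    filter_upwards [hlenall] with t h1 l
    exact (h.ok t).term hδ l.1 (by rw [hlen l, h1]) (hbd l)
  have hmain := class_lemma h.hL (fun t (l : ι) (i : Fin M) => (d t).E D δ l.1 l.2.1 (pr i))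
    (fun t (l : ι) => (d t).q D δ l.1 l.2.1) g
    (fun l i ε hε => hl.E_lim h l.1 l.2.1 (pr i) ε hε)
    (fun l ε hε => Ngl_q h hl l.1 hM1 l.2.2 ε hε) x l0 hsize
    (by
      filter_upwards [total_small h ht x hMx, hterm, hlenall] with t h1 h2 h3
      have h4 : ∑ w ∈ (d t).S, ((d t).e w : ℝ) * trunc w (M + 1) =
          ∑ l : ι, ((d t).q D δ l.1 l.2.1 : ℝ) * ∏ i : Fin M, (pr i : ℝ) ^ (d t).E D δ l.1 l.2.1 (pr i) := by
        rw [(h.ok t).trunc_sum, sum_congr rfl fun l _ => h2 l, Fintype.sum_sigma]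
        refine sum_congr rfl fun j _ => ?_
        rw [h3 j]
        exact (Finset.sum_coe_sort (dec (r j + 1) (M + 1))
          (fun n => ∑ w ∈ (d t).Sj j, ((d t).e w : ℝ) / (pw n w : ℝ))).symm
      rw [← h4]
      exact h1)
  filter_upwards [hmain, hterm] with t h1 h2 J hJ
  have h3 := h1 (univ.filter fun l => g l = g l0) (fun l => by rw [mem_filter]; simp)
  have h4 : ∑ l ∈ univ.filter (fun l => g l = g l0),
      ∑ w ∈ (d t).Sj l.1, ((d t).e w : ℝ) / (pw l.2.1 w : ℝ) = 0 := by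
    have h5 := congrArg (fun z : ℚ => (z : ℝ)) h3
    simp only [Rat.cast_zero] at h5
    rw [← h5, Rat.cast_sum]
    refine sum_congr rfl fun l _ => ?_
    rw [← h2 l]
    push_cast
    rfl
  rw [← h4, sum_filter, Fintype.sum_sigma]
  rw [← sum_filter_add_sum_filter_not univ (fun j => j ∈ J)]
  have h5 : ∑ j ∈ univ.filter (fun j => ¬ j ∈ J), ∑ n : {n : List ℕ // n ∈ dec (r j + 1) (M + 1)},
      (if g ⟨j, n⟩ = g l0 then ∑ w ∈ (d t).Sj j, ((d t).e w : ℝ) / (pw n.1 w : ℝ) else 0) = 0 := by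
    refine sum_eq_zero fun j hj => sum_eq_zero fun n _ => if_neg fun h6 => ?_
    have h7 := iso_class hi hl h hj0 (M := M) hp (fun x hx => ⟨(hpp x hx).1, (hpp x hx).2.trans hMM0⟩) hpw j n.2
      (fun i => congrFun h6 i)
    exact (mem_filter.1 hj).2 ((hJ j).2 h7.1)
  rw [h5, add_zero, filter_mem_eq_inter, univ_inter]
  refine sum_congr rfl fun j hj => ?_
  have h6 := (hJ j).1 hj
  have hmem' : p ++ [1] ∈ dec (r j + 1) (M + 1) := by
    rw [h6.1]
    exact hmem
  rw [Fintype.sum_eq_single (⟨p ++ [1], hmem'⟩ : {n : List ℕ // n ∈ dec (r j + 1) (M + 1)})]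
  · rw [if_pos]
    funext i
    show gv om j (p ++ [1]) (pr i) = gv om j0 (p ++ [1]) (pr i)
    unfold gv
    congr 1
    refine sum_congr rfl fun a ha => ?_
    rw [h6.2 a]
    rw [mem_range, List.length_append, List.length_singleton, hp] at ha
    omega
  · intro n hn
    refine if_neg fun h7 => hn ?_
    have h8 := iso_class hi hl h hj0 (M := M) hp (fun x hx => ⟨(hpp x hx).1, (hpp x hx).2.trans hMM0⟩) hpw j n.2
      (fun i => congrFun h7 i)
    exact Subtype.ext h8.2

end Pool.Agent.NH24.DM
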