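import Pool.Agent.NH24.DM.Three

/-!
# The class of a tuple of primes
-/

set_option autoImplicit false

open Filter Topology Finset

namespace Pool.Agent.NH24.DM

open GD (mzv trunc pw dec)
open Pool.Agent.TH932.Germs (UU ev_of_atTop)
open Pool.Agent.Y760.ZG (pr pr_prime pr_inj pr_ge primesBelow_pr ult_fin ult_lim)

variable {s D : ℕ} {δ C : ℝ} {d : ℕ → Dat s} {r : Fin s → ℕ} {om : Fin s → ℕ → ℝ}

theorem total_small (h : Sq D δ C d) (ht : TAIL) (x : ℝ) {M : ℕ} (hM : x + 1 ≤ δ * Real.log ((M : ℝ) + 1)) :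
    ∀ᶠ t in (UU : Filter ℕ),
      |∑ w ∈ (d t).S, ((d t).e w : ℝ) * trunc w (M + 1)| ≤ Real.exp (-(x * LL d t)) := by
  have hF : Ngl (LL d) fun t => ((d t).k + 1 : ℝ) ^ ⌈1 / δ⌉₊ * (d t).cb δ C :=
    (h.Ngl_k.pow h.hL _).mul h.Ngl_cb
  have hG := (Ngl.const h.hL ((s : ℝ) * (2 ^ (⌈1 / δ⌉₊ + 1) * ((M : ℝ) + 1) ^ 2))).mul hF
  have hδ := h.δ0
  have hev : ∀ᶠ t : ℕ in atTop, 4 / δ ≤ LL d t ∧ 4 ≤ LL d t ∧ Real.exp (x + 1) ≤ (t : ℝ) + 2 := by
    refine (h.hL.eventually_ge_atTop _).and ((h.hL.eventually_ge_atTop _).and ?_)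
    have h1 : Tendsto (fun t : ℕ => (t : ℝ) + 2) atTop atTop :=
      tendsto_atTop_add_const_right _ _ (tendsto_natCast_atTop_atTop (R := ℝ))
    exact h1.eventually_ge_atTop _
  filter_upwards [hG (1 / 2) (by norm_num), ev_of_atTop hev] with t h1 h2
  obtain ⟨h3, h4, h5⟩ := h2
  have hL0 := h.L0 t
  have hk4 : 4 ≤ ⌈δ * (d t).k⌉₊ := by
    have : (4 : ℝ) ≤ δ * (d t).k := by
      rw [div_le_iff₀ hδ] at h3
      unfold LL at h3
      linarith
    have h6 := this.trans (Nat.le_ceil (δ * ((d t).k : ℝ)))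
    exact_mod_cast h6
  have h6 := (h.ok t).tail hδ ht hk4 M
  have h7 := (h.ok t).sm
  have hB : Real.exp (x + 1) ≤ (d t).B := h5.trans (h.Bt t)
  have h8 : ((d t).B ^ (d t).k)⁻¹ ≤ Real.exp (-((x + 1) * LL d t)) := by
    rw [Real.exp_neg]
    refine inv_anti₀ (Real.exp_pos _) ?_
    have : Real.exp ((x + 1) * LL d t) = Real.exp (x + 1) ^ (d t).k := by
      rw [← Real.exp_nat_mul]
      unfold LL
      ring_nf
    rw [this]
    exact pow_le_pow_left₀ (Real.exp_pos _).le hB _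
  have hM0 : (0 : ℝ) < (M : ℝ) + 1 := by positivity
  have h9 : Real.exp ((x + 1) * LL d t) ≤ ((M : ℝ) + 1) ^ ⌈δ * (d t).k⌉₊ := by
    have h10 : ((M : ℝ) + 1) ^ ⌈δ * (d t).k⌉₊ = Real.exp (Real.log ((M : ℝ) + 1) * ⌈δ * ((d t).k : ℝ)⌉₊) := by
      rw [mul_comm (Real.log ((M : ℝ) + 1)), ← Real.log_pow, Real.exp_log (by positivity)]
    rw [h10]
    apply Real.exp_le_exp.2
    have h11 : 0 ≤ Real.log ((M : ℝ) + 1) := Real.log_nonneg (by
      have : (0 : ℝ) ≤ M := Nat.cast_nonneg _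
      linarith)
    have h12 := mul_le_mul_of_nonneg_left (Nat.le_ceil (δ * ((d t).k : ℝ))) h11
    have h13 := mul_le_mul_of_nonneg_right hM hL0.le
    unfold LL at h13 ⊢
    linarith
  have hcb : 0 ≤ (d t).cb δ C := by
    unfold Dat.cb
    have := (h.ok t).c0
    positivity
  have h10 : (s : ℝ) * ((((d t).k : ℝ) + 1) ^ ⌈1 / δ⌉₊ * ((d t).cb δ C *
      (2 ^ (⌈1 / δ⌉₊ + 1) * ((M : ℝ) + 1) ^ 2 / ((M : ℝ) + 1) ^ ⌈δ * (d t).k⌉₊))) ≤
      Real.exp (1 / 2 * LL d t) * Real.exp (-((x + 1) * LL d t)) := by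
    have h11 : (s : ℝ) * ((((d t).k : ℝ) + 1) ^ ⌈1 / δ⌉₊ * ((d t).cb δ C *
      (2 ^ (⌈1 / δ⌉₊ + 1) * ((M : ℝ) + 1) ^ 2 / ((M : ℝ) + 1) ^ ⌈δ * (d t).k⌉₊))) =
      ((s : ℝ) * (2 ^ (⌈1 / δ⌉₊ + 1) * ((M : ℝ) + 1) ^ 2) * (((d t).k + 1 : ℝ) ^ ⌈1 / δ⌉₊ * (d t).cb δ C)) *
        (((M : ℝ) + 1) ^ ⌈δ * (d t).k⌉₊)⁻¹ := by
      field_simp
    rw [h11]
    refine mul_le_mul ((le_abs_self _).trans h1) ?_ (by positivity) (Real.exp_pos _).le
    rw [Real.exp_neg]
    exact inv_anti₀ (Real.exp_pos _) h9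
  have h11 : |∑ w ∈ (d t).S, ((d t).e w : ℝ) * trunc w (M + 1)| ≤
      Real.exp (-((x + 1) * LL d t)) + Real.exp (1 / 2 * LL d t) * Real.exp (-((x + 1) * LL d t)) := by
    have h12 := abs_sub_abs_le_abs_sub (∑ w ∈ (d t).S, ((d t).e w : ℝ) * trunc w (M + 1))
      (∑ w ∈ (d t).S, ((d t).e w : ℝ) * mzv w)
    rw [abs_sub_comm] at h12
    linarith
  refine h11.trans ?_
  have h12 : Real.exp (-(x * LL d t)) = Real.exp (-((x + 1) * LL d t)) * Real.exp (LL d t) := by
    rw [← Real.exp_add]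
    ring_nf
  rw [h12]
  have h13 : 1 + Real.exp (1 / 2 * LL d t) ≤ Real.exp (LL d t) := by
    have h14 : Real.exp (LL d t) = Real.exp (1 / 2 * LL d t) * Real.exp (1 / 2 * LL d t) := by
      rw [← Real.exp_add]
      ring_nf
    have h15 := Real.add_one_le_exp (1 / 2 * LL d t)
    rw [h14]
    nlinarith
  have h14 := Real.exp_pos (-((x + 1) * LL d t))
  nlinarith

/-- the blocks with the same limits as the block `j0` -/
def JJ (r : Fin s → ℕ) (om : Fin s → ℕ → ℝ) (j0 j : Fin s) : Prop :=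
  r j = r j0 ∧ ∀ a ≤ r j0, om j a = om j0 a

lemma getD_append_one {p : List ℕ} (a : ℕ) (ha : a < p.length) : (p ++ [1]).getD a 0 = p.getD a 0 := by
  rw [List.getD_append _ _ _ _ ha]

lemma getD_append_last (p : List ℕ) : (p ++ [1]).getD p.length 0 = 1 := by
  rw [List.getD_append_right _ _ _ _ le_rfl, Nat.sub_self]
  rfl

lemma pairwise_getD {n : List ℕ} (hn : n.Pairwise (· > ·)) {i j : ℕ} (hi : i < n.length) (hj : j < i) :
    n.getD i 0 < n.getD j 0 := by
  rw [List.getD_eq_getElem _ _ hi, List.getD_eq_getElem _ _ (hj.trans hi)]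
  exact List.pairwise_iff_getElem.1 hn j i (hj.trans hi) hi hj

lemma sum_fact {r : ℕ} (om : ℕ → ℝ) (p : List ℕ) (q : ℕ) (hp : p.length = r) (hq : q.Prime) :
    ∑ a ∈ range (p ++ [1]).length, om a * (padicValNat q ((p ++ [1]).getD a 0) : ℝ) =
      ∑ i ∈ range r, om i * ((p.getD i 0).factorization q : ℝ) := by
  rw [List.length_append, List.length_singleton, hp, sum_range_succ]
  have h1 : (p ++ [1]).getD r 0 = 1 := by
    rw [← hp]
    exact getD_append_last p
  rw [h1]
  simp only [padicValNat.one, Nat.cast_zero, mul_zero, add_zero]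
  refine sum_congr rfl fun a ha => ?_
  rw [mem_range] at ha
  rw [getD_append_one a (by omega), Nat.factorization_def _ hq]

/-- isolation of the class -/
lemma iso_class (hi : ISO) (hl : Lm d r om) (h : Sq D δ C d) {j0 : Fin s}
    (hj0 : ∀ j, om j (r j) ≤ om j0 (r j0)) {M : ℕ} {p : List ℕ} (hp : p.length = r j0)
    (hpp : ∀ x ∈ p, x.Prime ∧ x ≤ M) (hpw : p.Pairwise (· > ·)) (j : Fin s) {n : List ℕ}
    (hn : n ∈ dec (r j + 1) (M + 1)) (hg : ∀ i : Fin M, gv om j n (pr i) = gv om j0 (p ++ [1]) (pr i)) :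
    JJ r om j0 j ∧ n = p ++ [1] := by
  rw [GD.mem_dec] at hn
  obtain ⟨hn1, hn2, hn3⟩ := hn
  rw [List.pairwise_cons] at hn2
  have hnM : ∀ x ∈ n, 1 ≤ x ∧ x ≤ M := fun x hx => ⟨hn3 x hx, by
    have := hn2.1 x hx
    omega⟩
  have hδ := h.δ0
  have h1 := hi (r j0) (r j) (om j0) (om j) (fun i => p.getD i 0) (fun i => n.getD i 0)
    (fun i hi => by
      show (p.getD i 0).Prime
      rw [List.getD_eq_getElem _ _ (by omega)]
      exact (hpp _ (List.getElem_mem _)).1)
    (fun i hi k hk => pairwise_getD hpw (by omega) hk)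
    (fun i hi => by
      show 1 ≤ n.getD i 0
      rw [List.getD_eq_getElem _ _ (by omega)]
      exact hn3 _ (List.getElem_mem _))
    (fun i hi k hk => pairwise_getD hn2.2 (by omega) hk)
    (fun i hi => lt_of_lt_of_le hδ (hl.pos h j0 hi))
    (fun i hi => lt_of_lt_of_le hδ (hl.pos h j hi))
    (hl.sum h j0) (hl.sum h j) (hj0 j)
    (fun q hq => by
      have h2 : ∑ i ∈ range (r j + 1), om j i * ((n.getD i 0).factorization q : ℝ) =
          -gv om j n q := by
        unfold gv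
        rw [neg_neg, hn1]
        exact sum_congr rfl fun i _ => by rw [Nat.factorization_def _ hq]
      have h3 : ∑ i ∈ range (r j0), om j0 i * ((p.getD i 0).factorization q : ℝ) =
          -gv om j0 (p ++ [1]) q := by
        unfold gv
        rw [neg_neg, sum_fact (om j0) p q hp hq]
      rw [h2, h3]
      congr 1
      by_cases hqM : q ≤ M
      · have h4 : pr (Nat.count Nat.Prime q) = q := Nat.nth_count hq
        have h5 : Nat.count Nat.Prime q < M := by
          by_contra hcon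
          push Not at hcon
          have h6 := pr_ge (Nat.count Nat.Prime q)
          omega
        have h6 := hg ⟨_, h5⟩
        simp only [h4] at h6
        exact h6
      · push Not at hqM
        have h4 : ∀ x, 1 ≤ x → x ≤ M → padicValNat q x = 0 := by
          intro x hx hxM
          apply padicValNat.eq_zero_of_not_dvd
          intro hdvd
          have := Nat.le_of_dvd (by omega) hdvd
          omega
        unfold gv
        rw [sum_eq_zero, sum_eq_zero]
        · intro a ha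
          rw [mem_range] at ha
          have h5 : 1 ≤ (p ++ [1]).getD a 0 ∧ ((p ++ [1]).getD a 0 = 1 ∨ (p ++ [1]).getD a 0 ≤ M) := by
            rw [List.length_append, List.length_singleton] at ha
            rcases Nat.lt_succ_iff_lt_or_eq.1 ha with h6 | h6
            · rw [getD_append_one a h6, List.getD_eq_getElem _ _ h6]
              have h7 := hpp _ (List.getElem_mem h6)
              exact ⟨h7.1.one_lt.le, Or.inr h7.2⟩
            · rw [h6, getD_append_last]
              exact ⟨le_rfl, Or.inl rfl⟩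
          rcases h5.2 with h6 | h6
          · rw [h6, padicValNat.one, Nat.cast_zero, mul_zero]
          · rw [h4 _ h5.1 h6, Nat.cast_zero, mul_zero]
        · intro a ha
          have h5 := getD_mem_pos hnM a ha
          rw [h4 _ h5.1 h5.2, Nat.cast_zero, mul_zero])
  obtain ⟨h2, h3, h4, h5⟩ := h1
  refine ⟨⟨h2, h5⟩, ?_⟩
  refine List.ext_getElem ?_ fun a ha hb => ?_
  · rw [hn1, h2, List.length_append, List.length_singleton, hp]
  · have h6 : n.getD a 0 = (p ++ [1]).getD a 0 := by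
      rw [List.length_append, List.length_singleton, hp] at hb
      rcases Nat.lt_succ_iff_lt_or_eq.1 hb with h7 | h7
      · rw [getD_append_one a (by omega)]
        exact h4 a h7
      · rw [h7]
        have h8 : (p ++ [1]).getD (r j0) 0 = 1 := by
          rw [← hp]
          exact getD_append_last p
        rw [h8]
        exact h3
    rwa [List.getD_eq_getElem _ _ ha, List.getD_eq_getElem _ _ hb] at h6

end Pool.Agent.NH24.DM
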