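import Pool.Agent.NH24.DM.Stm

/-!
# DM-4 ISO: isolation of the tuples of primes by the vectors of exponents (helper80)
-/

set_option autoImplicit false

open Finset

namespace Pool.Agent.NH24.DM

namespace IsoA

/-- the number of prime factors as a sum over a large set of primes -/
lemma sum_fac {m : ℕ} {P : Finset ℕ} (hP : m.primeFactors ⊆ P) :
    ∑ q ∈ P, m.factorization q = ArithmeticFunction.cardFactors m := by
  rw [ArithmeticFunction.cardFactors_eq_sum_factorization, Finsupp.sum]
  symm
  refine Finset.sum_subset ?_ ?_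
  · rw [Nat.support_factorization]; exact hP
  · intro q _ hq
    exact Finsupp.notMem_support_iff.1 hq

/-- the position of an element in a decreasing enumeration -/
lemma count_pos {r : ℕ} {f : ℕ → ℕ} (hf : ∀ i < r, ∀ j < i, f i < f j) {i : ℕ} (hi : i < r) :
    (((range r).image f).filter fun y => f i < y).card = i := by
  have h1 : ((range r).image f).filter (fun y => f i < y) = (range i).image f := by
    ext y
    simp only [mem_filter, mem_image, mem_range]
    constructor
    · rintro ⟨⟨k, hk, rfl⟩, h2⟩
      refine ⟨k, ?_, rfl⟩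
      by_contra h3
      push Not at h3
      rcases h3.lt_or_eq with h4 | h4
      · exact absurd (hf k hk i h4) (by omega)
      · subst h4; omega
    · rintro ⟨k, hk, rfl⟩
      exact ⟨⟨k, by omega, rfl⟩, hf i hi k hk⟩
  rw [h1, card_image_of_injOn, card_range]
  intro a ha b hb hab
  simp only [coe_range, Set.mem_Iio] at ha hb
  by_contra hne
  rcases Nat.lt_or_gt_of_ne hne with h | h
  · have := hf b (by omega) a h; omega
  · have := hf a (by omega) b h; omega

lemma inj {r : ℕ} {f : ℕ → ℕ} (hf : ∀ i < r, ∀ j < i, f i < f j) {a b : ℕ} (ha : a < r)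
    (hb : b < r) (hab : f a = f b) : a = b := by
  by_contra hne
  rcases Nat.lt_or_gt_of_ne hne with h | h
  · have := hf b hb a h; omega
  · have := hf a ha b h; omega

lemma card_im {r : ℕ} {f : ℕ → ℕ} (hf : ∀ i < r, ∀ j < i, f i < f j) :
    ((range r).image f).card = r := by
  rw [card_image_of_injOn, card_range]
  intro a ha b hb hab
  simp only [coe_range, Set.mem_Iio] at ha hb
  exact inj hf ha hb hab

lemma fac_prime {p q : ℕ} (hp : p.Prime) (hq : q.Prime) :
    (p.factorization q : ℝ) = if p = q then 1 else 0 := by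
  rw [hp.factorization]
  split_ifs with h
  · subst h; simp
  · rw [Finsupp.single_apply, if_neg h]; simp

end IsoA

open IsoA in
theorem t_iso : ISO := by
  intro r r' om om' p n hp hpd hn hnd hom hom' hs hs' hle hq
  -- a large set of primes
  set P : Finset ℕ := ((range (r' + 1)).biUnion fun i => (n i).primeFactors) ∪
    ((range r).biUnion fun i => (p i).primeFactors) with hPdef
  have hPn : ∀ i ≤ r', (n i).primeFactors ⊆ P := fun i hi =>
    (subset_biUnion_of_mem (fun i => (n i).primeFactors)
      (mem_range.2 (Nat.lt_succ_of_le hi))).trans subset_union_left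
  have hPp : ∀ i < r, (p i).primeFactors ⊆ P := fun i hi =>
    (subset_biUnion_of_mem (fun i => (p i).primeFactors) (mem_range.2 hi)).trans
      subset_union_right
  have hPP : ∀ q ∈ P, q.Prime := by
    intro q hq
    simp only [hPdef, mem_union, mem_biUnion] at hq
    rcases hq with ⟨i, -, h⟩ | ⟨i, -, h⟩ <;> exact Nat.prime_of_mem_primeFactors h
  -- the sum over the primes
  have h1 : ∑ i ∈ range (r' + 1), om' i * (ArithmeticFunction.cardFactors (n i) : ℝ) =
      ∑ i ∈ range r, om i := by
    have e1 : ∑ q ∈ P, ∑ i ∈ range (r' + 1), om' i * ((n i).factorization q : ℝ) =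
        ∑ q ∈ P, ∑ i ∈ range r, om i * ((p i).factorization q : ℝ) :=
      sum_congr rfl fun q hq' => hq q (hPP q hq')
    rw [sum_comm, sum_comm (s := P)] at e1
    have e2 : ∀ i ∈ range (r' + 1), ∑ q ∈ P, om' i * ((n i).factorization q : ℝ) =
        om' i * (ArithmeticFunction.cardFactors (n i) : ℝ) := by
      intro i hi
      rw [← mul_sum, ← sum_fac (hPn i (by rw [mem_range] at hi; omega))]
      push_cast
      rfl
    have e3 : ∀ i ∈ range r, ∑ q ∈ P, om i * ((p i).factorization q : ℝ) = om i := by
      intro i hi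
      rw [mem_range] at hi
      have h2 := sum_fac (hPp i hi)
      rw [ArithmeticFunction.cardFactors_apply_prime (hp i hi)] at h2
      rw [← mul_sum]
      have h3 : ∑ q ∈ P, ((p i).factorization q : ℝ) = 1 := by exact_mod_cast h2
      rw [h3, mul_one]
    rw [sum_congr rfl e2, sum_congr rfl e3] at e1
    exact e1
  -- the consequences
  have hge : ∀ i < r', 1 ≤ ArithmeticFunction.cardFactors (n i) := by
    intro i hi
    by_contra h2
    have h3 : ArithmeticFunction.cardFactors (n i) = 0 := by omega
    have h4 := hnd r' le_rfl i hi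
    have h5 := hn r' le_rfl
    rw [ArithmeticFunction.cardFactors_eq_zero_iff_eq_zero_or_one] at h3
    omega
  have h2 : ∑ i ∈ range r', om' i * ((ArithmeticFunction.cardFactors (n i) : ℝ) - 1) +
      om' r' * (ArithmeticFunction.cardFactors (n r') : ℝ) = om' r' - om r := by
    rw [sum_range_succ] at h1 hs hs'
    have e1 : ∑ i ∈ range r', om' i * ((ArithmeticFunction.cardFactors (n i) : ℝ) - 1) =
        ∑ i ∈ range r', om' i * (ArithmeticFunction.cardFactors (n i) : ℝ) -
          ∑ i ∈ range r', om' i := by
      rw [← sum_sub_distrib]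
      exact sum_congr rfl fun i _ => by ring
    rw [e1]
    linarith
  have hnn : ∀ i ∈ range r', 0 ≤ om' i * ((ArithmeticFunction.cardFactors (n i) : ℝ) - 1) := by
    intro i hi
    rw [mem_range] at hi
    have h3 : (1 : ℝ) ≤ (ArithmeticFunction.cardFactors (n i) : ℝ) := by exact_mod_cast hge i hi
    exact mul_nonneg (hom' i hi.le).le (by linarith)
  have hS := sum_nonneg hnn
  have hlast : 0 ≤ om' r' * (ArithmeticFunction.cardFactors (n r') : ℝ) :=
    mul_nonneg (hom' r' le_rfl).le (Nat.cast_nonneg _)
  have z1 : ∑ i ∈ range r', om' i * ((ArithmeticFunction.cardFactors (n i) : ℝ) - 1) = 0 := by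
    linarith
  have z2 : om' r' * (ArithmeticFunction.cardFactors (n r') : ℝ) = 0 := by linarith
  have z3 : om' r' = om r := by linarith
  have hprime : ∀ i < r', (n i).Prime := by
    intro i hi
    have h3 := (sum_eq_zero_iff_of_nonneg hnn).1 z1 i (mem_range.2 hi)
    have h4 := (mul_eq_zero.1 h3).resolve_left (hom' i hi.le).ne'
    have h5 : (ArithmeticFunction.cardFactors (n i) : ℝ) = 1 := by linarith
    exact ArithmeticFunction.cardFactors_eq_one_iff_prime.1 (by exact_mod_cast h5)
  have hone : n r' = 1 := by
    have h3 := (mul_eq_zero.1 z2).resolve_left (hom' r' le_rfl).ne'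
    have h4 : ArithmeticFunction.cardFactors (n r') = 0 := by exact_mod_cast h3
    rw [ArithmeticFunction.cardFactors_eq_zero_iff_eq_zero_or_one] at h4
    have h5 := hn r' le_rfl
    omega
  have hnd' : ∀ i < r', ∀ j < i, n i < n j := fun i hi j hj => hnd i hi.le j hj
  -- the equation at a prime
  have heq : ∀ q : ℕ, q.Prime → ∑ i ∈ range r', om' i * (if n i = q then 1 else 0) =
      ∑ i ∈ range r, om i * (if p i = q then (1 : ℝ) else 0) := by
    intro q hq'
    have h3 := hq q hq'
    rw [sum_range_succ, hone] at h3
    simp only [Nat.factorization_one, Finsupp.coe_zero, Pi.zero_apply, Nat.cast_zero, mul_zero,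
      add_zero] at h3
    have e1 : ∑ i ∈ range r', om' i * ((n i).factorization q : ℝ) =
        ∑ i ∈ range r', om' i * (if n i = q then (1 : ℝ) else 0) :=
      sum_congr rfl fun i hi => by rw [fac_prime (hprime i (mem_range.1 hi)) hq']
    have e2 : ∑ i ∈ range r, om i * ((p i).factorization q : ℝ) =
        ∑ i ∈ range r, om i * (if p i = q then (1 : ℝ) else 0) :=
      sum_congr rfl fun i hi => by rw [fac_prime (hp i (mem_range.1 hi)) hq']
    rw [← e1, ← e2]
    exact h3
  have hL : ∀ i < r', ∑ k ∈ range r', om' k * (if n k = n i then (1 : ℝ) else 0) = om' i := by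
    intro i hi
    rw [sum_eq_single i]
    · rw [if_pos rfl, mul_one]
    · intro k hk hki
      rw [if_neg, mul_zero]
      intro h3
      exact hki (inj hnd' (mem_range.1 hk) hi h3)
    · intro h3
      exact absurd (mem_range.2 hi) h3
  have hR : ∀ j < r, ∑ k ∈ range r, om k * (if p k = p j then (1 : ℝ) else 0) = om j := by
    intro i hi
    rw [sum_eq_single i]
    · rw [if_pos rfl, mul_one]
    · intro k hk hki
      rw [if_neg, mul_zero]
      intro h3
      exact hki (inj hpd (mem_range.1 hk) hi h3)
    · intro h3
      exact absurd (mem_range.2 hi) h3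
  have k1 : ∀ i < r', ∃ j < r, p j = n i := by
    intro i hi
    by_contra hcon
    push Not at hcon
    have h3 := heq (n i) (hprime i hi)
    rw [hL i hi, sum_eq_zero fun k hk => by rw [if_neg (hcon k (mem_range.1 hk)), mul_zero]] at h3
    exact absurd h3 (hom' i hi.le).ne'
  have k2 : ∀ j < r, ∃ i < r', n i = p j := by
    intro j hj
    by_contra hcon
    push Not at hcon
    have h3 := heq (p j) (hp j hj)
    rw [hR j hj, sum_eq_zero fun k hk => by rw [if_neg (hcon k (mem_range.1 hk)), mul_zero]] at h3
    exact absurd h3.symm (hom j hj.le).ne'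
  have him : (range r').image n = (range r).image p := by
    ext y
    simp only [mem_image, mem_range]
    constructor
    · rintro ⟨i, hi, rfl⟩; exact k1 i hi
    · rintro ⟨j, hj, rfl⟩; exact k2 j hj
  have hr : r' = r := by
    rw [← card_im hnd', ← card_im hpd, him]
  subst hr
  have hnp : ∀ i < r', n i = p i := by
    intro i hi
    obtain ⟨j, hj, h3⟩ := k1 i hi
    have h4 := count_pos hnd' hi
    have h5 := count_pos hpd hj
    rw [h3, ← him, h4] at h5
    rw [← h3, h5]
  refine ⟨rfl, hone, hnp, ?_⟩
  intro i hi
  rcases hi.lt_or_eq with h3 | h3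
  · have h4 := heq (n i) (hprime i h3)
    rw [hL i h3, hnp i h3, hR i h3] at h4
    exact h4
  · rw [h3]; exact z3

end Pool.Agent.NH24.DM
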