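import Pool.Agent.NH24.DM.Stm

/-!
# One scale
-/

set_option autoImplicit false

open Finset

namespace Pool.Agent.NH24.DM

open GD (mzv trunc pw dec)

/-- weighted partial sums of a list -/
def sgl (D : ℕ) (w : List ℕ) (i : ℕ) : ℕ := ∑ j ∈ range (i + 1), D ^ (i - j) * w.getD j 0

/-- the distance of the list `w` from the list `u` -/
def dsl (D : ℕ) (u w : List ℕ) : ℕ := ∑ i ∈ range (w.length - 1), (sgl D w i - sgl D u i)

lemma sgl_zero (D : ℕ) (w : List ℕ) : sgl D w 0 = w.getD 0 0 := by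
  unfold sgl
  rw [sum_range_one, Nat.sub_self, pow_zero, one_mul]

lemma sgl_succ (D : ℕ) (w : List ℕ) (i : ℕ) : sgl D w (i + 1) = D * sgl D w i + w.getD (i + 1) 0 := by
  unfold sgl
  rw [sum_range_succ, Nat.sub_self, pow_zero, one_mul, mul_sum]
  congr 1
  refine sum_congr rfl fun j hj => ?_
  rw [mem_range] at hj
  rw [show i + 1 - j = (i - j) + 1 by omega, pow_succ]
  ring

/-- the data at one scale -/
structure Dat (s : ℕ) where
  k : ℕ
  S : Finset (List ℕ)
  e : List ℕ → ℤ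
  u : Fin s → List ℕ
  f : List ℕ → Fin s
  c : ℝ
  B : ℝ

variable {s : ℕ}

/-- the conditions at one scale -/
structure Ok (D : ℕ) (δ C : ℝ) (d : Dat s) : Prop where
  k1 : 1 ≤ d.k
  c0 : 0 < d.c
  c1 : d.c ≤ 1
  sumS : ∀ w ∈ d.S, w.sum = d.k
  argS : ∀ w ∈ d.S, ∀ x ∈ w, δ * d.k ≤ (x : ℝ)
  uS : ∀ j, d.u j ∈ d.S
  e0 : ∀ j, d.e (d.u j) ≠ 0
  e1 : ∀ j, |(d.e (d.u j) : ℝ)| ≤ (1 + d.c) ^ d.k
  len : ∀ w ∈ d.S, (d.u (d.f w)).length = w.length
  dom : ∀ w ∈ d.S, ∀ i, i + 1 < w.length → sgl D (d.u (d.f w)) i ≤ sgl D w i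
  win : ∀ w ∈ d.S, ∀ i, i + 1 < w.length → (sgl D w i : ℝ) ≤ sgl D (d.u (d.f w)) i + d.c * d.k
  gro : ∀ w ∈ d.S, |(d.e w : ℝ)| ≤ C ^ dsl D (d.u (d.f w)) w * |(d.e (d.u (d.f w)) : ℝ)|
  sm : |∑ w ∈ d.S, (d.e w : ℝ) * mzv w| ≤ (d.B ^ d.k)⁻¹

variable {D : ℕ} {δ C : ℝ} {d : Dat s}

lemma len_mul_le (w : List ℕ) (a : ℝ) (h : ∀ x ∈ w, a ≤ (x : ℝ)) : (w.length : ℝ) * a ≤ (w.sum : ℝ) := by
  induction w with
  | nil => simp
  | cons x w ih =>
    have h1 := ih fun y hy => h y (List.mem_cons_of_mem _ hy)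
    have h2 := h x List.mem_cons_self
    rw [List.length_cons, List.sum_cons, Nat.cast_add, Nat.cast_add, Nat.cast_one]
    linarith

/-- the depth is bounded -/
lemma Ok.length (h : Ok D δ C d) (hδ : 0 < δ) {w : List ℕ} (hw : w ∈ d.S) : (w.length : ℝ) ≤ 1 / δ := by
  have hk : (0 : ℝ) < d.k := by exact_mod_cast h.k1
  have h1 := len_mul_le w (δ * d.k) (h.argS w hw)
  rw [h.sumS w hw] at h1
  rw [le_div_iff₀ hδ]
  have h2 : (w.length : ℝ) * δ * d.k ≤ 1 * d.k := by linarith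
  exact le_of_mul_le_mul_right h2 hk

lemma Ok.ne_nil (h : Ok D δ C d) {w : List ℕ} (hw : w ∈ d.S) : 1 ≤ w.length := by
  have h1 := h.sumS w hw
  have h2 := h.k1
  cases w with
  | nil =>
    rw [List.sum_nil] at h1
    omega
  | cons x w =>
    rw [List.length_cons]
    omega

lemma getD_le_sum (w : List ℕ) (i : ℕ) : w.getD i 0 ≤ w.sum := by
  induction w generalizing i with
  | nil => simp
  | cons x w ih =>
    cases i with
    | zero => simp
    | succ i =>
      rw [List.getD_cons_succ, List.sum_cons]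
      have := ih i
      omega

lemma sum_getD (w : List ℕ) : w.sum = ∑ i ∈ range w.length, w.getD i 0 := by
  induction w with
  | nil => simp
  | cons x w ih =>
    rw [List.sum_cons, List.length_cons, sum_range_succ', ih, add_comm]
    simp

/-- the arguments of the words of a block are near the arguments of its smallest word -/
lemma Ok.near_lt (h : Ok D δ C d) {w : List ℕ} (hw : w ∈ d.S) (i : ℕ) (hi : i + 1 < w.length) :
    |(w.getD i 0 : ℝ) - (d.u (d.f w)).getD i 0| ≤ (D + 1) * (d.c * d.k) := by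
  have hc : 0 ≤ d.c * d.k := mul_nonneg h.c0.le (Nat.cast_nonneg _)
  set u := d.u (d.f w) with hu
  have h1 : (sgl D u i : ℝ) ≤ sgl D w i := by exact_mod_cast h.dom w hw i hi
  have h2 := h.win w hw i hi
  rw [← hu] at h2
  cases i with
  | zero =>
    rw [sgl_zero, sgl_zero] at h1 h2
    rw [abs_le]
    have h3 : (0 : ℝ) ≤ D * (d.c * d.k) := by positivity
    constructor <;> nlinarith
  | succ i =>
    have h3 : (sgl D u i : ℝ) ≤ sgl D w i := by exact_mod_cast h.dom w hw i (by omega)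
    have h4 := h.win w hw i (by omega)
    rw [← hu] at h4
    rw [sgl_succ, sgl_succ] at h1 h2
    push_cast at h1 h2
    have hD : (0 : ℝ) ≤ D := Nat.cast_nonneg D
    have h5 : (D : ℝ) * sgl D u i ≤ D * sgl D w i := mul_le_mul_of_nonneg_left h3 hD
    have h6 : (D : ℝ) * sgl D w i ≤ D * (sgl D u i + d.c * d.k) := mul_le_mul_of_nonneg_left h4 hD
    rw [abs_le]
    constructor <;> nlinarith

lemma Ok.near (h : Ok D δ C d) {w : List ℕ} (hw : w ∈ d.S) (i : ℕ) :
    |(w.getD i 0 : ℝ) - (d.u (d.f w)).getD i 0| ≤ w.length * ((D + 1) * (d.c * d.k)) := by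
  have hc : 0 ≤ d.c * d.k := mul_nonneg h.c0.le (Nat.cast_nonneg _)
  have hX : 0 ≤ (D + 1) * (d.c * d.k) := by positivity
  have hl := h.ne_nil hw
  have hl' : (1 : ℝ) ≤ w.length := by exact_mod_cast hl
  rcases lt_trichotomy (i + 1) w.length with hi | hi | hi
  · refine (h.near_lt hw i hi).trans ?_
    nlinarith
  · set u := d.u (d.f w) with hu
    have h1 := h.sumS w hw
    have h2 := h.sumS u (h.uS _)
    rw [sum_getD, ← hi, sum_range_succ] at h1
    rw [sum_getD, h.len w hw, ← hi, sum_range_succ] at h2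
    have h3 : (∑ a ∈ range i, (w.getD a 0 : ℝ)) + w.getD i 0 =
        (∑ a ∈ range i, (u.getD a 0 : ℝ)) + u.getD i 0 := by
      have : ∑ a ∈ range i, w.getD a 0 + w.getD i 0 = ∑ a ∈ range i, u.getD a 0 + u.getD i 0 := by
        rw [h1, h2]
      exact_mod_cast this
    have h4 : (w.getD i 0 : ℝ) - u.getD i 0 = -∑ a ∈ range i, ((w.getD a 0 : ℝ) - u.getD a 0) := by
      rw [sum_sub_distrib]
      linarith
    rw [h4, abs_neg]
    refine (abs_sum_le_sum_abs _ _).trans ?_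
    refine (sum_le_sum fun a ha => h.near_lt hw a (by rw [mem_range] at ha; omega)).trans ?_
    rw [sum_const, card_range, nsmul_eq_mul]
    have h5 : (i : ℝ) ≤ w.length := by
      have : i ≤ w.length := by omega
      exact_mod_cast this
    exact mul_le_mul_of_nonneg_right h5 hX
  · have h1 : w.getD i 0 = 0 := List.getD_eq_default _ _ (by omega)
    have h2 : (d.u (d.f w)).getD i 0 = 0 := List.getD_eq_default _ _ (by rw [h.len w hw]; omega)
    rw [h1, h2]
    simp only [Nat.cast_zero, sub_self, abs_zero]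
    positivity

/-- the width of the windows -/
noncomputable def Dat.W (d : Dat s) (D : ℕ) (δ : ℝ) : ℕ := ⌊(D + 1) / δ * (d.c * d.k)⌋₊

lemma Ok.le_W (h : Ok D δ C d) (hδ : 0 < δ) {w : List ℕ} (hw : w ∈ d.S) (i : ℕ) :
    w.getD i 0 ≤ (d.u (d.f w)).getD i 0 + d.W D δ ∧ (d.u (d.f w)).getD i 0 ≤ w.getD i 0 + d.W D δ := by
  have hc : 0 ≤ d.c * d.k := mul_nonneg h.c0.le (Nat.cast_nonneg _)
  have hX : 0 ≤ (D + 1) * (d.c * d.k) := by positivity
  have h1 := h.near hw i
  have h2 : (w.length : ℝ) * ((D + 1) * (d.c * d.k)) ≤ (D + 1) / δ * (d.c * d.k) := by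
    have := mul_le_mul_of_nonneg_right (h.length hδ hw) hX
    calc (w.length : ℝ) * ((D + 1) * (d.c * d.k)) ≤ 1 / δ * ((D + 1) * (d.c * d.k)) := this
      _ = (D + 1) / δ * (d.c * d.k) := by ring
  have h3 := h1.trans h2
  rw [abs_le] at h3
  constructor
  · have h4 : ((w.getD i 0 - (d.u (d.f w)).getD i 0 : ℕ) : ℝ) ≤ (D + 1) / δ * (d.c * d.k) := by
      rcases le_total (w.getD i 0) ((d.u (d.f w)).getD i 0) with h5 | h5
      · rw [Nat.sub_eq_zero_of_le h5, Nat.cast_zero]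
        positivity
      · rw [Nat.cast_sub h5]
        linarith
    have h5 := Nat.le_floor h4
    unfold Dat.W
    omega
  · have h4 : (((d.u (d.f w)).getD i 0 - w.getD i 0 : ℕ) : ℝ) ≤ (D + 1) / δ * (d.c * d.k) := by
      rcases le_total ((d.u (d.f w)).getD i 0) (w.getD i 0) with h5 | h5
      · rw [Nat.sub_eq_zero_of_le h5, Nat.cast_zero]
        positivity
      · rw [Nat.cast_sub h5]
        linarith
    have h5 := Nat.le_floor h4
    unfold Dat.W
    omega

lemma dsl_le (h : Ok D δ C d) {w : List ℕ} (hw : w ∈ d.S) :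
    dsl D (d.u (d.f w)) w ≤ w.length * ⌊d.c * d.k⌋₊ := by
  have hc : 0 ≤ d.c * d.k := mul_nonneg h.c0.le (Nat.cast_nonneg _)
  unfold dsl
  refine (sum_le_sum (g := fun _ => ⌊d.c * d.k⌋₊) fun i hi => ?_).trans ?_
  · rw [mem_range] at hi
    apply Nat.le_floor
    have h1 := h.dom w hw i (by omega)
    have h2 := h.win w hw i (by omega)
    rw [Nat.cast_sub h1]
    linarith
  · rw [sum_const, card_range, smul_eq_mul]
    exact Nat.mul_le_mul_right _ (by omega)

/-- a bound for all coefficients -/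
noncomputable def Dat.cb (d : Dat s) (δ C : ℝ) : ℝ :=
  (max |C| 1) ^ (⌈1 / δ⌉₊ * ⌊d.c * d.k⌋₊) * (1 + d.c) ^ d.k

lemma Ok.coef (h : Ok D δ C d) (hδ : 0 < δ) {w : List ℕ} (hw : w ∈ d.S) :
    |(d.e w : ℝ)| ≤ d.cb δ C := by
  have h1 := h.gro w hw
  have h2 := h.e1 (d.f w)
  have hm : (1 : ℝ) ≤ max |C| 1 := le_max_right _ _
  have h3 : C ^ dsl D (d.u (d.f w)) w ≤ (max |C| 1) ^ (⌈1 / δ⌉₊ * ⌊d.c * d.k⌋₊) := by
    refine (le_abs_self _).trans ?_
    rw [abs_pow]
    refine (pow_le_pow_left₀ (abs_nonneg _) (le_max_left |C| 1) _).trans ?_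
    refine pow_le_pow_right₀ hm ((dsl_le h hw).trans (Nat.mul_le_mul_right _ ?_))
    have h4 := h.length hδ hw
    have h5 := Nat.le_ceil (1 / δ)
    exact_mod_cast h4.trans h5
  unfold Dat.cb
  calc |(d.e w : ℝ)| ≤ C ^ dsl D (d.u (d.f w)) w * |(d.e (d.u (d.f w)) : ℝ)| := h1
    _ ≤ (max |C| 1) ^ (⌈1 / δ⌉₊ * ⌊d.c * d.k⌋₊) * |(d.e (d.u (d.f w)) : ℝ)| :=
        mul_le_mul_of_nonneg_right h3 (abs_nonneg _)
    _ ≤ _ := mul_le_mul_of_nonneg_left h2 (by positivity)

/-- the number of words of given depth and weight -/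
lemma card_words (r k : ℕ) (S : Finset (List ℕ)) (hS : ∀ w ∈ S, w.length = r ∧ w.sum = k) :
    S.card ≤ (k + 1) ^ r := by
  classical
  have h1 : S ⊆ (Fintype.piFinset fun _ : Fin r => range (k + 1)).image List.ofFn := by
    intro w hw
    obtain ⟨h2, h3⟩ := hS w hw
    rw [mem_image]
    subst h2
    refine ⟨fun i => w.get i, ?_, List.ofFn_get w⟩
    rw [Fintype.mem_piFinset]
    intro i
    rw [mem_range]
    have : w.get i ≤ w.sum := List.single_le_sum (by simp) _ (List.get_mem w i)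
    omega
  refine (card_le_card h1).trans (card_image_le.trans ?_)
  rw [Fintype.card_piFinset]
  simp

end Pool.Agent.NH24.DM
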