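import Pool.Agent.NH24.DM.StmP

/-!
# The stuffle expansion of a combination on boundedly many lines is dominated by boundedly many words
-/

set_option autoImplicit false

open Finset

namespace Pool.Agent.NH24.DM

/-- the word with the letters `z.1 + z.2 t` -/
def Wd (t : ℕ) (om : List (ℤ × ℤ)) : List ℕ := om.map fun z => (z.1 + z.2 * (t : ℤ)).toNat

/-- the slopes of a word -/
def sl (om : List (ℤ × ℤ)) (j : ℕ) : ℤ := (om.getD j (0, 0)).2

/-- the bound for the number of words of a stuffle product -/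
noncomputable def Qn (δ : ℝ) : ℕ := (3 ^ ⌈1 / δ⌉₊) ^ ⌈1 / δ⌉₊

lemma sum_countP_le {α : Type} (l : List α) (I : Finset ℕ) (p : ℕ → α → Prop)
    [∀ t a, Decidable (p t a)]
    (h : ∀ a ∈ l, ∀ t ∈ I, ∀ t' ∈ I, p t a → p t' a → t = t') :
    ∑ t ∈ I, l.countP (fun a => decide (p t a)) ≤ l.length := by
  induction l with
  | nil => simp
  | cons a l ih =>
    have h1 := ih fun b hb => h b (List.mem_cons_of_mem _ hb)
    simp only [List.countP_cons, List.length_cons, sum_add_distrib, decide_eq_true_eq]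
    have h2 : ∑ t ∈ I, (if p t a then 1 else 0) ≤ 1 := by
      rw [← card_filter, card_le_one]
      intro t ht t' ht'
      rw [mem_filter] at ht ht'
      exact h a List.mem_cons_self t ht.1 t' ht'.1 ht.2 ht'.2
    omega

variable {δ H : ℝ} {s D : ℕ} {c : ℝ} {k : ℕ} {F : Fin s → List (List (ℤ × ℤ))}
  {I : Fin s → Finset ℕ} {L : Fin s → ℕ → List (List ℕ)} {a : Fin s → ℕ → ℤ}

lemma stgl_maps (h : Lines δ H s D c k F I L a) (h1 : STMAP) {i : Fin s} {t : ℕ} (ht : t ∈ I i) :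
    (stgl (L i t)).map (List.map fun x : ℕ => (x : ℤ)) =
      (stgl (F i)).map (List.map fun z => z.1 + z.2 * (t : ℤ)) := by
  rw [← h1 ℕ ℤ _ _ (fun x : ℕ => (x : ℤ)) (fun x y => Nat.cast_add x y), h.ev i t ht,
    h1 (ℤ × ℤ) ℤ _ _ (fun z => z.1 + z.2 * (t : ℤ)) (fun x y => by
      rw [Prod.fst_add, Prod.snd_add]; ring)]

lemma stgl_eq (h : Lines δ H s D c k F I L a) (h1 : STMAP) {i : Fin s} {t : ℕ} (ht : t ∈ I i) :
    stgl (L i t) = (stgl (F i)).map (Wd t) := by
  have h2 := congrArg (List.map (List.map Int.toNat)) (stgl_maps h h1 ht)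
  rw [List.map_map, List.map_map] at h2
  have h3 : (List.map Int.toNat ∘ List.map fun x : ℕ => (x : ℤ)) = (id : List ℕ → List ℕ) := by
    funext l
    rw [Function.comp_apply, List.map_map]
    have : (Int.toNat ∘ fun x : ℕ => (x : ℤ)) = id := by
      funext x
      simp
    rw [this, List.map_id]
    rfl
  rw [h3, List.map_id] at h2
  rw [h2]
  refine List.map_congr_left fun w _ => ?_
  rw [Function.comp_apply, List.map_map]
  rfl

lemma wd_cast (h : Lines δ H s D c k F I L a) (h1 : STMAP) {i : Fin s} {t : ℕ} (ht : t ∈ I i)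
    {om : List (ℤ × ℤ)} (hom : om ∈ stgl (F i)) :
    (Wd t om).map (fun x : ℕ => (x : ℤ)) = om.map fun z => z.1 + z.2 * (t : ℤ) := by
  have h2 : (om.map fun z => z.1 + z.2 * (t : ℤ)) ∈
      (stgl (L i t)).map (List.map fun x : ℕ => (x : ℤ)) := by
    rw [stgl_maps h h1 ht]
    exact List.mem_map_of_mem hom
  obtain ⟨v, -, hv⟩ := List.mem_map.1 h2
  have h3 : Wd t om = v := by
    have h4 := congrArg (List.map Int.toNat) hv
    rw [List.map_map, List.map_map] at h4
    have : (Int.toNat ∘ fun x : ℕ => (x : ℤ)) = id := by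
      funext x
      simp
    rw [this, List.map_id] at h4
    rw [h4]
    rfl
  rw [h3, hv]

lemma wd_getD (h : Lines δ H s D c k F I L a) (h1 : STMAP) {i : Fin s} {t : ℕ} (ht : t ∈ I i)
    {om : List (ℤ × ℤ)} (hom : om ∈ stgl (F i)) (j : ℕ) :
    (((Wd t om).getD j 0 : ℕ) : ℤ) = (om.getD j (0, 0)).1 + sl om j * (t : ℤ) := by
  have h2 := congrArg (fun l : List ℤ => l.getD j 0) (wd_cast h h1 ht hom)
  have e1 := List.getD_map (l := Wd t om) (n := j) (d := 0) (f := fun x : ℕ => (x : ℤ))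
  have e2 := List.getD_map (l := om) (n := j) (d := (0, 0)) (f := fun z : ℤ × ℤ => z.1 + z.2 * (t : ℤ))
  simp only [Nat.cast_zero, zero_mul, add_zero] at e1 e2
  beta_reduce at h2
  rw [e1, e2] at h2
  exact h2

lemma wd_length (t : ℕ) (om : List (ℤ × ℤ)) : (Wd t om).length = om.length := by
  unfold Wd
  rw [List.length_map]

/-- the number of letters -/
lemma letters (h : Lines δ H s D c k F I L a) (hδ : 0 < δ) (hk : 0 < k) {i : Fin s} {t : ℕ}
    (ht : t ∈ I i) : ((F i).map List.length).sum ≤ ⌈1 / δ⌉₊ := by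
  have h1 : (F i).map List.length = (L i t).map List.length := by
    have := congrArg (List.map List.length) (h.ev i t ht)
    rw [List.map_map, List.map_map] at this
    have e1 : (List.length ∘ List.map fun x : ℕ => (x : ℤ)) = List.length := by
      funext l; simp
    have e2 : (List.length ∘ List.map fun z : ℤ × ℤ => z.1 + z.2 * (t : ℤ)) = List.length := by
      funext l; simp
    rw [e1, e2] at this
    exact this.symm
  rw [h1]
  have h2 := len_mul_le (L i t).flatten (δ * k) (by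
    intro x hx
    obtain ⟨w, hw, hxw⟩ := List.mem_flatten.1 hx
    exact h.arg i t ht w hw x hxw)
  rw [List.length_flatten, List.sum_flatten, h.wt i t ht] at h2
  have hk' : (0 : ℝ) < k := by exact_mod_cast hk
  have h3 : ((((L i t).map List.length).sum : ℕ) : ℝ) ≤ 1 / δ := by
    rw [le_div_iff₀ hδ]
    have : ((((L i t).map List.length).sum : ℕ) : ℝ) * δ * k ≤ 1 * k := by linarith
    exact le_of_mul_le_mul_right this hk'
  have h4 := h3.trans (Nat.le_ceil (1 / δ))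
  exact_mod_cast h4

/-- the number of the words of the expansion -/
lemma num_le (h : Lines δ H s D c k F I L a) (h2 : STLET) (hδ : 0 < δ) (hk : 0 < k) {i : Fin s} {t : ℕ}
    (ht : t ∈ I i) : (stgl (F i)).length ≤ Qn δ := by
  have h3 := letters h hδ hk ht
  refine (h2.2.2.2 (ℤ × ℤ) _ (F i) _ h3).trans (Nat.pow_le_pow_right (by positivity) ?_)
  have h4 := List.length_le_sum_of_one_le ((F i).map List.length) (by
    intro n hn
    obtain ⟨w, hw, rfl⟩ := List.mem_map.1 hn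
    have := h.ne i w hw
    exact List.length_pos_iff.2 this)
  rw [List.length_map] at h4
  exact h4.trans h3

lemma le_sum_map {α : Type} (g : α → ℕ) (l : List α) {x : α} (hx : x ∈ l) : g x ≤ (l.map g).sum :=
  List.single_le_sum (by simp) _ (List.mem_map_of_mem hx)

/-- the slopes of the words of the expansion -/
lemma sl_le (h : Lines δ H s D c k F I L a) (h2 : STLET) (hδ : 0 < δ) (hk : 0 < k) {i : Fin s} {t : ℕ}
    (ht : t ∈ I i) {om : List (ℤ × ℤ)} (hom : om ∈ stgl (F i)) (j : ℕ) :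
    |sl om j| ≤ ((D * ⌈1 / δ⌉₊ : ℕ) : ℤ) := by
  have h3 := h2.1 (ℤ × ℤ) _ (fun z => z.2.natAbs) (fun x y => by
    rw [Prod.snd_add]; exact Int.natAbs_add_le _ _) (F i) om hom
  have h4 : ((F i).map fun u => (u.map fun z : ℤ × ℤ => z.2.natAbs).sum).sum ≤
      D * ((F i).map List.length).sum := by
    have key : ∀ M : List (List (ℤ × ℤ)), (∀ w ∈ M, ∀ z ∈ w, |z.2| ≤ (D : ℤ)) →
        (M.map fun u => (u.map fun z : ℤ × ℤ => z.2.natAbs).sum).sum ≤ D * (M.map List.length).sum := by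
      intro M hM
      induction M with
      | nil => simp
      | cons u M ih =>
        have h5 := ih fun w hw => hM w (List.mem_cons_of_mem _ hw)
        have h6 : (u.map fun z : ℤ × ℤ => z.2.natAbs).sum ≤ u.length * D := by
          have := List.sum_le_card_nsmul (u.map fun z : ℤ × ℤ => z.2.natAbs) D (by
            intro x hx
            obtain ⟨z, hz, rfl⟩ := List.mem_map.1 hx
            have h7 := hM u List.mem_cons_self z hz
            rw [Int.abs_eq_natAbs] at h7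
            exact_mod_cast h7)
          rw [List.length_map, smul_eq_mul] at this
          exact this
        rw [List.map_cons, List.sum_cons, List.map_cons, List.sum_cons]
        nlinarith
    exact key (F i) (fun w hw z hz => h.slope i w hw z hz)
  have h5 := letters h hδ hk ht
  have h6 : (om.map fun z : ℤ × ℤ => z.2.natAbs).sum ≤ D * ⌈1 / δ⌉₊ :=
    h3.trans (h4.trans (Nat.mul_le_mul_left _ h5))
  have h7 : (sl om j).natAbs ≤ (om.map fun z : ℤ × ℤ => z.2.natAbs).sum := by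
    unfold sl
    rcases Nat.lt_or_ge j om.length with hj | hj
    · rw [List.getD_eq_getElem _ _ hj]
      exact le_sum_map (fun z : ℤ × ℤ => z.2.natAbs) om (List.getElem_mem hj)
    · rw [List.getD_eq_default _ _ hj]
      simp
  have h8 := h7.trans h6
  rw [Int.abs_eq_natAbs]
  exact_mod_cast h8

/-- the words of the expansion -/
lemma word_sum (h : Lines δ H s D c k F I L a) (h2 : STLET) {i : Fin s} {t : ℕ}
    (ht : t ∈ I i) {w : List ℕ} (hw : w ∈ stgl (L i t)) : w.sum = k := by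
  rw [h2.2.2.1 (L i t) w hw, h.wt i t ht]

lemma word_arg (h : Lines δ H s D c k F I L a) (h2 : STLET) {i : Fin s} {t : ℕ}
    (ht : t ∈ I i) {w : List ℕ} (hw : w ∈ stgl (L i t)) : ∀ x ∈ w, δ * k ≤ (x : ℝ) :=
  h2.2.1 ℕ _ (fun x => δ * k ≤ (x : ℝ)) (fun x y hx hy => by
    push_cast
    have : (0 : ℝ) ≤ y := Nat.cast_nonneg y
    linarith) (L i t) (fun u hu x hx => h.arg i t ht u hu x hx) w hw

lemma word_len (h : Lines δ H s D c k F I L a) (h2 : STLET) (hδ : 0 < δ) (hk : 0 < k) {i : Fin s} {t : ℕ}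
    (ht : t ∈ I i) {w : List ℕ} (hw : w ∈ stgl (L i t)) : w.length ≤ ⌈1 / δ⌉₊ := by
  have h3 := len_mul_le w (δ * k) (word_arg h h2 ht hw)
  rw [word_sum h h2 ht hw] at h3
  have hk' : (0 : ℝ) < k := by exact_mod_cast hk
  have h4 : (w.length : ℝ) ≤ 1 / δ := by
    rw [le_div_iff₀ hδ]
    have : (w.length : ℝ) * δ * k ≤ 1 * k := by linarith
    exact le_of_mul_le_mul_right this hk'
  exact_mod_cast h4.trans (Nat.le_ceil (1 / δ))

/-- the coefficients by the words of `F` -/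
lemma cf_eq (h : Lines δ H s D c k F I L a) (h1 : STMAP) (v : List ℕ) :
    Cf I L a v = ∑ i, ∑ t ∈ I i, a i t * ((stgl (F i)).countP (fun om => decide (Wd t om = v)) : ℤ) := by
  unfold Cf
  refine sum_congr rfl fun i _ => sum_congr rfl fun t ht => ?_
  rw [stgl_eq h h1 ht, List.countP_map]
  rfl

lemma card_I (h : Lines δ H s D c k F I L a) (hc : 0 ≤ c) (i : Fin s) : ((I i).card : ℝ) ≤ c * k + 1 := by
  have hck : 0 ≤ c * k := mul_nonneg hc (Nat.cast_nonneg _)
  have h1 : I i ⊆ range (⌊c * k⌋₊ + 1) := by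
    intro t ht
    rw [mem_range]
    have := Nat.le_floor (h.It i t ht)
    omega
  have h2 := card_le_card h1
  rw [card_range] at h2
  have h3 : ((I i).card : ℝ) ≤ (⌊c * k⌋₊ + 1 : ℕ) := by exact_mod_cast h2
  push_cast at h3
  have h4 := Nat.floor_le hck
  linarith

lemma cf_le (h : Lines δ H s D c k F I L a) (h1 : STMAP) (h2 : STLET) (hδ : 0 < δ) (hk : 0 < k)
    (hc : 0 ≤ c) (v : List ℕ) :
    |(Cf I L a v : ℝ)| ≤ s * ((c * k + 1) * (|H| * (Qn δ : ℝ))) := by
  rw [cf_eq h h1]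
  push_cast
  refine (abs_sum_le_sum_abs _ _).trans ?_
  calc _ ≤ ∑ _i : Fin s, (c * k + 1) * (|H| * (Qn δ : ℝ)) := ?_
    _ = _ := by rw [sum_const, card_univ, Fintype.card_fin, nsmul_eq_mul]
  refine sum_le_sum fun i _ => ?_
  refine (abs_sum_le_sum_abs _ _).trans ?_
  calc _ ≤ ∑ _t ∈ I i, |H| * (Qn δ : ℝ) := ?_
    _ = ((I i).card : ℝ) * (|H| * (Qn δ : ℝ)) := by
        rw [sum_const, nsmul_eq_mul]
    _ ≤ _ := mul_le_mul_of_nonneg_right (card_I h hc i) (by positivity)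
  refine sum_le_sum fun t ht => ?_
  rw [abs_mul]
  refine mul_le_mul ((h.coef i t ht).trans (le_abs_self H)) ?_ (abs_nonneg _) (abs_nonneg _)
  rw [Nat.abs_cast]
  exact_mod_cast List.countP_le_length.trans (num_le h h2 hδ hk ht)

lemma cf_le' (h : Lines δ H s D c k F I L a) (h1 : STMAP) (h2 : STLET) (hδ : 0 < δ) (hk : 0 < k)
    (v : List ℕ) (hv : ∀ i, ∀ om ∈ stgl (F i), ∀ t ∈ I i, Wd t om = v → ∃ z ∈ om, z.2 ≠ 0) :
    |(Cf I L a v : ℝ)| ≤ s * (|H| * (Qn δ : ℝ)) := by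
  rw [cf_eq h h1]
  push_cast
  refine (abs_sum_le_sum_abs _ _).trans ?_
  calc _ ≤ ∑ _i : Fin s, (|H| * (Qn δ : ℝ)) := ?_
    _ = _ := by rw [sum_const, card_univ, Fintype.card_fin, nsmul_eq_mul]
  refine sum_le_sum fun i _ => ?_
  rcases (I i).eq_empty_or_nonempty with hI | ⟨t0, ht0⟩
  · rw [hI, sum_empty, abs_zero]
    positivity
  refine (abs_sum_le_sum_abs _ _).trans ?_
  calc _ ≤ ∑ t ∈ I i, |H| * (((stgl (F i)).countP (fun om => decide (Wd t om = v)) : ℕ) : ℝ) := ?_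
    _ = |H| * ((∑ t ∈ I i, (stgl (F i)).countP (fun om => decide (Wd t om = v)) : ℕ) : ℝ) := by
        rw [← mul_sum]
        push_cast
        rfl
    _ ≤ _ := ?_
  · refine sum_le_sum fun t ht => ?_
    rw [abs_mul, Nat.abs_cast]
    exact mul_le_mul_of_nonneg_right ((h.coef i t ht).trans (le_abs_self H)) (Nat.cast_nonneg _)
  · refine mul_le_mul_of_nonneg_left ?_ (abs_nonneg H)
    have h3 := sum_countP_le (stgl (F i)) (I i) (fun t om => Wd t om = v) (by
      intro om hom t ht t' ht' e e'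
      obtain ⟨z, hz, hz0⟩ := hv i om hom t ht e
      have h4 := wd_cast h h1 ht hom
      have h5 := wd_cast h h1 ht' hom
      rw [e] at h4
      rw [e', h4] at h5
      have h6 := (List.map_inj_left.1 h5) z hz
      have h7 : z.2 * ((t : ℤ) - t') = 0 := by linarith
      rcases mul_eq_zero.1 h7 with h8 | h8
      · exact absurd h8 hz0
      · omega)
    exact_mod_cast h3.trans (num_le h h2 hδ hk ht0)

/-- exponential against linear -/
lemma exp_beats (A c c' : ℝ) (hA : 0 ≤ A) (hc : 0 ≤ c) (hc' : 0 < c') :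
    ∃ k0 : ℕ, 1 ≤ k0 ∧ ∀ k : ℕ, k0 ≤ k → A * (c * k + 1) ≤ (1 + c') ^ k := by
  have h1 := tendsto_pow_const_div_const_pow_of_one_lt 1 (by linarith : (1 : ℝ) < 1 + c')
  have hB : 0 < A * (c + 1) + 1 := by positivity
  have h2 := (h1.eventually (gt_mem_nhds (by positivity : (0 : ℝ) < 1 / (A * (c + 1) + 1))))
  obtain ⟨k1, hk1⟩ := Filter.eventually_atTop.1 h2
  refine ⟨max k1 1, le_max_right _ _, fun k hk => ?_⟩
  have h3 := hk1 k ((le_max_left _ _).trans hk)
  have h4 : (1 : ℝ) ≤ k := by exact_mod_cast (le_max_right _ _).trans hk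
  have hp : (0 : ℝ) < (1 + c') ^ k := by positivity
  rw [pow_one, div_lt_div_iff₀ hp hB] at h3
  have h5 : c * k + 1 ≤ (c + 1) * k := by linarith
  calc A * (c * k + 1) ≤ A * ((c + 1) * k) := mul_le_mul_of_nonneg_left h5 hA
    _ ≤ k * (A * (c + 1) + 1) := by nlinarith
    _ ≤ (1 + c') ^ k := by linarith

/-- the first nonzero slope is negative -/
def Ng (om : List (ℤ × ℤ)) : Prop := ∃ i0, (∀ j < i0, sl om j = 0) ∧ sl om i0 < 0

lemma exists_X (J : Finset ℕ) (om : List (ℤ × ℤ)) : ∃ X : Finset (List ℕ), X.card ≤ 1 ∧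
    (∀ v ∈ X, ∃ t ∈ J, v = Wd t om) ∧ (J.Nonempty → ∃ τ ∈ J, Wd τ om ∈ X ∧
      ((Ng om ∧ ∀ t ∈ J, t ≤ τ) ∨ (¬ Ng om ∧ ∀ t ∈ J, τ ≤ t))) := by
  classical
  rcases J.eq_empty_or_nonempty with rfl | hJ
  · exact ⟨∅, by simp, by simp, by simp⟩
  · by_cases hN : Ng om
    · refine ⟨{Wd (J.max' hJ) om}, by simp, ?_, fun _ => ⟨J.max' hJ, J.max'_mem hJ, by simp,
        Or.inl ⟨hN, fun t ht => J.le_max' t ht⟩⟩⟩
      intro v hv
      exact ⟨_, J.max'_mem hJ, mem_singleton.1 hv⟩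
    · refine ⟨{Wd (J.min' hJ) om}, by simp, ?_, fun _ => ⟨J.min' hJ, J.min'_mem hJ, by simp,
        Or.inr ⟨hN, fun t ht => J.min'_le t ht⟩⟩⟩
      intro v hv
      exact ⟨_, J.min'_mem hJ, mem_singleton.1 hv⟩

lemma dom_of (h : Lines δ H s D c k F I L a) (h1 : STMAP) (h2 : STLET) (h3 : DOML) (hδ : 0 < δ)
    (hk : 0 < k) {i : Fin s} {t τ : ℕ} (ht : t ∈ I i) (hτ : τ ∈ I i) {om : List (ℤ × ℤ)}
    (hom : om ∈ stgl (F i)) (hsl : ∃ j, sl om j ≠ 0)
    (hor : (Ng om ∧ t ≤ τ) ∨ (¬ Ng om ∧ τ ≤ t)) :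
    ∃ m : ℕ, (m : ℝ) ≤ c * k ∧ ∀ j, sgl (D * ⌈1 / δ⌉₊ + 1) (Wd τ om) j ≤ sgl (D * ⌈1 / δ⌉₊ + 1) (Wd t om) j ∧
      sgl (D * ⌈1 / δ⌉₊ + 1) (Wd t om) j ≤
        sgl (D * ⌈1 / δ⌉₊ + 1) (Wd τ om) j + m * (D * ⌈1 / δ⌉₊ + 1) ^ (j + 1) := by
  classical
  set i0 := Nat.find hsl with hi0
  have hz : ∀ j < i0, sl om j = 0 := fun j hj => by
    have := Nat.find_min hsl hj
    simpa using this
  have hn : sl om i0 ≠ 0 := Nat.find_spec hsl
  have hg := wd_getD h h1 ht hom
  have hg' := wd_getD h h1 hτ hom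
  rcases lt_or_gt_of_ne hn with hneg | hpos
  · have hle : t ≤ τ := by
      rcases hor with h5 | h5
      · exact h5.2
      · exact absurd ⟨i0, hz, hneg⟩ h5.1
    refine ⟨τ - t, ?_, ?_⟩
    · refine le_trans ?_ (h.It i τ hτ)
      exact_mod_cast Nat.sub_le _ _
    · refine h3 (D * ⌈1 / δ⌉₊) (Wd τ om) (Wd t om) (fun j => -sl om j) (τ - t) i0 (fun j => ?_) (fun j => ?_)
        (fun j hj => ?_) ?_
      · rw [hg, hg', Nat.cast_sub hle]
        ring
      · rw [abs_neg]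
        exact sl_le h h2 hδ hk ht hom j
      · rw [hz j hj, neg_zero]
      · linarith
  · have hle : τ ≤ t := by
      rcases hor with ⟨⟨i1, h5, h6⟩, -⟩ | h5
      · exfalso
        rcases lt_trichotomy i0 i1 with h7 | h7 | h7
        · exact hn (h5 i0 h7)
        · rw [← h7] at h6
          linarith
        · have := hz i1 h7
          omega
      · exact h5.2
    refine ⟨t - τ, ?_, ?_⟩
    · refine le_trans ?_ (h.It i t ht)
      exact_mod_cast Nat.sub_le _ _
    · refine h3 (D * ⌈1 / δ⌉₊) (Wd τ om) (Wd t om) (fun j => sl om j) (t - τ) i0 (fun j => ?_) (fun j => ?_)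
        (fun j hj => hz j hj) hpos
      · rw [hg, hg', Nat.cast_sub hle]
        ring
      · exact sl_le h h2 hδ hk ht hom j

lemma dsl_self (D : ℕ) (w : List ℕ) : dsl D w w = 0 := by
  unfold dsl
  simp

theorem comb_of (h1 : STMAP) (h2 : STLET) (h3 : DOML) (h4 : DIST0) : COMB := by
  classical
  intro δ H s D hδ
  refine ⟨s * (|H| * (Qn δ : ℝ)) + 1, s * Qn δ, D * ⌈1 / δ⌉₊ + 1, fun c' hc' => ?_⟩
  set R := ⌈1 / δ⌉₊ with hR
  set D' : ℕ := D * R + 1 with hD'
  have hD1 : 1 ≤ D' := by omega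
  have hDp : (0 : ℝ) < (D' : ℝ) ^ R := by
    have : (0 : ℝ) < D' := by exact_mod_cast hD1
    positivity
  set c : ℝ := c' / (D' : ℝ) ^ R with hc
  have hc0 : 0 < c := by positivity
  obtain ⟨k0, hk0, hexp⟩ := exp_beats (s * (|H| * (Qn δ : ℝ))) c c' (by positivity) hc0.le hc'
  refine ⟨c, hc0, k0, fun k hk F I L a h hex => ?_⟩
  have hk1 : 0 < k := by omega
  have hX := fun (i : Fin s) (om : List (ℤ × ℤ)) =>
    exists_X ((I i).filter fun t => Cf I L a (Wd t om) ≠ 0) om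
  choose X hX1 hX2 hX3 using hX
  set S : Finset (List ℕ) := (univ.biUnion fun i => (I i).biUnion fun t => (stgl (L i t)).toFinset).filter
    (fun v => Cf I L a v ≠ 0) with hS
  set T : Finset (List ℕ) := univ.biUnion fun i => (stgl (F i)).toFinset.biUnion (X i) with hT
  have hmemS : ∀ v, v ∈ S ↔ (∃ i, ∃ t ∈ I i, ∃ om ∈ stgl (F i), Wd t om = v) ∧ Cf I L a v ≠ 0 := by
    intro v
    rw [hS, mem_filter, mem_biUnion]
    refine and_congr_left fun _ => ?_
    constructor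
    · rintro ⟨i, -, hi⟩
      rw [mem_biUnion] at hi
      obtain ⟨t, ht, hv⟩ := hi
      rw [List.mem_toFinset, stgl_eq h h1 ht, List.mem_map] at hv
      exact ⟨i, t, ht, hv⟩
    · rintro ⟨i, t, ht, hv⟩
      refine ⟨i, mem_univ _, ?_⟩
      rw [mem_biUnion]
      refine ⟨t, ht, ?_⟩
      rw [List.mem_toFinset, stgl_eq h h1 ht, List.mem_map]
      exact hv
  have hmemL : ∀ v ∈ S, ∃ i, ∃ t ∈ I i, v ∈ stgl (L i t) := by
    intro v hv
    obtain ⟨⟨i, t, ht, om, hom, e⟩, -⟩ := (hmemS v).1 hv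
    refine ⟨i, t, ht, ?_⟩
    rw [stgl_eq h h1 ht, List.mem_map]
    exact ⟨om, hom, e⟩
  have hmemT : ∀ v, v ∈ T ↔ ∃ i, ∃ om ∈ stgl (F i), v ∈ X i om := by
    intro v
    rw [hT, mem_biUnion]
    constructor
    · rintro ⟨i, -, hi⟩
      rw [mem_biUnion] at hi
      obtain ⟨om, hom, hv⟩ := hi
      exact ⟨i, om, List.mem_toFinset.1 hom, hv⟩
    · rintro ⟨i, om, hom, hv⟩
      refine ⟨i, mem_univ _, ?_⟩
      rw [mem_biUnion]
      exact ⟨om, List.mem_toFinset.2 hom, hv⟩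
  have hout : ∀ v, v ∉ S → Cf I L a v = 0 := by
    intro v hv
    by_contra hne
    apply hv
    refine (hmemS v).2 ⟨?_, hne⟩
    rw [cf_eq h h1] at hne
    obtain ⟨i, -, hi⟩ := exists_ne_zero_of_sum_ne_zero hne
    obtain ⟨t, ht, hi⟩ := exists_ne_zero_of_sum_ne_zero hi
    have h5 : (stgl (F i)).countP (fun om => decide (Wd t om = v)) ≠ 0 := by
      intro h6
      apply hi
      rw [h6]
      simp
    obtain ⟨om, hom, h7⟩ := List.countP_pos_iff.1 (Nat.pos_of_ne_zero h5)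
    exact ⟨i, t, ht, om, hom, by simpa using h7⟩
  -- a word of `S` on the line `(i, om)` gives a word of `T`
  have hpick : ∀ (i : Fin s) (t : ℕ), t ∈ I i → ∀ om ∈ stgl (F i), Cf I L a (Wd t om) ≠ 0 →
      ∃ τ ∈ I i, Wd τ om ∈ T ∧ ((Ng om ∧ t ≤ τ) ∨ (¬ Ng om ∧ τ ≤ t)) := by
    intro i t ht om hom hne
    have htJ : t ∈ (I i).filter fun t => Cf I L a (Wd t om) ≠ 0 := mem_filter.2 ⟨ht, hne⟩
    obtain ⟨τ, hτ, hτX, hor⟩ := hX3 i om ⟨t, htJ⟩
    refine ⟨τ, (mem_filter.1 hτ).1, (hmemT _).2 ⟨i, om, hom, hτX⟩, ?_⟩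
    rcases hor with h5 | h5
    · exact Or.inl ⟨h5.1, h5.2 t htJ⟩
    · exact Or.inr ⟨h5.1, h5.2 t htJ⟩
  have hsub : T ⊆ S := by
    intro v hv
    obtain ⟨i, om, hom, hvX⟩ := (hmemT v).1 hv
    obtain ⟨t, ht, e⟩ := hX2 i om v hvX
    rw [mem_filter] at ht
    exact (hmemS v).2 ⟨⟨i, t, ht.1, om, hom, e.symm⟩, by rw [e]; exact ht.2⟩
  refine ⟨S, T, ⟨?_, hsub, ?_, ?_, ?_, ?_, ?_, ?_⟩, hout⟩
  · obtain ⟨v, hv⟩ := hex
    have hvS : v ∈ S := by
      by_contra h5
      exact hv (hout v h5)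
    obtain ⟨⟨i, t, ht, om, hom, rfl⟩, hne⟩ := (hmemS v).1 hvS
    obtain ⟨τ, -, hτ, -⟩ := hpick i t ht om hom hne
    exact ⟨_, hτ⟩
  · rw [hT]
    refine card_biUnion_le.trans ?_
    calc _ ≤ ∑ _i : Fin s, Qn δ := ?_
      _ = s * Qn δ := by rw [sum_const, card_univ, Fintype.card_fin, smul_eq_mul]
    refine sum_le_sum fun i _ => ?_
    rcases (I i).eq_empty_or_nonempty with hI | ⟨t0, ht0⟩
    · have : (stgl (F i)).toFinset.biUnion (X i) = ∅ := by
        rw [eq_empty_iff_forall_notMem]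
        intro v hv
        rw [mem_biUnion] at hv
        obtain ⟨om, -, hv⟩ := hv
        obtain ⟨t, ht, -⟩ := hX2 i om v hv
        rw [hI, filter_empty] at ht
        exact absurd ht (notMem_empty t)
      rw [this, card_empty]
      exact Nat.zero_le _
    · refine card_biUnion_le.trans ((sum_le_sum fun om _ => hX1 i om).trans ?_)
      rw [sum_const, smul_eq_mul, mul_one]
      exact (List.toFinset_card_le _).trans (num_le h h2 hδ hk1 ht0)
  · intro w hw
    obtain ⟨i, t, ht, hwL⟩ := hmemL w hw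
    exact word_sum h h2 ht hwL
  · intro w hw
    obtain ⟨i, t, ht, hwL⟩ := hmemL w hw
    exact word_arg h h2 ht hwL
  · intro u hu
    exact ((hmemS u).1 (hsub hu)).2
  · intro u _
    refine (cf_le h h1 h2 hδ hk1 hc0.le u).trans (le_trans (le_of_eq ?_) (hexp k hk))
    ring
  · intro w hw
    have hcomm : ∀ u, u = w → u ∈ T → ∃ u ∈ T, u.length = w.length ∧
        (∀ i, i + 1 < w.length → sgl D' u i ≤ sgl D' w i ∧ (sgl D' w i : ℝ) ≤ sgl D' u i + c' * k) ∧
        |(Cf I L a w : ℝ)| ≤ (s * (|H| * (Qn δ : ℝ)) + 1) ^ dsl D' u w * |(Cf I L a u : ℝ)| := by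
      rintro u rfl hu
      refine ⟨u, hu, rfl, fun j _ => ⟨le_rfl, ?_⟩, ?_⟩
      · have : 0 ≤ c' * k := by positivity
        linarith
      · rw [dsl_self, pow_zero, one_mul]
    by_cases hA : ∃ i, ∃ t ∈ I i, ∃ om ∈ stgl (F i), Wd t om = w ∧ ∀ z ∈ om, z.2 = 0
    · obtain ⟨i, t, ht, om, hom, e, hz⟩ := hA
      obtain ⟨τ, -, hτ, -⟩ := hpick i t ht om hom (by rw [e]; exact ((hmemS w).1 hw).2)
      refine hcomm (Wd τ om) ?_ hτ
      rw [← e]
      unfold Wd
      refine List.map_congr_left fun z hzm => ?_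
      rw [hz z hzm]
      simp
    · obtain ⟨⟨i, t, ht, om, hom, e⟩, hne⟩ := (hmemS w).1 hw
      obtain ⟨τ, hτI, hτ, hor⟩ := hpick i t ht om hom (by rw [e]; exact hne)
      by_cases huw : Wd τ om = w
      · exact hcomm _ huw hτ
      have hsl : ∃ j, sl om j ≠ 0 := by
        by_contra hcon
        push Not at hcon
        apply hA
        refine ⟨i, t, ht, om, hom, e, fun z hz => ?_⟩
        obtain ⟨j, hj, rfl⟩ := List.getElem_of_mem hz
        have := hcon j
        unfold sl at this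
        rwa [List.getD_eq_getElem _ _ hj] at this
      obtain ⟨m, hm, hdom⟩ := dom_of h h1 h2 h3 hδ hk1 ht hτI hom hsl hor
      rw [e] at hdom
      have hlen : (Wd τ om).length = w.length := by rw [← e, wd_length, wd_length]
      refine ⟨Wd τ om, hτ, hlen, fun j hj => ⟨(hdom j).1, ?_⟩, ?_⟩
      · have h5 : ((sgl D' w j : ℕ) : ℝ) ≤ ((sgl D' (Wd τ om) j + m * D' ^ (j + 1) : ℕ) : ℝ) := by
          exact_mod_cast (hdom j).2
        have h6 : (m : ℝ) * (D' : ℝ) ^ (j + 1) ≤ c' * k := by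
          obtain ⟨i', t', ht', hwL⟩ := hmemL w hw
          have h7 := word_len h h2 hδ hk1 ht' hwL
          have h8 : (D' : ℝ) ^ (j + 1) ≤ (D' : ℝ) ^ R :=
            pow_le_pow_right₀ (by exact_mod_cast hD1) (by omega)
          calc (m : ℝ) * (D' : ℝ) ^ (j + 1) ≤ (c * k) * (D' : ℝ) ^ R :=
                mul_le_mul hm h8 (by positivity) (by positivity)
            _ = c' * k := by rw [hc]; field_simp
        push_cast at h5
        linarith
      · have h5 : dsl D' (Wd τ om) w ≠ 0 := by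
          intro h0
          apply huw
          obtain ⟨i', t', ht', hwL⟩ := hmemL w hw
          obtain ⟨i2, t2, ht2, huL⟩ := hmemL _ (hsub hτ)
          exact h4 D' _ _ hlen (by rw [word_sum h h2 ht' hwL, word_sum h h2 ht2 huL])
            (fun j _ => (hdom j).1) h0
        have h6 := cf_le' h h1 h2 hδ hk1 w (by
          intro i2 om2 hom2 t2 ht2 e2
          by_contra hcon
          push Not at hcon
          exact hA ⟨i2, t2, ht2, om2, hom2, e2, hcon⟩)
        have hB : (0 : ℝ) ≤ s * (|H| * (Qn δ : ℝ)) := by positivity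
        have h7 : (1 : ℝ) ≤ |(Cf I L a (Wd τ om) : ℝ)| := by
          have h8 := ((hmemS _).1 (hsub hτ)).2
          have h9 : (1 : ℤ) ≤ |Cf I L a (Wd τ om)| := Int.one_le_abs h8
          exact_mod_cast h9
        have h8 : s * (|H| * (Qn δ : ℝ)) + 1 ≤ (s * (|H| * (Qn δ : ℝ)) + 1) ^ dsl D' (Wd τ om) w :=
          le_self_pow₀ (by linarith) h5
        calc |(Cf I L a w : ℝ)| ≤ s * (|H| * (Qn δ : ℝ)) + 1 := by linarith
          _ ≤ (s * (|H| * (Qn δ : ℝ)) + 1) ^ dsl D' (Wd τ om) w := h8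
          _ = (s * (|H| * (Qn δ : ℝ)) + 1) ^ dsl D' (Wd τ om) w * 1 := (mul_one _).symm
          _ ≤ _ := mul_le_mul_of_nonneg_left h7 (by positivity)

end Pool.Agent.NH24.DM
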