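import Pool.Agent.NH24.DM.StmP

/-!
# Weighted initial sums along a line
-/

set_option autoImplicit false

open Finset

namespace Pool.Agent.NH24.DM

namespace PDom

/-- the weighted initial sums of the slopes -/
def bet (D : ℤ) (b : ℕ → ℤ) : ℕ → ℤ
  | 0 => b 0
  | i + 1 => D * bet D b i + b (i + 1)

theorem bet_zero (D : ℤ) (b : ℕ → ℤ) : bet D b 0 = b 0 := rfl

theorem bet_succ (D : ℤ) (b : ℕ → ℤ) (i : ℕ) : bet D b (i + 1) = D * bet D b i + b (i + 1) := rfl

theorem sgl_bet {D0 : ℕ} {u v : List ℕ} {b : ℕ → ℤ} {τ : ℕ}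
    (h : ∀ j, ((v.getD j 0 : ℕ) : ℤ) = u.getD j 0 + τ * b j) (i : ℕ) :
    (sgl (D0 + 1) v i : ℤ) = sgl (D0 + 1) u i + τ * bet ((D0 : ℤ) + 1) b i := by
  induction i with
  | zero =>
    rw [sgl_zero, sgl_zero]
    exact h 0
  | succ i ih =>
    rw [sgl_succ, sgl_succ, Nat.cast_add, Nat.cast_add, Nat.cast_mul, Nat.cast_mul, ih, h (i + 1),
      bet_succ]
    push_cast
    ring

theorem bet_bd {D0 i0 : ℕ} {b : ℕ → ℤ} (h1 : ∀ j, |b j| ≤ D0) (h2 : ∀ j < i0, b j = 0)
    (h3 : 0 < b i0) (i : ℕ) : (i < i0 → bet ((D0 : ℤ) + 1) b i = 0) ∧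
      (i0 ≤ i → 1 ≤ bet ((D0 : ℤ) + 1) b i) ∧
      bet ((D0 : ℤ) + 1) b i ≤ ((D0 : ℤ) + 1) ^ (i + 1) - 1 := by
  induction i with
  | zero =>
    rw [bet_zero]
    refine ⟨fun h => h2 0 h, fun h => ?_, ?_⟩
    · rw [Nat.le_zero] at h
      rw [h] at h3
      exact h3
    · have := (abs_le.1 (h1 0)).2
      simpa using this
  | succ i ih =>
    obtain ⟨a1, a2, a3⟩ := ih
    have c1 := abs_le.1 (h1 (i + 1))
    have hD : (0 : ℤ) ≤ D0 := Nat.cast_nonneg _
    rw [bet_succ]
    refine ⟨fun h => ?_, fun h => ?_, ?_⟩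
    · rw [a1 (by omega), h2 _ h]
      ring
    · rcases Nat.lt_or_ge i i0 with h4 | h4
      · have h5 : i0 = i + 1 := by omega
        rw [a1 h4, ← h5]
        omega
      · have h5 := a2 h4
        nlinarith
    · rw [pow_succ]
      nlinarith

end PDom

open PDom in
theorem t_doml : DOML := by
  intro D0 u v b τ i0 h h1 h2 h3 i
  have e := sgl_bet (D0 := D0) h i
  obtain ⟨a1, a2, a3⟩ := bet_bd h1 h2 h3 i
  have a4 : 0 ≤ bet ((D0 : ℤ) + 1) b i := by
    rcases Nat.lt_or_ge i i0 with h4 | h4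
    · rw [a1 h4]
    · have := a2 h4
      omega
  have hτ : (0 : ℤ) ≤ τ := Nat.cast_nonneg _
  constructor
  · zify
    rw [e]
    have := mul_nonneg hτ a4
    omega
  · zify
    rw [e]
    have h5 : bet ((D0 : ℤ) + 1) b i ≤ ((D0 : ℤ) + 1) ^ (i + 1) := by omega
    have := mul_le_mul_of_nonneg_left h5 hτ
    omega

theorem t_dist0 : DIST0 := by
  intro D u v hl hs hle hd
  unfold dsl at hd
  rw [Finset.sum_eq_zero_iff] at hd
  have e1 : ∀ i, i + 1 < v.length → sgl D u i = sgl D v i := by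
    intro i hi
    have h1 := hd i (Finset.mem_range.2 (by omega))
    have h2 := hle i hi
    omega
  have e2 : ∀ i, i + 1 < v.length → u.getD i 0 = v.getD i 0 := by
    intro i hi
    cases i with
    | zero =>
      have := e1 0 hi
      rwa [sgl_zero, sgl_zero] at this
    | succ i =>
      have h1 := e1 (i + 1) hi
      have h2 := e1 i (by omega)
      rw [sgl_succ, sgl_succ, h2] at h1
      omega
  have e3 : ∀ i, i < v.length → u.getD i 0 = v.getD i 0 := by
    intro i hi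
    rcases Nat.lt_or_ge (i + 1) v.length with h | h
    · exact e2 i h
    · have h1 : v.length = i + 1 := by omega
      rw [sum_getD, sum_getD, hl, h1, Finset.sum_range_succ, Finset.sum_range_succ] at hs
      have h2 : ∑ j ∈ range i, u.getD j 0 = ∑ j ∈ range i, v.getD j 0 :=
        Finset.sum_congr rfl fun j hj => e2 j (by
          rw [Finset.mem_range] at hj
          omega)
      omega
  refine List.ext_getElem hl fun i h1 h2 => ?_
  have h3 := e3 i h2
  rwa [List.getD_eq_getElem _ _ h1, List.getD_eq_getElem _ _ h2] at h3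

end Pool.Agent.NH24.DM
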