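import Pool.Agent.NH24.DM.StmP

/-!
# Stuffle products of words over an additive type (helper95; job PL-1)

`t_stmap`: additive maps; `t_stlet`: letters, sums and numbers of the words.
-/

set_option autoImplicit false

namespace Pool.Agent.NH24.DM

namespace PStg

theorem stg_nil {α : Type} [Add α] (l : List α) : stg [] l = [l] := by rw [stg]

theorem stg_cons_nil {α : Type} [Add α] (i : α) (k : List α) : stg (i :: k) [] = [i :: k] := by
  rw [stg]

theorem stg_cons {α : Type} [Add α] (i : α) (k : List α) (j : α) (l : List α) :
    stg (i :: k) (j :: l) = (stg k (j :: l)).map (i :: ·) ++ (stg (i :: k) l).map (j :: ·) ++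
      (stg k l).map ((i + j) :: ·) := by rw [stg]

theorem stg_map {α β : Type} [Add α] [Add β] (f : α → β) (hf : ∀ x y, f (x + y) = f x + f y)
    (u v : List α) : stg (u.map f) (v.map f) = (stg u v).map (List.map f) := by
  induction u, v using stg.induct with
  | case1 v => simp [stg_nil]
  | case2 i k => simp [stg_cons_nil]
  | case3 i k j l ih1 ih2 ih3 =>
    rw [stg_cons, List.map_cons, List.map_cons, stg_cons]
    rw [List.map_cons] at ih1 ih2
    rw [ih1, ih2, ih3]
    simp only [List.map_append, List.map_map, ← hf]
    rfl

theorem stgl_map {α β : Type} [Add α] [Add β] (f : α → β) (hf : ∀ x y, f (x + y) = f x + f y)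
    (M : List (List α)) : stgl (M.map (List.map f)) = (stgl M).map (List.map f) := by
  induction M with
  | nil => rfl
  | cons u M ih =>
    rw [List.map_cons, stgl, stgl, ih, List.flatMap_map, List.map_flatMap]
    congr 1
    funext v
    exact stg_map f hf u v

/-- a property of all words of a product of two words -/
theorem stg_ind {α : Type} [Add α] (g : α → ℕ) (hg : ∀ x y, g (x + y) ≤ g x + g y) (u v : List α) :
    ∀ w ∈ stg u v, (w.map g).sum ≤ (u.map g).sum + (v.map g).sum := by
  induction u, v using stg.induct with
  | case1 v =>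
    intro w hw
    rw [stg_nil, List.mem_singleton] at hw
    rw [hw]
    simp
  | case2 i k =>
    intro w hw
    rw [stg_cons_nil, List.mem_singleton] at hw
    rw [hw]
    simp
  | case3 i k j l ih1 ih2 ih3 =>
    intro w hw
    rw [stg_cons, List.mem_append, List.mem_append, List.mem_map, List.mem_map, List.mem_map] at hw
    rcases hw with (⟨w', hw', rfl⟩ | ⟨w', hw', rfl⟩) | ⟨w', hw', rfl⟩
    · have := ih1 w' hw'
      simp only [List.map_cons, List.sum_cons] at this ⊢
      omega
    · have := ih2 w' hw'
      simp only [List.map_cons, List.sum_cons] at this ⊢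
      omega
    · have := ih3 w' hw'
      have h2 := hg i j
      simp only [List.map_cons, List.sum_cons] at this ⊢
      omega

theorem stg_pred {α : Type} [Add α] (P : α → Prop) (hP : ∀ x y, P x → P y → P (x + y))
    (u v : List α) : (∀ x ∈ u, P x) → (∀ x ∈ v, P x) → ∀ w ∈ stg u v, ∀ x ∈ w, P x := by
  induction u, v using stg.induct with
  | case1 v =>
    intro _ hv w hw
    rw [stg_nil, List.mem_singleton] at hw
    rw [hw]
    exact hv
  | case2 i k =>
    intro hu _ w hw
    rw [stg_cons_nil, List.mem_singleton] at hw
    rw [hw]
    exact hu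
  | case3 i k j l ih1 ih2 ih3 =>
    intro hu hv w hw
    rw [stg_cons, List.mem_append, List.mem_append, List.mem_map, List.mem_map, List.mem_map] at hw
    have hi : P i := hu i List.mem_cons_self
    have hj : P j := hv j List.mem_cons_self
    have hk : ∀ x ∈ k, P x := fun x hx => hu x (List.mem_cons_of_mem _ hx)
    have hl : ∀ x ∈ l, P x := fun x hx => hv x (List.mem_cons_of_mem _ hx)
    rcases hw with (⟨w', hw', rfl⟩ | ⟨w', hw', rfl⟩) | ⟨w', hw', rfl⟩
    · have := ih1 hk hv w' hw'
      intro x hx
      rcases List.mem_cons.1 hx with rfl | hx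
      · exact hi
      · exact this x hx
    · have := ih2 hu hl w' hw'
      intro x hx
      rcases List.mem_cons.1 hx with rfl | hx
      · exact hj
      · exact this x hx
    · have := ih3 hk hl w' hw'
      intro x hx
      rcases List.mem_cons.1 hx with rfl | hx
      · exact hP i j hi hj
      · exact this x hx

theorem stg_sum (u v : List ℕ) : ∀ w ∈ stg u v, w.sum = u.sum + v.sum := by
  induction u, v using stg.induct with
  | case1 v =>
    intro w hw
    rw [stg_nil, List.mem_singleton] at hw
    rw [hw]
    simp
  | case2 i k =>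
    intro w hw
    rw [stg_cons_nil, List.mem_singleton] at hw
    rw [hw]
    simp
  | case3 i k j l ih1 ih2 ih3 =>
    intro w hw
    rw [stg_cons, List.mem_append, List.mem_append, List.mem_map, List.mem_map, List.mem_map] at hw
    rcases hw with (⟨w', hw', rfl⟩ | ⟨w', hw', rfl⟩) | ⟨w', hw', rfl⟩
    · have := ih1 w' hw'
      simp only [List.sum_cons] at this ⊢
      omega
    · have := ih2 w' hw'
      simp only [List.sum_cons] at this ⊢
      omega
    · have := ih3 w' hw'
      simp only [List.sum_cons] at this ⊢
      omega

theorem stg_count {α : Type} [Add α] (u v : List α) :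
    (stg u v).length ≤ 3 ^ (u.length + v.length) := by
  induction u, v using stg.induct with
  | case1 v =>
    rw [stg_nil, List.length_singleton]
    exact Nat.one_le_pow _ _ (by omega)
  | case2 i k =>
    rw [stg_cons_nil, List.length_singleton]
    exact Nat.one_le_pow _ _ (by omega)
  | case3 i k j l ih1 ih2 ih3 =>
    rw [stg_cons, List.length_append, List.length_append, List.length_map, List.length_map,
      List.length_map]
    simp only [List.length_cons] at ih1 ih2 ih3 ⊢
    have e1 : k.length + 1 + (l.length + 1) = k.length + l.length + 2 := by ring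
    have e2 : k.length + (l.length + 1) = k.length + l.length + 1 := by ring
    have e3 : k.length + 1 + l.length = k.length + l.length + 1 := by ring
    rw [e2] at ih1
    rw [e3] at ih2
    rw [e1]
    have h4 : 3 ^ (k.length + l.length + 1) = 3 * 3 ^ (k.length + l.length) := by
      rw [pow_succ]
      ring
    have h5 : 3 ^ (k.length + l.length + 2) = 9 * 3 ^ (k.length + l.length) := by
      rw [pow_succ, pow_succ]
      ring
    rw [h4] at ih1 ih2
    rw [h5]
    omega

theorem stgl_ind {α : Type} [Add α] (g : α → ℕ) (hg : ∀ x y, g (x + y) ≤ g x + g y)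
    (M : List (List α)) : ∀ w ∈ stgl M, (w.map g).sum ≤ (M.map fun u => (u.map g).sum).sum := by
  induction M with
  | nil =>
    intro w hw
    rw [stgl, List.mem_singleton] at hw
    rw [hw]
    simp
  | cons u M ih =>
    intro w hw
    rw [stgl, List.mem_flatMap] at hw
    obtain ⟨v, hv, hw⟩ := hw
    have h1 := stg_ind g hg u v w hw
    have h2 := ih v hv
    rw [List.map_cons, List.sum_cons]
    omega

theorem stgl_pred {α : Type} [Add α] (P : α → Prop) (hP : ∀ x y, P x → P y → P (x + y))
    (M : List (List α)) : (∀ u ∈ M, ∀ x ∈ u, P x) → ∀ w ∈ stgl M, ∀ x ∈ w, P x := by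
  induction M with
  | nil =>
    intro _ w hw
    rw [stgl, List.mem_singleton] at hw
    rw [hw]
    simp
  | cons u M ih =>
    intro hM w hw
    rw [stgl, List.mem_flatMap] at hw
    obtain ⟨v, hv, hw⟩ := hw
    exact stg_pred P hP u v (hM u List.mem_cons_self)
      (ih (fun u hu => hM u (List.mem_cons_of_mem _ hu)) v hv) w hw

theorem stgl_sum (M : List (List ℕ)) : ∀ w ∈ stgl M, w.sum = (M.map List.sum).sum := by
  induction M with
  | nil =>
    intro w hw
    rw [stgl, List.mem_singleton] at hw
    rw [hw]
    simp
  | cons u M ih =>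
    intro w hw
    rw [stgl, List.mem_flatMap] at hw
    obtain ⟨v, hv, hw⟩ := hw
    rw [stg_sum u v w hw, ih v hv, List.map_cons, List.sum_cons]

theorem stgl_length {α : Type} [Add α] (M : List (List α)) :
    ∀ w ∈ stgl M, w.length ≤ (M.map List.length).sum := by
  intro w hw
  have h := stgl_ind (fun _ : α => 1) (fun _ _ => by omega) M w hw
  simpa using h

theorem stgl_count {α : Type} [Add α] (M : List (List α)) (r : ℕ) :
    (M.map List.length).sum ≤ r → (stgl M).length ≤ (3 ^ r) ^ M.length := by
  induction M with
  | nil =>
    intro _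
    rw [stgl]
    simp
  | cons u M ih =>
    intro h
    rw [List.map_cons, List.sum_cons] at h
    have h2 := ih (by omega)
    rw [stgl, List.length_flatMap, List.length_cons]
    have h3 : ((stgl M).map fun v => (stg u v).length).sum ≤ (stgl M).length * 3 ^ r := by
      have h4 : ∀ x ∈ ((stgl M).map fun v => (stg u v).length), x ≤ 3 ^ r := by
        intro x hx
        obtain ⟨v, hv, rfl⟩ := List.mem_map.1 hx
        refine (stg_count u v).trans (Nat.pow_le_pow_right (by omega) ?_)
        have := stgl_length M v hv
        omega
      have h5 := List.sum_le_card_nsmul _ _ h4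
      rwa [List.length_map, smul_eq_mul] at h5
    refine h3.trans ?_
    rw [pow_succ]
    exact Nat.mul_le_mul_right _ h2

end PStg

theorem t_stmap : STMAP := by
  intro α β _ _ f hf M
  exact PStg.stgl_map f hf M

theorem t_stlet : STLET := by
  refine ⟨?_, ?_, ?_, ?_⟩
  · intro α _ g hg M
    exact PStg.stgl_ind g hg M
  · intro α _ P hP M hM
    exact PStg.stgl_pred P hP M hM
  · exact PStg.stgl_sum
  · intro α _ M r h
    exact PStg.stgl_count M r h

end Pool.Agent.NH24.DM
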