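import Pool.Agent.NH24.DM.Seven
import Pool.Agent.NH24.DM.PComb
import Pool.Agent.NH24.DM.PStg
import Pool.Agent.NH24.DM.PDom

/-!
# Small combinations of products of multiple zeta values on boundedly many lines
-/

set_option autoImplicit false

open Filter Topology Finset

namespace Pool.Agent.NH24.DM

open Pool.Agent.Y760.ZG (mz)
open Pool.Agent.Y777.AM (ht)
open Pool.Agent.Y760.ZF (sti stil Cl mz_prod)
open Pool.Agent.Y777.AM.St (Ad ex ex_ne prod_ex)
open Pool.Agent.NH24.GP (Wo Co expand)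

lemma stg_sti (u v : List ℕ) : stg u v = sti u v := by
  induction u, v using sti.induct with
  | case1 v => rw [stg, sti]
  | case2 x u => rw [stg, sti]
  | case3 x u y v ih1 ih2 ih3 => rw [stg, sti, ih1, ih2, ih3]

lemma stgl_stil (M : List (List ℕ)) : stgl M = stil M := by
  induction M with
  | nil => rw [stgl, stil]
  | cons u M ih =>
    rw [stgl, stil, ih]
    congr 1
    funext v
    exact stg_sti u v

variable {s : ℕ} {I : Fin s → Finset ℕ} {L : Fin s → ℕ → List (List ℕ)} {a : Fin s → ℕ → ℤ}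

/-- the index set of the products -/
def IX (I : Fin s → Finset ℕ) : Finset (Σ _ : Fin s, ℕ) := univ.sigma I

lemma Cf_Co (v : List ℕ) : Cf I L a v = Co (IX I) (fun p => L p.1 p.2) (fun p => a p.1 p.2) v := by
  unfold Cf Co IX
  rw [Finset.sum_sigma]
  refine sum_congr rfl fun i _ => sum_congr rfl fun t _ => ?_
  rw [stgl_stil]

lemma total_letters {δ : ℝ} {k : ℕ} (M : List (List ℕ)) (h : ∀ w ∈ M, ∀ x ∈ w, δ * k ≤ (x : ℝ)) :
    (((M.map List.length).sum : ℕ) : ℝ) * (δ * k) ≤ ((M.map List.sum).sum : ℕ) := by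
  induction M with
  | nil => simp
  | cons u M ih =>
    have h1 := ih fun w hw => h w (List.mem_cons_of_mem _ hw)
    have h2 := len_mul_le u (δ * k) (h u List.mem_cons_self)
    rw [List.map_cons, List.sum_cons, List.map_cons, List.sum_cons, Nat.cast_add, Nat.cast_add]
    linarith

lemma length_le_letters (M : List (List ℕ)) (h : ∀ w ∈ M, w ≠ []) : M.length ≤ (M.map List.length).sum := by
  induction M with
  | nil => simp
  | cons u M ih =>
    have h1 := ih fun w hw => h w (List.mem_cons_of_mem _ hw)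
    have h2 : 0 < u.length := List.length_pos_of_ne_nil (h u List.mem_cons_self)
    rw [List.map_cons, List.sum_cons, List.length_cons]
    omega

lemma sum_supp {f : List ℕ → ℝ} {U V : Finset (List ℕ)} (hU : ∀ w, f w ≠ 0 → w ∈ U)
    (hV : ∀ w, f w ≠ 0 → w ∈ V) : ∑ w ∈ U, f w = ∑ w ∈ V, f w := by
  classical
  have h1 : ∑ w ∈ U ∩ V, f w = ∑ w ∈ U, f w := sum_subset inter_subset_left fun w hw hw' => by
    by_contra h
    exact hw' (mem_inter.2 ⟨hw, hV w h⟩)
  have h2 : ∑ w ∈ U ∩ V, f w = ∑ w ∈ V, f w := sum_subset inter_subset_right fun w hw hw' => by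
    by_contra h
    exact hw' (mem_inter.2 ⟨hU w h, hw⟩)
  rw [← h1, h2]

/-- **small combinations of products on boundedly many lines have a trivial stuffle expansion** -/
theorem lines_thm (δ H κ K ε : ℝ) (hδ : 0 < δ) (hε : 0 < ε) (s D : ℕ) :
    ∃ c B : ℝ, 0 < c ∧ 1 < B ∧ ∃ k0 : ℕ, ∀ k : ℕ, k0 ≤ k →
      ∀ (F : Fin s → List (List (ℤ × ℤ))) (I : Fin s → Finset ℕ) (L : Fin s → ℕ → List (List ℕ))
        (a : Fin s → ℕ → ℤ), Lines δ H s D c k F I L a → ∀ G : Finset (List ℕ),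
      (∀ h ∈ G, (∀ m ∈ h, 1 ≤ m) ∧ (∀ x ∈ h.head?, 2 ≤ x) ∧ (h.sum : ℝ) ≤ κ * k ∧ ε * k ≤ ht h) →
      ∀ b : List ℕ → ℝ, (∀ h ∈ G, |b h| ≤ K ^ k) →
      |∑ i, ∑ t ∈ I i, (a i t : ℝ) * ((L i t).map mz).prod - ∑ h ∈ G, b h * mz h| ≤ (B ^ k)⁻¹ →
      ∑ i, ∑ t ∈ I i, (a i t : ℝ) * ((L i t).map mz).prod = 0 ∧
      ∀ (A : Type) [CommRing A] (Z : List ℕ → A),
        (∀ u v, Ad u → Ad v → Z u * Z v = ((sti u v).map Z).sum) →
        ∑ i, ∑ t ∈ I i, (a i t : A) * ((L i t).map Z).prod = 0 := by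
  classical
  obtain ⟨C, s', D', h1⟩ := comb_of t_stmap t_stlet t_doml t_dist0 δ H s D hδ
  obtain ⟨c', B, hc', hB, k1, h2⟩ := main δ C κ K ε hδ hε s' D'
  obtain ⟨c, hc, k2, h3⟩ := h1 c' hc'
  set R : ℕ := ⌈1 / δ⌉₊ with hR
  set k3 : ℕ := ⌈((R * R + 2 : ℕ) : ℝ) / δ⌉₊ with hk3
  refine ⟨c, B, hc, hB, max (max k1 k2) (max k3 1), fun k hk F I L a hL G hG b hb hs => ?_⟩
  have hk1 : k1 ≤ k := (le_max_left _ _).trans ((le_max_left _ _).trans hk)
  have hk2 : k2 ≤ k := (le_max_right _ _).trans ((le_max_left _ _).trans hk)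
  have hk3' : k3 ≤ k := (le_max_left _ _).trans ((le_max_right _ _).trans hk)
  have hk0 : 1 ≤ k := (le_max_right _ _).trans ((le_max_right _ _).trans hk)
  have hkp : (0 : ℝ) < k := by exact_mod_cast hk0
  have hdk : ((R * R + 2 : ℕ) : ℝ) ≤ δ * k := by
    have e1 : ((R * R + 2 : ℕ) : ℝ) / δ ≤ k := (Nat.le_ceil _).trans (by exact_mod_cast hk3')
    rw [div_le_iff₀ hδ] at e1
    linarith
  -- the words
  have harg : ∀ i, ∀ t ∈ I i, ∀ u ∈ L i t, ∀ x ∈ u, R * R + 2 ≤ x := by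
    intro i t ht u hu x hx
    have := hdk.trans (hL.arg i t ht u hu x hx)
    exact_mod_cast this
  have hne : ∀ i, ∀ t ∈ I i, ∀ u ∈ L i t, u ≠ [] := by
    intro i t ht u hu hnil
    have e1 := hL.ev i t ht
    have e2 : u.map (fun x : ℕ => (x : ℤ)) ∈ (L i t).map (List.map fun x : ℕ => (x : ℤ)) :=
      List.mem_map_of_mem hu
    rw [e1, List.mem_map] at e2
    obtain ⟨w, hw, e3⟩ := e2
    rw [hnil, List.map_nil, List.map_eq_nil_iff] at e3
    exact hL.ne i w hw e3
  have hlet : ∀ i, ∀ t ∈ I i, ((L i t).map List.length).sum ≤ R := by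
    intro i t ht
    have e1 := total_letters (δ := δ) (k := k) (L i t) (hL.arg i t ht)
    rw [hL.wt i t ht] at e1
    have e2 : (((L i t).map List.length).sum : ℝ) ≤ 1 / δ := by
      rw [le_div_iff₀ hδ]
      have e3 : ((((L i t).map List.length).sum : ℕ) : ℝ) * δ * k ≤ 1 * k := by
        rw [one_mul, mul_assoc]
        exact e1
      exact le_of_mul_le_mul_right e3 hkp
    exact_mod_cast e2.trans (Nat.le_ceil _)
  have hlenM : ∀ i, ∀ t ∈ I i, (L i t).length ≤ R := fun i t ht =>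
    (length_le_letters _ (hne i t ht)).trans (hlet i t ht)
  have hlenu : ∀ i, ∀ t ∈ I i, ∀ u ∈ L i t, u.length ≤ R := by
    intro i t ht u hu
    refine le_trans ?_ (hlet i t ht)
    exact List.single_le_sum (by simp) _ (List.mem_map_of_mem hu)
  have hsumu : ∀ i, ∀ t ∈ I i, ∀ u ∈ L i t, u.sum ≤ k := by
    intro i t ht u hu
    rw [← hL.wt i t ht]
    exact List.single_le_sum (by simp) _ (List.mem_map_of_mem hu)
  have hCl : ∀ p ∈ IX I, ∀ u ∈ L p.1 p.2, Cl (R * R + 2) k R u := by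
    intro p hp u hu
    have ht : p.2 ∈ I p.1 := (mem_sigma.1 hp).2
    refine ⟨hlenu _ _ ht u hu, fun m hm => ⟨?_, ?_⟩, fun x hx => ?_⟩
    · have := harg _ _ ht u hu m hm
      omega
    · have e1 : m ≤ u.sum := List.single_le_sum (by simp) _ hm
      exact_mod_cast e1.trans (hsumu _ _ ht u hu)
    · exact harg _ _ ht u hu x (List.mem_of_mem_head? hx)
  have hreal := expand (IX I) (fun p => L p.1 p.2) (fun p => a p.1 p.2) (A := ℝ) mz (fun p hp => by
    have ht : p.2 ∈ I p.1 := (mem_sigma.1 hp).2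
    refine mz_prod (n := R * R + 2) (K := (k : ℝ)) hkp.le (r := R) _ (hCl p hp) ?_
    have := Nat.mul_le_mul_right R (hlenM _ _ ht)
    omega)
  have hsig : ∀ (A : Type) [CommRing A] (Z : List ℕ → A), ∑ i, ∑ t ∈ I i, (a i t : A) * ((L i t).map Z).prod =
      ∑ p ∈ IX I, (a p.1 p.2 : A) * ((L p.1 p.2).map Z).prod := by
    intro A _ Z
    unfold IX
    rw [Finset.sum_sigma]
  have hzero : ∀ v, Cf I L a v = 0 := by
    by_contra hcon
    push Not at hcon
    obtain ⟨S, T, hRel, hS⟩ := h3 k hk2 F I L a hL hcon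
    have g1 := h2 k hk1 S T (Cf I L a) hRel G hG b hb
    have g2 : ∑ w ∈ S, (Cf I L a w : ℝ) * mz w = ∑ i, ∑ t ∈ I i, (a i t : ℝ) * ((L i t).map mz).prod := by
      rw [hsig ℝ mz, hreal]
      have g4 : ∀ w, Cf I L a w ≠ 0 → w ∈ Wo (IX I) (fun p => L p.1 p.2) := by
        intro w hw
        by_contra h5
        apply hw
        rw [Cf_Co]
        unfold Co
        refine sum_eq_zero fun p hp => ?_
        have h6 : (stil (L p.1 p.2)).countP (· = w) = 0 := by
          rw [List.countP_eq_zero]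
          intro v hv
          simp only [decide_eq_true_eq]
          rintro rfl
          exact h5 (mem_biUnion.2 ⟨p, hp, List.mem_toFinset.2 hv⟩)
        rw [h6, Nat.cast_zero, mul_zero]
      rw [sum_supp (f := fun w => (Cf I L a w : ℝ) * mz w) (U := S) (V := Wo (IX I) (fun p => L p.1 p.2))
        (fun w hw => by
          by_contra h6
          apply hw
          rw [hS w h6, Int.cast_zero, zero_mul])
        (fun w hw => g4 w fun h6 => hw (by rw [h6, Int.cast_zero, zero_mul]))]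
      exact sum_congr rfl fun w _ => by rw [Cf_Co]
    rw [g2] at g1
    exact absurd hs (not_le.2 g1)
  have hzero' : ∀ v, Co (IX I) (fun p => L p.1 p.2) (fun p => a p.1 p.2) v = 0 := fun v => by
    rw [← Cf_Co]
    exact hzero v
  refine ⟨?_, fun A _ Z hZ => ?_⟩
  · rw [hsig ℝ mz, hreal]
    exact sum_eq_zero fun v _ => by rw [hzero' v, Int.cast_zero, zero_mul]
  · rw [hsig A Z]
    have e1 : ∀ p ∈ IX I, (a p.1 p.2 : A) * ((L p.1 p.2).map Z).prod =
        (a p.1 p.2 : A) * ((L p.1 p.2).map (ex Z)).prod := by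
      intro p hp
      congr 2
      refine List.map_congr_left fun u hu => ?_
      rw [ex_ne Z (hne _ _ (mem_sigma.1 hp).2 u hu)]
    rw [sum_congr rfl e1, expand (IX I) (fun p => L p.1 p.2) (fun p => a p.1 p.2) (A := A) (ex Z) (fun p hp =>
      prod_ex hZ (n := R * R + 2) (by omega) (K := (k : ℝ)) hkp.le (r := R) _ (hCl p hp))]
    exact sum_eq_zero fun v _ => by rw [hzero' v, Int.cast_zero, zero_mul]

end Pool.Agent.NH24.DM
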