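import Pool.Agent.NH24.DM.One

/-!
# The hypotheses on a relation
-/

set_option autoImplicit false

open Finset

namespace Pool.Agent.NH24.DM

/-- the hypotheses on a relation of weight `k` -/
structure Rel (δ C : ℝ) (s D : ℕ) (c : ℝ) (k : ℕ) (S T : Finset (List ℕ)) (e : List ℕ → ℤ) : Prop where
  ne : T.Nonempty
  sub : T ⊆ S
  card : T.card ≤ s
  wt : ∀ w ∈ S, w.sum = k
  arg : ∀ w ∈ S, ∀ x ∈ w, δ * k ≤ (x : ℝ)
  e0 : ∀ u ∈ T, e u ≠ 0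
  e1 : ∀ u ∈ T, |(e u : ℝ)| ≤ (1 + c) ^ k
  dom : ∀ w ∈ S, ∃ u ∈ T, u.length = w.length ∧
    (∀ i, i + 1 < w.length → sgl D u i ≤ sgl D w i ∧ (sgl D w i : ℝ) ≤ sgl D u i + c * k) ∧
    |(e w : ℝ)| ≤ C ^ dsl D u w * |(e u : ℝ)|

end Pool.Agent.NH24.DM
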