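import Pool.Agent.NH24.DM.Stm

/-!
# Project DM, job DM-1: boundedly many monomials are separated at some tuple of primes (helper78)
-/

set_option autoImplicit false

open Finset

namespace Pool.Agent.NH24.DM.SepAux

/-- a rapidly increasing sequence of primes -/
theorem exists_seq (D : ℕ) (K c : ℝ) : ∃ b : ℕ → ℕ, (∀ m, (b m).Prime) ∧ K ≤ b 0 ∧
    ∀ m, max K 1 * Real.exp c * (b m : ℝ) ^ (D + 1) ≤ b (m + 1) := by
  have h1 : ∀ y : ℝ, ∃ p : ℕ, p.Prime ∧ y ≤ p := by
    intro y
    obtain ⟨p, hp, hpp⟩ := Nat.exists_infinite_primes ⌈y⌉₊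
    exact ⟨p, hpp, (Nat.le_ceil y).trans (by exact_mod_cast hp)⟩
  obtain ⟨b0, hb0, hb0K⟩ := h1 K
  have h2 : ∀ x : ℕ, ∃ p : ℕ, p.Prime ∧ max K 1 * Real.exp c * (x : ℝ) ^ (D + 1) ≤ p :=
    fun x => h1 _
  choose g hg using h2
  refine ⟨fun m => g^[m] b0, ?_, hb0K, ?_⟩
  · intro m
    cases m with
    | zero => exact hb0
    | succ m =>
      show (g^[m + 1] b0).Prime
      rw [Function.iterate_succ_apply']
      exact (hg _).1
  · intro m
    show max K 1 * Real.exp c * ((g^[m] b0 : ℕ) : ℝ) ^ (D + 1) ≤ ((g^[m + 1] b0 : ℕ) : ℝ)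
    rw [Function.iterate_succ_apply']
    exact (hg _).2

/-- few bad choices -/
theorem card_bad {r n : ℕ} (B : Finset (Fin r → Fin n)) (i0 : Fin r)
    (h : ∀ f ∈ B, ∀ f' ∈ B, (∀ i, i ≠ i0 → f i = f' i) → f i0 = f' i0) :
    B.card * n ≤ n ^ r := by
  classical
  have h1 : (B ×ˢ (univ : Finset (Fin n))).card ≤ (univ : Finset (Fin r → Fin n)).card := by
    refine Finset.card_le_card_of_injOn (fun z => Function.update z.1 i0 z.2)
      (fun _ _ => Finset.mem_coe.2 (mem_univ _)) ?_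
    rintro ⟨f, k⟩ hf ⟨f', k'⟩ hf' he
    rw [Finset.mem_coe, mem_product] at hf hf'
    have he' : Function.update f i0 k = Function.update f' i0 k' := he
    have hk : k = k' := by
      have := congrFun he' i0
      simpa using this
    have hoff : ∀ i, i ≠ i0 → f i = f' i := by
      intro i hi
      have := congrFun he' i
      rwa [Function.update_of_ne hi, Function.update_of_ne hi] at this
    have h0 := h f hf.1 f' hf'.1 hoff
    have hff : f = f' := by
      funext i
      by_cases hi : i = i0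
      · rw [hi, h0]
      · exact hoff i hi
    rw [hff, hk]
  rw [card_product, card_univ, card_univ, Fintype.card_fin, Fintype.card_fun, Fintype.card_fin,
    Fintype.card_fin] at h1
  exact h1

/-- the logarithm of a term -/
theorem log_term {r : ℕ} (x u : Fin r → ℕ) (hx : ∀ i, 0 < x i) {a : ℝ} (ha : a ≠ 0) :
    Real.log (|a| / (mn x u : ℝ)) = Real.log |a| - ∑ i, (u i : ℝ) * Real.log (x i) := by
  unfold mn
  push_cast
  rw [Real.log_div (abs_ne_zero.2 ha)
    (Finset.prod_ne_zero_iff.2 fun i _ => pow_ne_zero _ (by exact_mod_cast (hx i).ne')),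
    Real.log_prod (fun i _ => pow_ne_zero _ (by exact_mod_cast (hx i).ne'))]
  congr 1
  exact Finset.sum_congr rfl fun i _ => Real.log_pow _ _

end Pool.Agent.NH24.DM.SepAux

namespace Pool.Agent.NH24.DM

open SepAux

theorem t_sep : SEP := by
  classical
  intro r s D K lam
  set lam' : ℝ := max lam 1 with hlam'
  have hl1 : 1 ≤ lam' := le_max_right _ _
  have hl2 : lam ≤ lam' := le_max_left _ _
  set n : ℕ := s ^ 2 + 1 with hn
  have hnpos : 0 < n := Nat.succ_pos _
  obtain ⟨b, hbp, hb0, hb⟩ := exists_seq D K (2 * lam' + 1)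
  have hb1 : ∀ m, (1 : ℝ) ≤ b m := fun m => by exact_mod_cast (hbp m).one_lt.le
  have hstep : ∀ m, Real.exp (2 * lam' + 1) * (b m : ℝ) ≤ b (m + 1) := by
    intro m
    refine le_trans ?_ (hb m)
    have h1 : (1 : ℝ) ≤ max K 1 := le_max_right _ _
    have h2 : (b m : ℝ) ≤ (b m : ℝ) ^ (D + 1) := le_self_pow₀ (hb1 m) (Nat.succ_ne_zero D)
    have h3 := Real.exp_pos (2 * lam' + 1)
    have h4 : (0 : ℝ) ≤ b m := by linarith [hb1 m]
    calc Real.exp (2 * lam' + 1) * (b m : ℝ)
        = 1 * Real.exp (2 * lam' + 1) * (b m : ℝ) := by ring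
      _ ≤ max K 1 * Real.exp (2 * lam' + 1) * (b m : ℝ) ^ (D + 1) :=
        mul_le_mul (mul_le_mul_of_nonneg_right h1 h3.le) h2 h4 (by positivity)
  have hmono : Monotone b := by
    refine monotone_nat_of_le_succ fun m => ?_
    have h1 := hstep m
    have h2 : (1 : ℝ) ≤ Real.exp (2 * lam' + 1) := Real.one_le_exp (by linarith)
    have h3 : (b m : ℝ) ≤ b (m + 1) := by nlinarith [hb1 m]
    exact_mod_cast h3
  have hK : ∀ m, K ≤ b m := fun m => hb0.trans (by exact_mod_cast hmono (Nat.zero_le m))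
  have hlog : ∀ m m', m < m' → 2 * lam' < Real.log (b m') - Real.log (b m) := by
    intro m m' hm
    have h1 : (b (m + 1) : ℝ) ≤ b m' := by exact_mod_cast hmono hm
    have h2 := (hstep m).trans h1
    have h0 : (0 : ℝ) < b m := by linarith [hb1 m]
    have h3 := Real.log_le_log (mul_pos (Real.exp_pos _) h0) h2
    rw [Real.log_mul (Real.exp_pos _).ne' h0.ne', Real.log_exp] at h3
    linarith
  -- the grid
  let ix : (Fin r → Fin n) → Fin r → ℕ := fun f i => (r - 1 - (i : ℕ)) * n + (f i : ℕ)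
  let X : (Fin r → Fin n) → Fin r → ℕ := fun f i => b (ix f i)
  refine ⟨b (r * n), ?_⟩
  intro T e hT he
  have hix : ∀ f i, ix f i ≤ r * n := by
    intro f i
    show (r - 1 - (i : ℕ)) * n + (f i : ℕ) ≤ r * n
    have h1 : (f i : ℕ) < n := (f i).isLt
    have h2 : (i : ℕ) < r := i.isLt
    have h3 : (r - 1 - (i : ℕ)) + 1 ≤ r := by omega
    have h4 := Nat.mul_le_mul_right n h3
    rw [add_mul, one_mul] at h4
    omega
  have hHier : ∀ f, Hier D K (X f) := by
    intro f
    refine ⟨fun i => hK _, fun i j hij => ?_⟩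
    have h1 : (f j : ℕ) < n := (f j).isLt
    have h2 : ix f j + 1 ≤ ix f i := by
      show (r - 1 - (j : ℕ)) * n + (f j : ℕ) + 1 ≤ (r - 1 - (i : ℕ)) * n + (f i : ℕ)
      have h3 : (j : ℕ) < r := j.isLt
      have h4 : r - 1 - (i : ℕ) = (r - 1 - (j : ℕ)) + 1 := by omega
      rw [h4, add_mul, one_mul]
      omega
    have h3 : (b (ix f j + 1) : ℝ) ≤ b (ix f i) := by exact_mod_cast hmono h2
    refine le_trans ?_ ((hb (ix f j)).trans h3)
    show K * (b (ix f j) : ℝ) ^ D ≤ _
    have h5 : (1 : ℝ) ≤ Real.exp (2 * lam' + 1) := Real.one_le_exp (by linarith)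
    have h6 : (0 : ℝ) ≤ (b (ix f j) : ℝ) := by linarith [hb1 (ix f j)]
    have h7 : (b (ix f j) : ℝ) ^ D ≤ (b (ix f j) : ℝ) ^ (D + 1) :=
      pow_le_pow_right₀ (hb1 _) (Nat.le_succ D)
    have h8 : (0 : ℝ) ≤ max K 1 := le_trans zero_le_one (le_max_right _ _)
    calc K * (b (ix f j) : ℝ) ^ D ≤ max K 1 * (b (ix f j) : ℝ) ^ D :=
        mul_le_mul_of_nonneg_right (le_max_left _ _) (by positivity)
      _ ≤ (max K 1 * Real.exp (2 * lam' + 1)) * (b (ix f j) : ℝ) ^ (D + 1) := by
        refine mul_le_mul ?_ h7 (by positivity) (by positivity)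
        exact le_mul_of_one_le_right h8 h5
  have hXpos : ∀ f i, 0 < X f i := fun f i => (hbp _).pos
  -- bad choices
  let A : (Fin r → Fin n) → (Fin r → ℕ) → ℝ := fun f u => Real.log (|e u| / (mn (X f) u : ℝ))
  have hA : ∀ f, ∀ u ∈ T, A f u = Real.log |e u| - ∑ i, (u i : ℝ) * Real.log (X f i) :=
    fun f u hu => log_term (X f) u (hXpos f) (he u hu)
  let Bad : (Fin r → ℕ) × (Fin r → ℕ) → Finset (Fin r → Fin n) := fun z =>
    univ.filter fun f => |A f z.1 - A f z.2| ≤ lam'
  have hBad : ∀ z ∈ T.offDiag, (Bad z).card * n ≤ n ^ r := by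
    rintro ⟨u, v⟩ hz
    rw [mem_offDiag] at hz
    obtain ⟨hu, hv, huv⟩ := hz
    obtain ⟨i0, hi0⟩ := Function.ne_iff.1 huv
    refine card_bad _ i0 fun f hf f' hf' hoff => ?_
    by_contra hne
    rw [mem_filter] at hf hf'
    have h1 : |A f u - A f v| ≤ lam' := hf.2
    have h2 : |A f' u - A f' v| ≤ lam' := hf'.2
    have hdiff : (A f u - A f v) - (A f' u - A f' v) =
        -(((u i0 : ℝ) - v i0) * (Real.log (X f i0) - Real.log (X f' i0))) := by
      rw [hA f u hu, hA f v hv, hA f' u hu, hA f' v hv]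
      have h3 : ∑ i, ((u i : ℝ) - v i) * (Real.log (X f i) - Real.log (X f' i)) =
          ((u i0 : ℝ) - v i0) * (Real.log (X f i0) - Real.log (X f' i0)) := by
        refine Finset.sum_eq_single_of_mem i0 (mem_univ _) fun i _ hi => ?_
        have h4 : X f i = X f' i := by
          show b ((r - 1 - (i : ℕ)) * n + (f i : ℕ)) = b ((r - 1 - (i : ℕ)) * n + (f' i : ℕ))
          rw [hoff i hi]
        rw [h4, sub_self, mul_zero]
      rw [← h3]
      have h5 : ∑ i, ((u i : ℝ) - v i) * (Real.log (X f i) - Real.log (X f' i)) =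
          (∑ i, (u i : ℝ) * Real.log (X f i) - ∑ i, (v i : ℝ) * Real.log (X f i)) -
          (∑ i, (u i : ℝ) * Real.log (X f' i) - ∑ i, (v i : ℝ) * Real.log (X f' i)) := by
        rw [← Finset.sum_sub_distrib, ← Finset.sum_sub_distrib, ← Finset.sum_sub_distrib]
        exact Finset.sum_congr rfl fun i _ => by ring
      rw [h5]
      ring
    have hbig : 2 * lam' < |Real.log (X f i0) - Real.log (X f' i0)| := by
      have hne' : (f i0 : ℕ) ≠ (f' i0 : ℕ) := fun h => hne (Fin.ext h)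
      rcases lt_or_gt_of_ne hne' with h | h
      · have h3 := hlog (ix f i0) (ix f' i0) (by
          show (r - 1 - (i0 : ℕ)) * n + (f i0 : ℕ) < (r - 1 - (i0 : ℕ)) * n + (f' i0 : ℕ)
          omega)
        rw [abs_sub_comm]
        exact h3.trans_le (le_abs_self _)
      · have h3 := hlog (ix f' i0) (ix f i0) (by
          show (r - 1 - (i0 : ℕ)) * n + (f' i0 : ℕ) < (r - 1 - (i0 : ℕ)) * n + (f i0 : ℕ)
          omega)
        exact h3.trans_le (le_abs_self _)
    have huv1 : (1 : ℝ) ≤ |(u i0 : ℝ) - v i0| := by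
      have h3 : ((u i0 : ℤ) - v i0) ≠ 0 := by
        intro h
        have hi1 : u i0 ≠ v i0 := hi0
        omega
      have h4 : (1 : ℤ) ≤ |(u i0 : ℤ) - v i0| := Int.one_le_abs h3
      exact_mod_cast h4
    have hlow : 2 * lam' < |(A f u - A f v) - (A f' u - A f' v)| := by
      rw [hdiff, abs_neg, abs_mul]
      nlinarith [abs_nonneg (Real.log (X f i0 : ℝ) - Real.log (X f' i0))]
    have hup := abs_sub (A f u - A f v) (A f' u - A f' v)
    linarith
  have hex : ∃ f : Fin r → Fin n, ∀ z ∈ T.offDiag, f ∉ Bad z := by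
    by_contra hcon
    push Not at hcon
    have h1 : (univ : Finset (Fin r → Fin n)) ⊆ T.offDiag.biUnion Bad := by
      intro f _
      obtain ⟨z, hz, hf⟩ := hcon f
      exact mem_biUnion.2 ⟨z, hz, hf⟩
    have h2 := (Finset.card_le_card h1).trans Finset.card_biUnion_le
    rw [card_univ, Fintype.card_fun, Fintype.card_fin, Fintype.card_fin] at h2
    have h3 : n ^ r * n ≤ T.offDiag.card * n ^ r := by
      calc n ^ r * n ≤ (∑ z ∈ T.offDiag, (Bad z).card) * n := Nat.mul_le_mul_right _ h2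
        _ = ∑ z ∈ T.offDiag, (Bad z).card * n := Finset.sum_mul _ _ _
        _ ≤ ∑ _z ∈ T.offDiag, n ^ r := Finset.sum_le_sum hBad
        _ = T.offDiag.card * n ^ r := by rw [sum_const, smul_eq_mul]
    have h4 : T.offDiag.card ≤ s ^ 2 := by
      rw [offDiag_card]
      have h5 : T.card * T.card ≤ s * s := Nat.mul_le_mul hT hT
      rw [pow_two]
      omega
    have h5 : 0 < n ^ r := pow_pos hnpos r
    have h6 : n ^ r * n ≤ n ^ r * s ^ 2 := by
      rw [mul_comm (n ^ r) (s ^ 2)]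
      exact h3.trans (Nat.mul_le_mul_right _ h4)
    have h7 := Nat.le_of_mul_le_mul_left h6 h5
    omega
  obtain ⟨f, hf⟩ := hex
  refine ⟨X f, fun i => ⟨hbp _, hmono (hix f i)⟩, hHier f, ?_⟩
  intro u hu v hv huv hle
  have hmn : ∀ w : Fin r → ℕ, (0 : ℝ) < (mn (X f) w : ℝ) := by
    intro w
    have : 0 < mn (X f) w := Finset.prod_pos fun i _ => pow_pos (hXpos f i) _
    exact_mod_cast this
  have hpu : 0 < |e u| / (mn (X f) u : ℝ) := div_pos (abs_pos.2 (he u hu)) (hmn u)
  have hpv : 0 < |e v| / (mn (X f) v : ℝ) := div_pos (abs_pos.2 (he v hv)) (hmn v)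
  have h1 : f ∉ Bad (u, v) := hf (u, v) (mem_offDiag.2 ⟨hu, hv, huv⟩)
  have h2 : lam' < |A f u - A f v| := by
    by_contra hc
    exact h1 (mem_filter.2 ⟨mem_univ _, not_lt.1 hc⟩)
  have h3 : A f v ≤ A f u := Real.log_le_log hpv hle
  rw [abs_of_nonneg (by linarith)] at h2
  have h4 : lam + A f v < A f u := by linarith
  have h5 := Real.exp_lt_exp.2 h4
  rw [Real.exp_add] at h5
  have h6 : Real.exp (A f v) = |e v| / (mn (X f) v : ℝ) := Real.exp_log hpv
  have h7 : Real.exp (A f u) = |e u| / (mn (X f) u : ℝ) := Real.exp_log hpu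
  rwa [h6, h7] at h5

end Pool.Agent.NH24.DM
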