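import Pool.Agent.NH24.DM.Stm

/-!
# Truncation of multiple zeta values (helper93, job DM-5)
-/

set_option autoImplicit false

open Filter Topology

namespace Pool.Agent.NH24.DM

namespace TailAux

open GD (trunc mzv trunc_nonneg trunc_le)

/-- the terms of the series -/
noncomputable def u (l : List ℕ) (a m : ℕ) : ℝ := trunc l (m + 1) / ((m + 1 : ℕ) : ℝ) ^ a

lemma u_nonneg (l : List ℕ) (a m : ℕ) : 0 ≤ u l a m :=
  div_nonneg (trunc_nonneg _ _) (by positivity)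

lemma pow_bd {a h : ℕ} (ha : 4 ≤ a) (hh : h ≤ a) (M m : ℕ) :
    1 / ((m + M + 1 : ℕ) : ℝ) ^ a ≤
      ((M : ℝ) + 1) ^ 2 / ((M : ℝ) + 1) ^ h * (1 / ((m + 1 : ℕ) : ℝ) ^ 2) := by
  have hM1 : (1 : ℝ) ≤ (M : ℝ) + 1 := by
    have : (0 : ℝ) ≤ M := Nat.cast_nonneg M
    linarith
  have hm0 : (0 : ℝ) ≤ m := Nat.cast_nonneg m
  have hM0 : (0 : ℝ) ≤ M := Nat.cast_nonneg M
  have hN1 : (1 : ℝ) ≤ ((m + M + 1 : ℕ) : ℝ) := by
    push_cast
    linarith
  have hNM : (M : ℝ) + 1 ≤ ((m + M + 1 : ℕ) : ℝ) := by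
    push_cast
    linarith
  have hNm : ((m + 1 : ℕ) : ℝ) ≤ ((m + M + 1 : ℕ) : ℝ) := by
    push_cast
    linarith
  have hm1 : (0 : ℝ) < ((m + 1 : ℕ) : ℝ) := by positivity
  have key : ((m + 1 : ℕ) : ℝ) ^ 2 * ((M : ℝ) + 1) ^ h ≤
      ((M : ℝ) + 1) ^ 2 * ((m + M + 1 : ℕ) : ℝ) ^ a := by
    rcases le_total 2 h with h2 | h2
    · obtain ⟨b, rfl⟩ : ∃ b, h = 2 + b := ⟨h - 2, by omega⟩
      have e1 : ((m + 1 : ℕ) : ℝ) ^ 2 * ((M : ℝ) + 1) ^ (2 + b) =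
          ((M : ℝ) + 1) ^ 2 * (((m + 1 : ℕ) : ℝ) ^ 2 * ((M : ℝ) + 1) ^ b) := by
        rw [pow_add]
        ring
      rw [e1]
      refine mul_le_mul_of_nonneg_left ?_ (by positivity)
      calc ((m + 1 : ℕ) : ℝ) ^ 2 * ((M : ℝ) + 1) ^ b ≤
            ((m + M + 1 : ℕ) : ℝ) ^ 2 * ((m + M + 1 : ℕ) : ℝ) ^ b :=
            mul_le_mul (pow_le_pow_left₀ hm1.le hNm 2) (pow_le_pow_left₀ (by linarith) hNM b)
              (by positivity) (by positivity)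
        _ = ((m + M + 1 : ℕ) : ℝ) ^ (2 + b) := (pow_add _ _ _).symm
        _ ≤ ((m + M + 1 : ℕ) : ℝ) ^ a := pow_le_pow_right₀ hN1 hh
    · calc ((m + 1 : ℕ) : ℝ) ^ 2 * ((M : ℝ) + 1) ^ h ≤
            ((m + M + 1 : ℕ) : ℝ) ^ 2 * ((M : ℝ) + 1) ^ 2 :=
            mul_le_mul (pow_le_pow_left₀ hm1.le hNm 2) (pow_le_pow_right₀ hM1 h2)
              (by positivity) (by positivity)
        _ = ((M : ℝ) + 1) ^ 2 * ((m + M + 1 : ℕ) : ℝ) ^ 2 := mul_comm _ _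
        _ ≤ ((M : ℝ) + 1) ^ 2 * ((m + M + 1 : ℕ) : ℝ) ^ a :=
            mul_le_mul_of_nonneg_left (pow_le_pow_right₀ hN1 (by omega)) (by positivity)
  rw [div_mul_div_comm, mul_one, div_le_div_iff₀ (by positivity) (by positivity), one_mul]
  rw [mul_comm (((M : ℝ) + 1) ^ h)]
  exact key

/-- the key bound -/
lemma u_le {l : List ℕ} (hl : ∀ x ∈ l, 2 ≤ x) {a h : ℕ} (ha : 4 ≤ a) (hh : h ≤ a) (M m : ℕ) :
    u l a (m + M) ≤ 2 ^ l.length * (((M : ℝ) + 1) ^ 2 / ((M : ℝ) + 1) ^ h) *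
      (1 / ((m + 1 : ℕ) : ℝ) ^ 2) := by
  have h1 : u l a (m + M) ≤ 2 ^ l.length * (1 / ((m + M + 1 : ℕ) : ℝ) ^ a) := by
    unfold u
    rw [mul_one_div]
    exact div_le_div_of_nonneg_right (trunc_le l hl _) (by positivity)
  refine h1.trans ?_
  rw [mul_assoc]
  exact mul_le_mul_of_nonneg_left (pow_bd ha hh M m) (by positivity)

lemma summable_shift {l : List ℕ} (hl : ∀ x ∈ l, 2 ≤ x) {a h : ℕ} (ha : 4 ≤ a) (hh : h ≤ a)
    (M : ℕ) : Summable fun m => u l a (m + M) :=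
  Summable.of_nonneg_of_le (fun m => u_nonneg l a (m + M)) (fun m => u_le hl ha hh M m)
    (DZ.summable_inv_sq.mul_left _)

end TailAux

open TailAux in
theorem t_tail : TAIL := by
  intro w M h hw hh
  cases w with
  | nil =>
    rw [GD.mzv, GD.trunc, sub_self, abs_zero]
    positivity
  | cons a l =>
    have ha : 4 ≤ a := hw a List.mem_cons_self
    have hha : h ≤ a := hh a List.mem_cons_self
    have hl : ∀ x ∈ l, 2 ≤ x := fun x hx => by
      have := hw x (List.mem_cons_of_mem _ hx)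
      omega
    have hs : Summable (u l a) := by
      have := summable_shift hl ha hha 0
      simpa using this
    have e1 : GD.trunc (a :: l) (M + 1) = ∑ m ∈ Finset.range M, u l a m := by
      rw [GD.trunc, Finset.sum_Ico_eq_sum_range]
      refine Finset.sum_congr (by simp) fun i _ => ?_
      rw [add_comm 1 i]
      rfl
    have e2 : GD.mzv (a :: l) = ∑ m ∈ Finset.range M, u l a m + ∑' m, u l a (m + M) := by
      rw [hs.sum_add_tsum_nat_add M]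
      rfl
    rw [e1, e2, add_sub_cancel_left, abs_of_nonneg (tsum_nonneg fun m => u_nonneg l a (m + M))]
    calc ∑' m, u l a (m + M) ≤ ∑' m : ℕ, 2 ^ l.length * (((M : ℝ) + 1) ^ 2 / ((M : ℝ) + 1) ^ h) *
            (1 / ((m + 1 : ℕ) : ℝ) ^ 2) :=
          (summable_shift hl ha hha M).tsum_le_tsum (fun m => u_le hl ha hha M m)
            (DZ.summable_inv_sq.mul_left _)
      _ = 2 ^ l.length * (((M : ℝ) + 1) ^ 2 / ((M : ℝ) + 1) ^ h) *
            ∑' m : ℕ, (1 / ((m + 1 : ℕ) : ℝ) ^ 2) := tsum_mul_left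
      _ ≤ 2 ^ l.length * (((M : ℝ) + 1) ^ 2 / ((M : ℝ) + 1) ^ h) * 2 :=
          mul_le_mul_of_nonneg_left DZ.sum_inv_sq (by positivity)
      _ ≤ 2 ^ ((a :: l).length + 1) * ((M : ℝ) + 1) ^ 2 / ((M : ℝ) + 1) ^ h := by
          have e3 : (2 : ℝ) ^ ((a :: l).length + 1) = 2 ^ l.length * 4 := by
            rw [List.length_cons, pow_succ, pow_succ]
            ring
          rw [e3]
          have h1 : (0 : ℝ) ≤ 2 ^ l.length * (((M : ℝ) + 1) ^ 2 / ((M : ℝ) + 1) ^ h) := by positivity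
          have e4 : (2 : ℝ) ^ l.length * 4 * ((M : ℝ) + 1) ^ 2 / ((M : ℝ) + 1) ^ h =
              2 ^ l.length * (((M : ℝ) + 1) ^ 2 / ((M : ℝ) + 1) ^ h) * 4 := by ring
          rw [e4]
          linarith

end Pool.Agent.NH24.DM
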