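import Pool.Agent.NH24.DM.Six
import Pool.Agent.NH24.DM.RelD
import Pool.Agent.NH24.DM.Sep
import Pool.Agent.NH24.DM.Dom
import Pool.Agent.NH24.DM.Arch
import Pool.Agent.NH24.DM.Iso
import Pool.Agent.NH24.DM.Tail
import Pool.Agent.NH24.GU.F
import Pool.Agent.NH24.GP.T

/-!
# Relations dominated by boundedly many words: the main theorem
-/

set_option autoImplicit false

open Filter Topology Finset

namespace Pool.Agent.NH24.DM

open GD (mzv trunc pw dec)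
open Pool.Agent.R404.MZ (rpow_large asyH)
open Pool.Agent.Y760.ZG (mz)
open Pool.Agent.Y777.AM (ht)

lemma Rel.dat {δ C c : ℝ} {s D k : ℕ} {S T : Finset (List ℕ)} {e : List ℕ → ℤ}
    (h : Rel δ C s D c k S T e) (hk : 1 ≤ k) (hc0 : 0 < c) (hc1 : c ≤ 1) {B : ℝ}
    (hs : |∑ w ∈ S, (e w : ℝ) * mzv w| ≤ (B ^ k)⁻¹) :
    ∃ d : Dat s, d.k = k ∧ d.c = c ∧ d.B = B ∧ Ok D δ C d := by
  classical
  obtain ⟨t0, ht0⟩ := h.ne
  have hcard : Fintype.card T ≤ Fintype.card (Fin s) := by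
    rw [Fintype.card_coe, Fintype.card_fin]
    exact h.card
  obtain ⟨φ⟩ := Function.Embedding.nonempty_of_card_le hcard
  have : Nonempty T := ⟨⟨t0, ht0⟩⟩
  set u : Fin s → List ℕ := fun j => (Function.invFun φ j).1 with hu
  have huT : ∀ j, u j ∈ T := fun j => (Function.invFun φ j).2
  have husurj : ∀ v ∈ T, ∃ j, u j = v := by
    intro v hv
    obtain ⟨j, hj⟩ := Function.invFun_surjective φ.injective ⟨v, hv⟩
    exact ⟨j, congrArg Subtype.val hj⟩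
  have hf : ∀ w : List ℕ, ∃ j : Fin s, w ∈ S → ((u j).length = w.length ∧
      (∀ i, i + 1 < w.length → sgl D (u j) i ≤ sgl D w i ∧ (sgl D w i : ℝ) ≤ sgl D (u j) i + c * k) ∧
      |(e w : ℝ)| ≤ C ^ dsl D (u j) w * |(e (u j) : ℝ)|) := by
    intro w
    by_cases hw : w ∈ S
    · obtain ⟨v, hv, h1⟩ := h.dom w hw
      obtain ⟨j, rfl⟩ := husurj v hv
      exact ⟨j, fun _ => h1⟩
    · obtain ⟨j, -⟩ := husurj t0 ht0
      exact ⟨j, fun h1 => absurd h1 hw⟩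
  choose f hf using hf
  refine ⟨⟨k, S, e, u, f, c, B⟩, rfl, rfl, rfl, ?_⟩
  exact
    { k1 := hk
      c0 := hc0
      c1 := hc1
      sumS := h.wt
      argS := h.arg
      uS := fun j => h.sub (huT j)
      e0 := fun j => h.e0 _ (huT j)
      e1 := fun j => h.e1 _ (huT j)
      len := fun w hw => (hf w hw).1
      dom := fun w hw i hi => ((hf w hw).2.1 i hi).1
      win := fun w hw i hi => ((hf w hw).2.1 i hi).2
      gro := fun w hw => (hf w hw).2.2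
      sm := hs }

/-- **relations dominated by boundedly many words, modulo values of large height** -/
theorem main (δ C κ K ε : ℝ) (hδ : 0 < δ) (hε : 0 < ε) (s D : ℕ) :
    ∃ c B : ℝ, 0 < c ∧ 1 < B ∧ ∃ k0 : ℕ, ∀ k : ℕ, k0 ≤ k → ∀ (S T : Finset (List ℕ)) (e : List ℕ → ℤ),
      Rel δ C s D c k S T e → ∀ H : Finset (List ℕ), (∀ h ∈ H, (∀ m ∈ h, 1 ≤ m) ∧
        (∀ x ∈ h.head?, 2 ≤ x) ∧ (h.sum : ℝ) ≤ κ * k ∧ ε * k ≤ ht h) →
      ∀ b : List ℕ → ℝ, (∀ h ∈ H, |b h| ≤ K ^ k) →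
      (B ^ k)⁻¹ < |∑ w ∈ S, (e w : ℝ) * mz w - ∑ h ∈ H, b h * mz h| := by
  by_contra hcon
  push Not at hcon
  obtain ⟨N2, hN2⟩ := asyH κ K (ε / 2) ε (by positivity) (by linarith)
  have hlarge : ∀ t : ℕ, ∃ N3 : ℕ, ∀ N : ℕ, N3 ≤ N → 2 * ((t : ℝ) + 3) ≤ (N : ℝ) ^ (ε / 2) := fun t =>
    rpow_large (by positivity) _
  choose N3 hN3 using hlarge
  have hseq : ∀ t : ℕ, ∃ d : Dat s, Ok D δ C d ∧ t ≤ d.k ∧ d.c ≤ 1 / ((t : ℝ) + 1) ∧ (t : ℝ) + 2 ≤ d.B := by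
    intro t
    obtain ⟨k, hk, S, T, e, hR, H, hH, b, hb, hs⟩ := hcon (1 / ((t : ℝ) + 1)) (2 * ((t : ℝ) + 3))
      (by positivity) (by
        have : (0 : ℝ) ≤ t := Nat.cast_nonneg _
        linarith) (max (max t 1) (max N2 (N3 t)))
    have hk1 : 1 ≤ k := (le_max_right _ _).trans ((le_max_left _ _).trans hk)
    have hkt : t ≤ k := (le_max_left _ _).trans ((le_max_left _ _).trans hk)
    have hkN2 : N2 ≤ k := (le_max_left _ _).trans ((le_max_right _ _).trans hk)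
    have hkN3 : N3 t ≤ k := (le_max_right _ _).trans ((le_max_right _ _).trans hk)
    have ht0 : (0 : ℝ) ≤ t := Nat.cast_nonneg _
    have h1 := hN2 k hkN2 H hH b hb
    have h2 := hN3 t k hkN3
    have h3 : ((k : ℝ) ^ (ε / 2 * k))⁻¹ ≤ ((2 * ((t : ℝ) + 3)) ^ k)⁻¹ := by
      refine inv_anti₀ (by positivity) ?_
      rw [Real.rpow_mul (Nat.cast_nonneg _), Real.rpow_natCast]
      exact pow_le_pow_left₀ (by positivity) h2 _
    have h4 : ((2 * ((t : ℝ) + 3)) ^ k)⁻¹ ≤ 1 / 2 * (((t : ℝ) + 3) ^ k)⁻¹ := by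
      rw [mul_pow, mul_inv]
      refine mul_le_mul_of_nonneg_right ?_ (by positivity)
      rw [one_div]
      refine inv_anti₀ (by norm_num) ?_
      calc (2 : ℝ) = 2 ^ 1 := by norm_num
        _ ≤ 2 ^ k := pow_le_pow_right₀ (by norm_num) hk1
    have h5 : |∑ w ∈ S, (e w : ℝ) * mzv w| ≤ (((t : ℝ) + 3) ^ k)⁻¹ := by
      have h6 := abs_sub_abs_le_abs_sub (∑ w ∈ S, (e w : ℝ) * mz w) (∑ h ∈ H, b h * mz h)
      rw [GU.mzv_mz]
      linarith
    have hc1 : 1 / ((t : ℝ) + 1) ≤ 1 := by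
      rw [div_le_one (by positivity)]
      linarith
    obtain ⟨d, hd1, hd2, hd3, hd4⟩ := hR.dat hk1 (by positivity) hc1 h5
    exact ⟨d, hd4, by rw [hd1]; exact hkt, hd2.le, by rw [hd3]; linarith⟩
  choose d hd using hseq
  exact contra (d := d) (C := C) (δ := δ) (D := D)
    { δ0 := hδ
      ok := fun t => (hd t).1
      kt := fun t => (hd t).2.1
      ct := fun t => (hd t).2.2.1
      Bt := fun t => (hd t).2.2.2 } t_tail t_iso (arch_of t_sep t_dom)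

end Pool.Agent.NH24.DM
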