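import Pool.Agent.NH24.DM.Five

/-!
# The contradiction
-/

set_option autoImplicit false

open Filter Topology Finset

namespace Pool.Agent.NH24.DM

open GD (mzv trunc pw dec)
open Pool.Agent.TH932.Germs (UU ev_of_atTop)
open Pool.Agent.Y760.ZG (pr pr_prime pr_inj pr_ge primesBelow_pr ult_fin ult_lim)

/-- all arguments but the last one -/
def hat (r : ℕ) (w : List ℕ) (i : Fin r) : ℕ := w.getD i 0

/-- the word of weight `k` -/
def unhat {r : ℕ} (k : ℕ) (v : Fin r → ℕ) : List ℕ := List.ofFn v ++ [k - ∑ i, v i]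

lemma unhat_hat {r k : ℕ} {w : List ℕ} (hl : w.length = r + 1) (hk : w.sum = k) :
    unhat k (hat r w) = w := by
  have hsum : ∑ i : Fin r, hat r w i + w.getD r 0 = k := by
    unfold hat
    rw [Fin.sum_univ_eq_sum_range (fun i => w.getD i 0) r, ← hk, sum_getD, hl, sum_range_succ]
  refine List.ext_getElem ?_ fun a ha hb => ?_
  · unfold unhat
    rw [List.length_append, List.length_ofFn, List.length_singleton, hl]
  · unfold unhat
    rcases Nat.lt_or_ge a r with h1 | h1
    · rw [List.getElem_append_left (by rw [List.length_ofFn]; exact h1), List.getElem_ofFn]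
      unfold hat
      exact List.getD_eq_getElem _ _ hb
    · have h2 : a = r := by omega
      subst h2
      rw [List.getElem_append_right (by rw [List.length_ofFn])]
      simp only [List.length_ofFn, Nat.sub_self, List.getElem_cons_zero]
      rw [List.getD_eq_getElem _ _ hb] at hsum
      omega

lemma sg_hat {r D : ℕ} (w : List ℕ) (i : Fin r) : sg D (hat r w) i = sgl D w i := by
  unfold sg sgl hat
  rw [← Finset.sum_subtype_eq_sum_filter]
  symm
  refine Finset.sum_bij' (fun j hj => ⟨⟨j, by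
      rw [mem_range] at hj
      have := i.2
      omega⟩, by
      rw [mem_range] at hj
      show j ≤ (i : ℕ)
      omega⟩) (fun j _ => ((j : Fin r) : ℕ)) ?_ ?_ ?_ ?_ ?_
  · intro j hj
    simp
  · intro j _
    rw [mem_range]
    have : ((j : Fin r) : ℕ) ≤ i := j.2
    omega
  · intro j hj
    rfl
  · intro j hj
    rfl
  · intro j hj
    rfl

lemma ds_hat {r D : ℕ} {u w : List ℕ} (hl : w.length = r + 1) : ds D (hat r u) (hat r w) = dsl D u w := by
  unfold ds dsl
  simp only [sg_hat]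
  rw [hl, Nat.add_sub_cancel]
  exact Fin.sum_univ_eq_sum_range (fun i => sgl D w i - sgl D u i) r

lemma mn_hat {r : ℕ} (x : Fin r → ℕ) {w : List ℕ} (hl : w.length = r + 1) :
    mn x (hat r w) = pw (List.ofFn x ++ [1]) w := by
  rw [pw_eq _ _ (by rw [List.length_append, List.length_ofFn, List.length_singleton, hl]),
    List.length_append, List.length_ofFn, List.length_singleton, prod_range_succ]
  have h1 : (List.ofFn x ++ [1]).getD r 0 = 1 := by
    have := getD_append_last (List.ofFn x)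
    rwa [List.length_ofFn] at this
  rw [h1, one_pow, mul_one]
  unfold mn hat
  rw [← Fin.prod_univ_eq_prod_range (fun a : ℕ => (List.ofFn x ++ [1] : List ℕ).getD a 0 ^ w.getD a 0) r]
  refine prod_congr rfl fun i _ => ?_
  rw [getD_append_one _ (by rw [List.length_ofFn]; exact i.2), List.getD_eq_getElem (List.ofFn x) _ (by
    rw [List.length_ofFn]; exact i.2), List.getElem_ofFn]

variable {s D : ℕ} {δ C : ℝ} {d : ℕ → Dat s} {r : Fin s → ℕ} {om : Fin s → ℕ → ℝ}

lemma assign (h : Sq D δ C d) (hl : Lm d r om) (j j' : Fin s) :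
    ∀ᶠ t in (UU : Filter ℕ), (d t).f ((d t).u j) = j' → (r j' = r j ∧ ∀ a, om j' a = om j a) := by
  by_cases hev : ∀ᶠ t in (UU : Filter ℕ), (d t).f ((d t).u j) ≠ j'
  · filter_upwards [hev] with t h1 h2
    exact absurd h2 h1
  · have hev' : ∀ᶠ t in (UU : Filter ℕ), (d t).f ((d t).u j) = j' := by
      have h1 := Ultrafilter.eventually_not.2 hev
      filter_upwards [h1] with t h2
      push Not at h2
      exact h2
    refine Eventually.of_forall fun t _ => ⟨?_, fun a => ?_⟩
    · obtain ⟨t, h1, h2, h3⟩ := (hev'.and ((hl.len j).and (hl.len j'))).exists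
      have h4 := (h.ok t).len _ ((h.ok t).uS j)
      rw [h1, h2, h3] at h4
      omega
    · by_contra hcon
      have hpos : 0 < |om j' a - om j a| := abs_pos.2 (sub_ne_zero.2 hcon)
      set η := |om j' a - om j a| with hη
      obtain ⟨t, h1, h2, h3, h4⟩ := (hev'.and ((hl.lim j a (η / 4) (by positivity)).and
        ((hl.lim j' a (η / 4) (by positivity)).and (h.W (η / 4) (by positivity))))).exists
      have h5 := (h.ok t).le_W h.δ0 ((h.ok t).uS j) a
      rw [h1] at h5
      have h0 := h.L0 t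
      have h6 : ((((d t).u j).getD a 0 : ℕ) : ℝ) ≤ ((d t).u j').getD a 0 + (d t).W D δ := by
        exact_mod_cast h5.1
      have h7 : ((((d t).u j').getD a 0 : ℕ) : ℝ) ≤ ((d t).u j).getD a 0 + (d t).W D δ := by
        exact_mod_cast h5.2
      rw [abs_le] at h2 h3 h4
      have h8 : |(om j' a - om j a) * LL d t| ≤ 3 * (η / 4) * LL d t := by
        rw [abs_le]
        constructor <;> linarith
      rw [abs_mul, abs_of_pos h0, ← hη] at h8
      nlinarith

/-- there is no such sequence -/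
theorem contra (h : Sq D δ C d) (ht : TAIL) (hi : ISO) (har : ARCH) : False := by
  classical
  obtain ⟨r, om, hl⟩ := h.exists_lim
  have : Nonempty (Fin s) := ⟨(d 0).f []⟩
  obtain ⟨j0, hj0⟩ := Finite.exists_max fun j => om j (r j)
  obtain ⟨M0, hM0⟩ := har (r j0) s D C
  set J : Finset (Fin s) := univ.filter fun j => JJ r om j0 j with hJ
  have hJm : ∀ j, j ∈ J ↔ JJ r om j0 j := fun j => by rw [hJ, mem_filter]; simp
  set P : Finset (List ℕ) := (dec (r j0) (M0 + 1)).filter fun p => ∀ x ∈ p, x.Prime with hP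
  have h1 : ∀ᶠ t in (UU : Filter ℕ), ∀ p ∈ P,
      ∑ j ∈ J, ∑ w ∈ (d t).Sj j, ((d t).e w : ℝ) / (pw (p ++ [1]) w : ℝ) = 0 := by
    rw [eventually_all_finset]
    intro p hp
    rw [hP, mem_filter, GD.mem_dec] at hp
    obtain ⟨⟨hp1, hp2, -⟩, hp3⟩ := hp
    rw [List.pairwise_cons] at hp2
    filter_upwards [class_zero h hl ht hi hj0 M0 hp1 (fun x hx => ⟨hp3 x hx, by
      have := hp2.1 x hx
      omega⟩) hp2.2] with t h2
    exact h2 J hJm
  have h2 : ∀ᶠ t in (UU : Filter ℕ), ∀ j j', (d t).f ((d t).u j) = j' →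
      (r j' = r j ∧ ∀ a, om j' a = om j a) :=
    eventually_all.2 fun j => eventually_all.2 fun j' => assign h hl j j'
  have h3 : ∀ᶠ t in (UU : Filter ℕ), ∀ j, ((d t).u j).length = r j + 1 := eventually_all.2 hl.len
  obtain ⟨t, h1, h2, h3⟩ := (h1.and (h2.and h3)).exists
  have hok := h.ok t
  set r0 := r j0 with hr0
  set k := (d t).k with hk
  set e : (Fin r0 → ℕ) → ℝ := fun v => ((d t).e (unhat k v) : ℝ) with he
  set S' : Finset (List ℕ) := J.biUnion (d t).Sj with hS'
  have hlenJ : ∀ j ∈ J, ((d t).u j).length = r0 + 1 := by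
    intro j hj
    rw [h3 j, ((hJm j).1 hj).1]
  have hS1 : ∀ w ∈ S', w ∈ (d t).S ∧ (d t).f w ∈ J := by
    intro w hw
    rw [hS', mem_biUnion] at hw
    obtain ⟨j, hj, hw⟩ := hw
    rw [mem_Sj] at hw
    exact ⟨hw.1, by rw [hw.2]; exact hj⟩
  have hS2 : ∀ w ∈ (d t).S, (d t).f w ∈ J → w ∈ S' := by
    intro w hw hf
    rw [hS', mem_biUnion]
    exact ⟨_, hf, mem_Sj.2 ⟨hw, rfl⟩⟩
  have hSlen : ∀ w ∈ S', w.length = r0 + 1 := by
    intro w hw
    obtain ⟨h4, h5⟩ := hS1 w hw
    rw [← hok.len w h4, hlenJ _ h5]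
  have hun : ∀ w ∈ S', unhat k (hat r0 w) = w := fun w hw =>
    unhat_hat (hSlen w hw) (hok.sumS w (hS1 w hw).1)
  have huS : ∀ j ∈ J, (d t).u j ∈ S' := by
    intro j hj
    refine hS2 _ (hok.uS j) ?_
    obtain ⟨h4, h5⟩ := h2 j _ rfl
    have h6 := (hJm j).1 hj
    rw [hJm]
    exact ⟨h4.trans h6.1, fun a ha => (h5 a).trans (h6.2 a ha)⟩
  have hj0J : j0 ∈ J := (hJm j0).2 ⟨rfl, fun _ _ => rfl⟩
  obtain ⟨x, hx1, hx2, hx3⟩ := hM0 (S'.image (hat r0)) ((J.image (d t).u).image (hat r0)) e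
    (by
      refine image_subset_image ?_
      intro w hw
      rw [mem_image] at hw
      obtain ⟨j, hj, rfl⟩ := hw
      exact huS j hj)
    ⟨hat r0 ((d t).u j0), mem_image_of_mem _ (mem_image_of_mem _ hj0J)⟩
    (by
      refine card_image_le.trans (card_image_le.trans ?_)
      refine (card_le_univ _).trans ?_
      rw [Fintype.card_fin])
    (by
      intro v hv
      rw [mem_image] at hv
      obtain ⟨w, hw, rfl⟩ := hv
      rw [mem_image] at hw
      obtain ⟨j, hj, rfl⟩ := hw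
      show ((d t).e (unhat k (hat r0 ((d t).u j))) : ℝ) ≠ 0
      rw [hun _ (huS j hj)]
      exact_mod_cast hok.e0 j)
    (by
      intro v hv
      rw [mem_image] at hv
      obtain ⟨w, hw, rfl⟩ := hv
      obtain ⟨h4, h5⟩ := hS1 w hw
      refine ⟨hat r0 ((d t).u ((d t).f w)), mem_image_of_mem _ (mem_image_of_mem _ h5), ?_, ?_⟩
      · intro i
        rw [sg_hat, sg_hat]
        exact hok.dom w h4 i (by rw [hSlen w hw]; have := i.2; omega)
      · show |((d t).e (unhat k (hat r0 w)) : ℝ)| ≤ _ * |((d t).e (unhat k (hat r0 ((d t).u ((d t).f w)))) : ℝ)|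
        rw [hun w hw, hun _ (huS _ h5), ds_hat (hSlen w hw)]
        exact hok.gro w h4)
  apply hx3
  rw [sum_image (fun w hw w' hw' heq => by
    have h4 := congrArg (unhat k) heq
    rwa [hun w hw, hun w' hw'] at h4)]
  have h4 : ∀ w ∈ S', e (hat r0 w) / (mn x (hat r0 w) : ℝ) =
      ((d t).e w : ℝ) / (pw (List.ofFn x ++ [1]) w : ℝ) := by
    intro w hw
    rw [mn_hat x (hSlen w hw)]
    show ((d t).e (unhat k (hat r0 w)) : ℝ) / _ = _
    rw [hun w hw]
  rw [sum_congr rfl h4, hS', sum_biUnion (fun i _ j _ hij => by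
    show Disjoint ((d t).Sj i) ((d t).Sj j)
    rw [Finset.disjoint_left]
    intro w hw hw'
    rw [mem_Sj] at hw hw'
    exact hij (hw.2.symm.trans hw'.2))]
  apply h1
  rw [hP, mem_filter, GD.mem_dec]
  refine ⟨⟨List.length_ofFn, ?_, ?_⟩, ?_⟩
  · rw [List.pairwise_cons]
    refine ⟨fun y hy => ?_, ?_⟩
    · rw [List.mem_ofFn] at hy
      obtain ⟨i, rfl⟩ := hy
      have := (hx1 i).2
      show x i < M0 + 1
      omega
    · rw [List.pairwise_ofFn]
      exact fun i j hij => hx2 hij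
  · intro y hy
    rw [List.mem_ofFn] at hy
    obtain ⟨i, rfl⟩ := hy
    exact (hx1 i).1.one_lt.le
  · intro y hy
    rw [List.mem_ofFn] at hy
    obtain ⟨i, rfl⟩ := hy
    exact (hx1 i).1

end Pool.Agent.NH24.DM
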