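import Mathlib
import Pool.Agent.NH24.GD.A

/-!
# Relations dominated by boundedly many words: statements of the elementary parts

Points are functions `v : Fin r → ℕ`, `sg D v i = ∑_{j ≤ i} D ^ (i - j) v_j`. The point `w` dominates `u` if
`sg D u i ≤ sg D w i` for all `i`.
-/

set_option autoImplicit false

open Finset

namespace Pool.Agent.NH24.DM

/-- weighted partial sums -/
def sg {r : ℕ} (D : ℕ) (v : Fin r → ℕ) (i : Fin r) : ℕ :=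
  ∑ j ∈ univ.filter (· ≤ i), D ^ ((i : ℕ) - j) * v j

/-- the monomial `∏ x_i ^ (v_i)` -/
def mn {r : ℕ} (x v : Fin r → ℕ) : ℕ := ∏ i, x i ^ v i

/-- the distance of `w` from `u` -/
def ds {r : ℕ} (D : ℕ) (u w : Fin r → ℕ) : ℕ := ∑ i, (sg D w i - sg D u i)

/-- every element of `S` dominates an element of `T`, with coefficients growing at most exponentially -/
def Dominated {r : ℕ} (D : ℕ) (C : ℝ) (S T : Finset (Fin r → ℕ)) (e : (Fin r → ℕ) → ℝ) : Prop :=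
  ∀ w ∈ S, ∃ u ∈ T, (∀ i, sg D u i ≤ sg D w i) ∧ |e w| ≤ C ^ ds D u w * |e u|

/-- `x` is a rapidly decreasing tuple of large numbers -/
def Hier {r : ℕ} (D : ℕ) (K : ℝ) (x : Fin r → ℕ) : Prop :=
  (∀ i, K ≤ x i) ∧ ∀ i j : Fin r, (i : ℕ) + 1 = j → K * (x j : ℝ) ^ D ≤ x i

/-- boundedly many monomials with arbitrary coefficients are separated at some tuple of primes of bounded size -/
def SEP : Prop :=
  ∀ (r s D : ℕ) (K lam : ℝ), ∃ M : ℕ, ∀ (T : Finset (Fin r → ℕ)) (e : (Fin r → ℕ) → ℝ), T.card ≤ s →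
    (∀ u ∈ T, e u ≠ 0) → ∃ x : Fin r → ℕ, (∀ i, (x i).Prime ∧ x i ≤ M) ∧ Hier D K x ∧
      ∀ u ∈ T, ∀ v ∈ T, u ≠ v → |e v| / (mn x v : ℝ) ≤ |e u| / (mn x u : ℝ) →
        Real.exp lam * (|e v| / (mn x v : ℝ)) < |e u| / (mn x u : ℝ)

/-- the terms outside of `T` are small compared with the terms in `T` -/
def DOM : Prop :=
  ∀ (r D : ℕ) (C ε : ℝ), 0 < ε → ∃ K : ℝ, 1 ≤ K ∧ ∀ x : Fin r → ℕ, Hier D K x →
    ∀ (S T : Finset (Fin r → ℕ)) (e : (Fin r → ℕ) → ℝ), T ⊆ S → Dominated D C S T e →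
      ∑ w ∈ S \ T, |e w| / (mn x w : ℝ) ≤ ε * ∑ u ∈ T, |e u| / (mn x u : ℝ)

/-- a sum dominated by boundedly many terms does not vanish at all tuples of primes of bounded size -/
def ARCH : Prop :=
  ∀ (r s D : ℕ) (C : ℝ), ∃ M : ℕ, ∀ (S T : Finset (Fin r → ℕ)) (e : (Fin r → ℕ) → ℝ), T ⊆ S →
    T.Nonempty → T.card ≤ s → (∀ u ∈ T, e u ≠ 0) → Dominated D C S T e →
      ∃ x : Fin r → ℕ, (∀ i, (x i).Prime ∧ x i ≤ M) ∧ StrictAnti x ∧ ∑ w ∈ S, e w / (mn x w : ℝ) ≠ 0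

/-- isolation of the tuples of primes by the vectors of exponents -/
def ISO : Prop :=
  ∀ (r r' : ℕ) (om om' : ℕ → ℝ) (p n : ℕ → ℕ), (∀ i < r, (p i).Prime) → (∀ i < r, ∀ j < i, p i < p j) →
    (∀ i ≤ r', 1 ≤ n i) → (∀ i ≤ r', ∀ j < i, n i < n j) → (∀ i ≤ r, 0 < om i) → (∀ i ≤ r', 0 < om' i) →
    ∑ i ∈ range (r + 1), om i = 1 → ∑ i ∈ range (r' + 1), om' i = 1 → om' r' ≤ om r →
    (∀ q : ℕ, q.Prime → ∑ i ∈ range (r' + 1), om' i * ((n i).factorization q : ℝ) =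
      ∑ i ∈ range r, om i * ((p i).factorization q : ℝ)) →
    r' = r ∧ n r = 1 ∧ (∀ i < r, n i = p i) ∧ ∀ i ≤ r, om' i = om i

/-- truncation of multiple zeta values -/
def TAIL : Prop :=
  ∀ (w : List ℕ) (M h : ℕ), (∀ x ∈ w, 4 ≤ x) → (∀ x ∈ w, h ≤ x) →
    |GD.mzv w - GD.trunc w (M + 1)| ≤ 2 ^ (w.length + 1) * ((M : ℝ) + 1) ^ 2 / ((M : ℝ) + 1) ^ h

end Pool.Agent.NH24.DM
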