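import Pool.Agent.NH24.DM.RelD

/-!
# Polynomials in multiple zeta values on boundedly many lines: statements of the combinatorial parts
-/

set_option autoImplicit false

open Finset

namespace Pool.Agent.NH24.DM

/-- the words of the stuffle product of two words -/
def stg {α : Type} [Add α] : List α → List α → List (List α)
  | [], l => [l]
  | i :: k, [] => [i :: k]
  | i :: k, j :: l => (stg k (j :: l)).map (i :: ·) ++ (stg (i :: k) l).map (j :: ·) ++
      (stg k l).map ((i + j) :: ·)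
termination_by k l => k.length + l.length

/-- the words of the stuffle product of several words -/
def stgl {α : Type} [Add α] : List (List α) → List (List α)
  | [] => [[]]
  | u :: M => (stgl M).flatMap (stg u)

/-- stuffle products and additive maps -/
def STMAP : Prop :=
  ∀ (α β : Type) (_ : Add α) (_ : Add β) (f : α → β), (∀ x y, f (x + y) = f x + f y) →
    ∀ M : List (List α), stgl (M.map (List.map f)) = (stgl M).map (List.map f)

/-- the letters of the words of a stuffle product: subadditive bounds, closed predicates, sums, numbers -/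
def STLET : Prop :=
  (∀ (α : Type) (_ : Add α) (g : α → ℕ), (∀ x y, g (x + y) ≤ g x + g y) → ∀ M : List (List α),
    ∀ w ∈ stgl M, (w.map g).sum ≤ (M.map fun u => (u.map g).sum).sum) ∧
  (∀ (α : Type) (_ : Add α) (P : α → Prop), (∀ x y, P x → P y → P (x + y)) → ∀ M : List (List α),
    (∀ u ∈ M, ∀ x ∈ u, P x) → ∀ w ∈ stgl M, ∀ x ∈ w, P x) ∧
  (∀ M : List (List ℕ), ∀ w ∈ stgl M, w.sum = (M.map List.sum).sum) ∧
  (∀ (α : Type) (_ : Add α) (M : List (List α)) (r : ℕ), (M.map List.length).sum ≤ r →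
    (stgl M).length ≤ (3 ^ r) ^ M.length)

/-- dominance along a line: if `v = u + τ b`, where the first nonzero entry of `b` is positive and all entries
have absolute value at most `D0`, then `v` dominates `u` for the weighted partial sums with `D = D0 + 1` -/
def DOML : Prop :=
  ∀ (D0 : ℕ) (u v : List ℕ) (b : ℕ → ℤ) (τ i0 : ℕ), (∀ j, ((v.getD j 0 : ℕ) : ℤ) = u.getD j 0 + τ * b j) →
    (∀ j, |b j| ≤ D0) → (∀ j < i0, b j = 0) → 0 < b i0 →
    ∀ i, sgl (D0 + 1) u i ≤ sgl (D0 + 1) v i ∧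
      sgl (D0 + 1) v i ≤ sgl (D0 + 1) u i + τ * (D0 + 1) ^ (i + 1)

/-- two words of the same length and weight at distance zero are equal -/
def DIST0 : Prop :=
  ∀ (D : ℕ) (u v : List ℕ), u.length = v.length → u.sum = v.sum →
    (∀ i, i + 1 < v.length → sgl D u i ≤ sgl D v i) → dsl D u v = 0 → u = v

/-- a combination of products on `s` lines: the product with the number `(i, t)` has the arguments
`z.1 + z.2 t`, `z` a letter of `F i`; all slopes `z.2` have absolute value at most `D`; `t ≤ c k` -/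
structure Lines (δ H : ℝ) (s D : ℕ) (c : ℝ) (k : ℕ) (F : Fin s → List (List (ℤ × ℤ)))
    (I : Fin s → Finset ℕ) (L : Fin s → ℕ → List (List ℕ)) (a : Fin s → ℕ → ℤ) : Prop where
  slope : ∀ i, ∀ w ∈ F i, ∀ z ∈ w, |z.2| ≤ D
  ne : ∀ i, ∀ w ∈ F i, w ≠ []
  It : ∀ i, ∀ t ∈ I i, (t : ℝ) ≤ c * k
  ev : ∀ i, ∀ t ∈ I i, (L i t).map (List.map fun x : ℕ => (x : ℤ)) =
    (F i).map (List.map fun z => z.1 + z.2 * (t : ℤ))
  wt : ∀ i, ∀ t ∈ I i, ((L i t).map List.sum).sum = k
  arg : ∀ i, ∀ t ∈ I i, ∀ w ∈ L i t, ∀ x ∈ w, δ * k ≤ (x : ℝ)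
  coef : ∀ i, ∀ t ∈ I i, |(a i t : ℝ)| ≤ H

/-- the coefficients of the expansion by the stuffle product -/
def Cf {s : ℕ} (I : Fin s → Finset ℕ) (L : Fin s → ℕ → List (List ℕ)) (a : Fin s → ℕ → ℤ)
    (v : List ℕ) : ℤ := ∑ i, ∑ t ∈ I i, a i t * ((stgl (L i t)).countP (· = v) : ℤ)

/-- the expansion of a combination on `s` lines is dominated by boundedly many words -/
def COMB : Prop :=
  ∀ (δ H : ℝ) (s D : ℕ), 0 < δ → ∃ (C : ℝ) (s' D' : ℕ), ∀ c' : ℝ, 0 < c' → ∃ c : ℝ, 0 < c ∧ ∃ k0 : ℕ,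
    ∀ k : ℕ, k0 ≤ k → ∀ (F : Fin s → List (List (ℤ × ℤ))) (I : Fin s → Finset ℕ)
      (L : Fin s → ℕ → List (List ℕ)) (a : Fin s → ℕ → ℤ), Lines δ H s D c k F I L a →
      (∃ v, Cf I L a v ≠ 0) →
      ∃ S T : Finset (List ℕ), Rel δ C s' D' c' k S T (Cf I L a) ∧ ∀ v, v ∉ S → Cf I L a v = 0

end Pool.Agent.NH24.DM
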