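import Pool.Agent.NH24.DM.Two
import Pool.Agent.NH24.DM.Cls
import Pool.Agent.Y760.ZG.Env

/-!
# Sequences of scales
-/

set_option autoImplicit false

open Filter Topology Finset

namespace Pool.Agent.NH24.DM

open GD (mzv trunc pw dec)
open Pool.Agent.TH932.Germs (UU ev_of_atTop)
open Pool.Agent.Y760.ZG (pr pr_prime pr_inj pr_ge primesBelow_pr ult_fin ult_lim)

/-- negligible real sequences -/
def Ngl (L f : ℕ → ℝ) : Prop := ∀ ε : ℝ, 0 < ε → ∀ᶠ t in (UU : Filter ℕ), |f t| ≤ Real.exp (ε * L t)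

lemma Ngl.mul {L f g : ℕ → ℝ} (hf : Ngl L f) (hg : Ngl L g) : Ngl L fun t => f t * g t := by
  intro ε hε
  filter_upwards [hf (ε / 2) (by positivity), hg (ε / 2) (by positivity)] with t h1 h2
  rw [abs_mul]
  calc |f t| * |g t| ≤ Real.exp (ε / 2 * L t) * Real.exp (ε / 2 * L t) := by gcongr
    _ = Real.exp (ε * L t) := by rw [← Real.exp_add]; ring_nf

lemma Ngl.of_le {L f g : ℕ → ℝ} (hg : Ngl L g) (h : ∀ᶠ t in (UU : Filter ℕ), |f t| ≤ |g t|) : Ngl L f := by
  intro ε hε
  filter_upwards [hg ε hε, h] with t h1 h2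
  exact h2.trans h1

lemma Ngl.const {L : ℕ → ℝ} (hL : Tendsto L atTop atTop) (a : ℝ) : Ngl L fun _ => a := by
  intro ε hε
  refine ev_of_atTop ?_
  filter_upwards [hL.eventually_ge_atTop (|a| / ε)] with t ht
  rw [div_le_iff₀ hε] at ht
  have := Real.add_one_le_exp (ε * L t)
  linarith

/-- `o(L)` -/
def Sm (L : ℕ → ℝ) (f : ℕ → ℝ) : Prop := ∀ ε : ℝ, 0 < ε → ∀ᶠ t in (UU : Filter ℕ), |f t| ≤ ε * L t

lemma Sm.const_mul {L f : ℕ → ℝ} (hL : Tendsto L atTop atTop) (hf : Sm L f) (a : ℝ) :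
    Sm L fun t => a * f t := by
  intro ε hε
  filter_upwards [hf (ε / (|a| + 1)) (by positivity), ev_of_atTop (hL.eventually_ge_atTop 0)] with t h1 h2
  rw [abs_mul]
  calc |a| * |f t| ≤ |a| * (ε / (|a| + 1) * L t) := by gcongr
    _ ≤ (|a| + 1) * (ε / (|a| + 1) * L t) := by gcongr; linarith
    _ = ε * L t := by field_simp

lemma Sm.add {L f g : ℕ → ℝ} (hf : Sm L f) (hg : Sm L g) : Sm L fun t => f t + g t := by
  intro ε hε
  filter_upwards [hf (ε / 2) (by positivity), hg (ε / 2) (by positivity)] with t h1 h2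
  have := abs_add_le (f t) (g t)
  linarith

lemma Sm.of_le {L f g : ℕ → ℝ} (hg : Sm L g) (h : ∀ᶠ t in (UU : Filter ℕ), |f t| ≤ |g t|) : Sm L f := by
  intro ε hε
  filter_upwards [hg ε hε, h] with t h1 h2
  exact h2.trans h1

/-- powers with small exponents -/
lemma Ngl.pow_small {L : ℕ → ℝ} (hL : Tendsto L atTop atTop) {A : ℝ} (hA : 1 ≤ A) {m : ℕ → ℕ}
    (hm : Sm L fun t => (m t : ℝ)) : Ngl L fun t => A ^ m t := by
  intro ε hε
  have hlog : 0 ≤ Real.log A := Real.log_nonneg hA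
  filter_upwards [Sm.const_mul hL hm (Real.log A) ε hε] with t h1
  rw [abs_of_nonneg (by positivity)]
  have h2 : A ^ m t = Real.exp (Real.log A * m t) := by
    rw [mul_comm, ← Real.log_pow, Real.exp_log (by positivity)]
  rw [h2]
  exact Real.exp_le_exp.2 ((le_abs_self _).trans h1)

lemma Ngl.pow {L f : ℕ → ℝ} (hL : Tendsto L atTop atTop) (hf : Ngl L f) (m : ℕ) : Ngl L fun t => f t ^ m := by
  induction m with
  | zero => simpa using Ngl.const hL 1
  | succ m ih => simpa only [pow_succ] using ih.mul hf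

variable {s : ℕ}

/-- a sequence of scales with `c → 0` and `B → ∞` -/
structure Sq (D : ℕ) (δ C : ℝ) (d : ℕ → Dat s) : Prop where
  δ0 : 0 < δ
  ok : ∀ t, Ok D δ C (d t)
  kt : ∀ t, t ≤ (d t).k
  ct : ∀ t : ℕ, (d t).c ≤ 1 / ((t : ℝ) + 1)
  Bt : ∀ t : ℕ, (t : ℝ) + 2 ≤ (d t).B

variable {D : ℕ} {δ C : ℝ} {d : ℕ → Dat s}

/-- the scale -/
def LL (d : ℕ → Dat s) (t : ℕ) : ℝ := (d t).k

lemma Sq.hL (h : Sq D δ C d) : Tendsto (LL d) atTop atTop :=
  tendsto_atTop_mono (fun t => by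
    unfold LL
    exact_mod_cast h.kt t) (tendsto_natCast_atTop_atTop (R := ℝ))

lemma Sq.L0 (h : Sq D δ C d) (t : ℕ) : 0 < LL d t := by
  have := (h.ok t).k1
  unfold LL
  exact_mod_cast this

lemma Sq.ck (h : Sq D δ C d) : Sm (LL d) fun t => (d t).c * (d t).k := by
  intro ε hε
  have h1 : Tendsto (fun t : ℕ => 1 / ((t : ℝ) + 1)) atTop (𝓝 0) := tendsto_one_div_add_atTop_nhds_zero_nat
  refine ev_of_atTop ?_
  filter_upwards [h1.eventually_le_const hε] with t ht
  have h2 := (h.ok t).c0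
  have h3 := h.ct t
  rw [abs_of_nonneg (by positivity)]
  exact mul_le_mul_of_nonneg_right (h3.trans ht) (Nat.cast_nonneg _)

lemma Sq.W (h : Sq D δ C d) : Sm (LL d) fun t => ((d t).W D δ : ℝ) := by
  refine (Sm.const_mul h.hL h.ck ((D + 1) / δ)).of_le (Eventually.of_forall fun t => ?_)
  have h0 := h.δ0
  have h2 := (h.ok t).c0
  rw [abs_of_nonneg (Nat.cast_nonneg _), abs_of_nonneg (by positivity)]
  exact Nat.floor_le (by positivity)

lemma Sq.Ngl_k (h : Sq D δ C d) : Ngl (LL d) fun t => ((d t).k : ℝ) + 1 := by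
  intro ε hε
  refine ev_of_atTop ?_
  have h1 : ∀ᶠ x : ℝ in atTop, x + 1 ≤ Real.exp (ε * x) := by
    have h2 : Tendsto (fun x : ℝ => Real.exp (ε * x) / (ε * x)) atTop atTop := by
      have h3 : Tendsto (fun x : ℝ => ε * x) atTop atTop := tendsto_id.const_mul_atTop hε
      have h4 := (Real.tendsto_exp_div_pow_atTop 1).comp h3
      simpa [Function.comp_def] using h4
    filter_upwards [h2.eventually_ge_atTop (2 / ε), eventually_ge_atTop 1] with x h3 h4
    have h5 : 0 < ε * x := by positivity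
    rw [le_div_iff₀ h5] at h3
    have h6 : 2 / ε * (ε * x) = 2 * x := by field_simp
    linarith
  filter_upwards [h.hL.eventually h1] with t ht
  rw [abs_of_nonneg (by positivity)]
  exact ht

lemma Sq.Ngl_cb (h : Sq D δ C d) : Ngl (LL d) fun t => (d t).cb δ C := by
  unfold Dat.cb
  refine Ngl.mul (Ngl.pow_small h.hL (le_max_right _ _) ?_) ?_
  · refine (Sm.const_mul h.hL h.ck (⌈1 / δ⌉₊ : ℝ)).of_le (Eventually.of_forall fun t => ?_)
    have h2 := (h.ok t).c0
    have h3 : (⌊(d t).c * (d t).k⌋₊ : ℝ) ≤ (d t).c * (d t).k := Nat.floor_le (by positivity)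
    rw [abs_of_nonneg (Nat.cast_nonneg _), abs_of_nonneg (by positivity)]
    push_cast
    exact mul_le_mul_of_nonneg_left h3 (Nat.cast_nonneg _)
  · intro ε hε
    filter_upwards [h.ck ε hε] with t h1
    have h2 := (h.ok t).c0
    rw [abs_of_nonneg (by positivity)]
    have h3 : (1 + (d t).c) ^ (d t).k ≤ Real.exp ((d t).c) ^ (d t).k := by
      refine pow_le_pow_left₀ (by positivity) ?_ _
      rw [add_comm]
      exact Real.add_one_le_exp _
    rw [← Real.exp_nat_mul] at h3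
    refine h3.trans (Real.exp_le_exp.2 ?_)
    rw [mul_comm]
    exact (le_abs_self _).trans h1

/-- the depths and the limits of the arguments -/
structure Lm (d : ℕ → Dat s) (r : Fin s → ℕ) (om : Fin s → ℕ → ℝ) : Prop where
  len : ∀ j, ∀ᶠ t in (UU : Filter ℕ), ((d t).u j).length = r j + 1
  lim : ∀ j a, ∀ ε : ℝ, 0 < ε → ∀ᶠ t in (UU : Filter ℕ),
    |(((d t).u j).getD a 0 : ℝ) - om j a * LL d t| ≤ ε * LL d t

lemma Sq.exists_lim (h : Sq D δ C d) : ∃ r om, Lm d r om := by
  have h1 : ∀ j, ∃ r : ℕ, ∀ᶠ t in (UU : Filter ℕ), ((d t).u j).length = r + 1 := by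
    intro j
    have hl : ∀ t, ((d t).u j).length < ⌈1 / δ⌉₊ + 1 := by
      intro t
      have h2 := (h.ok t).length h.δ0 ((h.ok t).uS j)
      have h3 := Nat.le_ceil (1 / δ)
      have : ((d t).u j).length ≤ ⌈1 / δ⌉₊ := by exact_mod_cast h2.trans h3
      omega
    obtain ⟨a, ha⟩ := ult_fin fun t => (⟨_, hl t⟩ : Fin (⌈1 / δ⌉₊ + 1))
    refine ⟨(a : ℕ) - 1, ?_⟩
    filter_upwards [ha] with t ht
    have h2 := congrArg Fin.val ht
    have h3 := (h.ok t).ne_nil ((h.ok t).uS j)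
    simp only at h2
    omega
  choose r hr using h1
  have h2 : ∀ j a, ∃ o : ℝ, Tendsto (fun t => (((d t).u j).getD a 0 : ℝ) / LL d t) (UU : Filter ℕ) (𝓝 o) := by
    intro j a
    refine ult_lim (c := 1) (Eventually.of_forall fun t => ?_)
    have h0 := h.L0 t
    rw [abs_of_nonneg (by positivity), div_le_one h0]
    have h3 := getD_le_sum ((d t).u j) a
    rw [(h.ok t).sumS _ ((h.ok t).uS j)] at h3
    unfold LL
    exact_mod_cast h3
  choose om hom using h2
  refine ⟨r, om, hr, fun j a ε hε => ?_⟩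
  have h3 := (hom j a).eventually (Metric.ball_mem_nhds _ hε)
  filter_upwards [h3] with t ht
  have h0 := h.L0 t
  rw [Real.dist_eq] at ht
  have h4 : (((d t).u j).getD a 0 : ℝ) - om j a * LL d t =
      ((((d t).u j).getD a 0 : ℝ) / LL d t - om j a) * LL d t := by
    field_simp
  rw [h4, abs_mul, abs_of_pos h0]
  exact mul_le_mul_of_nonneg_right ht.le h0.le

variable {r : Fin s → ℕ} {om : Fin s → ℕ → ℝ}

lemma Lm.pos (hl : Lm d r om) (h : Sq D δ C d) (j : Fin s) {a : ℕ} (ha : a ≤ r j) : δ ≤ om j a := by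
  by_contra hcon
  push Not at hcon
  have h1 := hl.lim j a ((δ - om j a) / 2) (by linarith)
  obtain ⟨t, h2, h3⟩ := (h1.and (hl.len j)).exists
  have h0 := h.L0 t
  have h4 : δ * LL d t ≤ (((d t).u j).getD a 0 : ℝ) := by
    have hlt : a < ((d t).u j).length := by omega
    rw [List.getD_eq_getElem _ _ hlt]
    exact (h.ok t).argS _ ((h.ok t).uS j) _ (List.getElem_mem hlt)
  rw [abs_le] at h2
  nlinarith

lemma Lm.sum (hl : Lm d r om) (h : Sq D δ C d) (j : Fin s) : ∑ a ∈ range (r j + 1), om j a = 1 := by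
  by_contra hcon
  have hne : 0 < |∑ a ∈ range (r j + 1), om j a - 1| := abs_pos.2 (sub_ne_zero.2 hcon)
  set η := |∑ a ∈ range (r j + 1), om j a - 1| with hη
  have h1 : ∀ᶠ t in (UU : Filter ℕ), ∀ a ∈ range (r j + 1),
      |(((d t).u j).getD a 0 : ℝ) - om j a * LL d t| ≤ η / (2 * (r j + 1)) * LL d t := by
    rw [eventually_all_finset]
    exact fun a _ => hl.lim j a _ (by positivity)
  obtain ⟨t, h2, h3⟩ := (h1.and (hl.len j)).exists
  have h0 := h.L0 t
  have h4 : LL d t = ∑ a ∈ range (r j + 1), (((d t).u j).getD a 0 : ℝ) := by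
    have h5 := (h.ok t).sumS _ ((h.ok t).uS j)
    rw [sum_getD, h3] at h5
    unfold LL
    exact_mod_cast h5.symm
  have h5 : (1 - ∑ a ∈ range (r j + 1), om j a) * LL d t =
      ∑ a ∈ range (r j + 1), ((((d t).u j).getD a 0 : ℝ) - om j a * LL d t) := by
    rw [sum_sub_distrib, ← h4, ← sum_mul]
    ring
  have h6 : |(1 - ∑ a ∈ range (r j + 1), om j a) * LL d t| ≤ η / 2 * LL d t := by
    rw [h5]
    refine (abs_sum_le_sum_abs _ _).trans ((sum_le_sum h2).trans ?_)
    rw [sum_const, card_range, nsmul_eq_mul]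
    push_cast
    have : ((r j : ℝ) + 1) * (η / (2 * (r j + 1)) * LL d t) = η / 2 * LL d t := by field_simp
    rw [this]
  rw [abs_mul, abs_of_pos h0, abs_sub_comm, ← hη] at h6
  nlinarith

/-- the limit vector of exponents -/
noncomputable def gv (om : Fin s → ℕ → ℝ) (j : Fin s) (n : List ℕ) (p : ℕ) : ℝ :=
  -∑ a ∈ range n.length, om j a * padicValNat p (n.getD a 0)

lemma Lm.E_lim (hl : Lm d r om) (h : Sq D δ C d) (j : Fin s) (n : List ℕ) (p : ℕ) (ε : ℝ) (hε : 0 < ε) :
    ∀ᶠ t in (UU : Filter ℕ), |((d t).E D δ j n p : ℝ) - gv om j n p * LL d t| ≤ ε * LL d t := by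
  have h1 : Sm (LL d) fun t => ((d t).E D δ j n p : ℝ) - gv om j n p * LL d t := by
    have h2 : ∀ t, ((d t).E D δ j n p : ℝ) - gv om j n p * LL d t =
        ∑ a ∈ range n.length, -(padicValNat p (n.getD a 0) : ℝ) *
          (((((d t).u j).getD a 0 : ℝ) - om j a * LL d t) + (d t).W D δ) := by
      intro t
      unfold Dat.E gv Dat.X
      simp only [Int.cast_neg, Int.cast_sum, Int.cast_mul, Int.cast_natCast, Nat.cast_add, Int.cast_add]
      rw [neg_mul, sub_neg_eq_add, sum_mul, neg_add_eq_sub, ← sum_sub_distrib]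
      exact sum_congr rfl fun a _ => by ring
    have h3 : ∀ T : Finset ℕ, Sm (LL d) fun t => ∑ a ∈ T, -(padicValNat p (n.getD a 0) : ℝ) *
          (((((d t).u j).getD a 0 : ℝ) - om j a * LL d t) + (d t).W D δ) := by
      intro T
      induction T using Finset.induction_on with
      | empty =>
        intro ε hε
        refine Eventually.of_forall fun t => ?_
        have := h.L0 t
        simp only [sum_empty, abs_zero]
        positivity
      | insert a T ha ih =>
        simp only [sum_insert ha]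
        refine Sm.add (Sm.const_mul h.hL (Sm.add ?_ h.W) _) ih
        exact fun ε hε => hl.lim j a ε hε
    simp only [h2]
    exact h3 _
  exact h1 ε hε

end Pool.Agent.NH24.DM
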