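import Pool.Agent.NH24.DM.One
import Pool.Agent.Y760.ZG.Wd

/-!
# One scale: the terms of a block at a tuple
-/

set_option autoImplicit false

open Finset

namespace Pool.Agent.NH24.DM

open GD (mzv trunc pw dec)
open Pool.Agent.Y760.ZG (pr pr_prime pr_inj pr_ge primesBelow_pr)

lemma pw_eq : ∀ n w : List ℕ, n.length = w.length →
    pw n w = ∏ a ∈ range n.length, n.getD a 0 ^ w.getD a 0 := by
  intro n
  induction n with
  | nil =>
    intro w _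
    simp
  | cons x n ih =>
    intro w hw
    cases w with
    | nil => simp at hw
    | cons y w =>
      rw [GD.pw_cons, ih w (by simpa using hw), List.length_cons, prod_range_succ', mul_comm]
      simp

lemma nat_primes {m M : ℕ} (hm : 1 ≤ m) (hM : m ≤ M) :
    m = ∏ i ∈ range M, pr i ^ padicValNat (pr i) m := by
  have h2 : ∏ p ∈ (pr M).primesBelow, p ^ padicValNat p m = m :=
    Nat.prod_pow_prime_padicValNat m (by omega) (pr M) (by have := pr_ge M; omega)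
  rw [primesBelow_pr, Finset.prod_image fun _ _ _ _ h => pr_inj h] at h2
  exact h2.symm

lemma prodE {ι : Type*} (t : Finset ι) (M : ℕ) (n X : ι → ℕ) (h1 : ∀ a ∈ t, 1 ≤ n a ∧ n a ≤ M) :
    ∏ i : Fin M, (pr i : ℝ) ^ (-∑ a ∈ t, (X a : ℤ) * padicValNat (pr i) (n a) : ℤ) =
      (∏ a ∈ t, (n a : ℝ) ^ X a)⁻¹ := by
  classical
  have h2 : ∀ i : Fin M, (pr i : ℝ) ^ (-∑ a ∈ t, (X a : ℤ) * padicValNat (pr i) (n a) : ℤ) =
      (∏ a ∈ t, ((pr i : ℝ) ^ padicValNat (pr i) (n a)) ^ X a)⁻¹ := by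
    intro i
    have h0 : (pr i : ℝ) ≠ 0 := by exact_mod_cast (pr_prime i).ne_zero
    rw [zpow_neg]
    congr 1
    have h3 : (∑ a ∈ t, (X a : ℤ) * padicValNat (pr i) (n a)) =
        ((∑ a ∈ t, X a * padicValNat (pr i) (n a) : ℕ) : ℤ) := by push_cast; rfl
    rw [h3, zpow_natCast, ← Finset.prod_pow_eq_pow_sum]
    refine prod_congr rfl fun a _ => ?_
    rw [← pow_mul, mul_comm]
  rw [prod_congr rfl fun i _ => h2 i, prod_inv_distrib, prod_comm]
  congr 1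
  refine prod_congr rfl fun a ha => ?_
  rw [prod_pow]
  congr 1
  have h4 := nat_primes (h1 a ha).1 (h1 a ha).2
  have h5 : (n a : ℝ) = ∏ i ∈ range M, (pr i : ℝ) ^ padicValNat (pr i) (n a) := by
    conv_lhs => rw [h4]
    push_cast
    rfl
  rw [h5, ← Fin.prod_univ_eq_prod_range (fun i => (pr i : ℝ) ^ padicValNat (pr i) (n a)) M]

variable {s : ℕ} {D : ℕ} {δ C : ℝ} {d : Dat s}

/-- the words of a block -/
def Dat.Sj (d : Dat s) (j : Fin s) : Finset (List ℕ) := d.S.filter fun w => d.f w = j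

lemma mem_Sj {j : Fin s} {w : List ℕ} : w ∈ d.Sj j ↔ w ∈ d.S ∧ d.f w = j := by
  unfold Dat.Sj
  rw [mem_filter]

/-- the exponents of the common `S`-unit -/
noncomputable def Dat.X (d : Dat s) (D : ℕ) (δ : ℝ) (j : Fin s) (a : ℕ) : ℕ :=
  (d.u j).getD a 0 + d.W D δ

/-- the integer factor of the term of a block and a tuple -/
noncomputable def Dat.q (d : Dat s) (D : ℕ) (δ : ℝ) (j : Fin s) (n : List ℕ) : ℤ :=
  ∑ w ∈ d.Sj j, d.e w * ∏ a ∈ range n.length, (n.getD a 0 : ℤ) ^ (d.X D δ j a - w.getD a 0)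

/-- the exponents of the `S`-unit of the term of a block and a tuple -/
noncomputable def Dat.E (d : Dat s) (D : ℕ) (δ : ℝ) (j : Fin s) (n : List ℕ) (p : ℕ) : ℤ :=
  -∑ a ∈ range n.length, (d.X D δ j a : ℤ) * padicValNat p (n.getD a 0)

lemma getD_mem_pos {M : ℕ} {n : List ℕ} (hn : ∀ x ∈ n, 1 ≤ x ∧ x ≤ M) :
    ∀ a ∈ range n.length, 1 ≤ n.getD a 0 ∧ n.getD a 0 ≤ M := by
  intro a ha
  rw [mem_range] at ha
  rw [List.getD_eq_getElem _ _ ha]
  exact hn _ (List.getElem_mem ha)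

lemma Ok.term (h : Ok D δ C d) (hδ : 0 < δ) (j : Fin s) {n : List ℕ} {M : ℕ}
    (hl : n.length = (d.u j).length) (hn : ∀ x ∈ n, 1 ≤ x ∧ x ≤ M) :
    (d.q D δ j n : ℝ) * ∏ i : Fin M, (pr i : ℝ) ^ d.E D δ j n (pr i) =
      ∑ w ∈ d.Sj j, (d.e w : ℝ) / (pw n w : ℝ) := by
  unfold Dat.E
  rw [prodE (range n.length) M (fun a => n.getD a 0) (fun a => d.X D δ j a) (getD_mem_pos hn)]
  unfold Dat.q
  push_cast
  rw [sum_mul]
  refine sum_congr rfl fun w hw => ?_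
  rw [mem_Sj] at hw
  have hlw : n.length = w.length := by
    rw [hl, ← h.len w hw.1, hw.2]
  rw [pw_eq n w hlw]
  push_cast
  rw [mul_assoc, div_eq_mul_inv, ← prod_inv_distrib, ← prod_inv_distrib, ← prod_mul_distrib]
  congr 1
  refine prod_congr rfl fun a ha => ?_
  have h1 := (getD_mem_pos hn a ha).1
  have h2 : (n.getD a 0 : ℝ) ≠ 0 := by
    have : n.getD a 0 ≠ 0 := by omega
    exact_mod_cast this
  have h3 : w.getD a 0 ≤ d.X D δ j a := by
    have := (h.le_W hδ hw.1 a).1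
    rw [hw.2] at this
    exact this
  have h4 : (n.getD a 0 : ℝ) ^ d.X D δ j a =
      (n.getD a 0 : ℝ) ^ (d.X D δ j a - w.getD a 0) * (n.getD a 0 : ℝ) ^ w.getD a 0 := by
    rw [← pow_add, Nat.sub_add_cancel h3]
  rw [h4]
  field_simp

lemma Ok.q_le (h : Ok D δ C d) (hδ : 0 < δ) (j : Fin s) {n : List ℕ} {M : ℕ}
    (hl : n.length = (d.u j).length) (hn : ∀ x ∈ n, 1 ≤ x ∧ x ≤ M) (hM : 1 ≤ M) :
    |(d.q D δ j n : ℝ)| ≤
      ((d.k : ℝ) + 1) ^ ⌈1 / δ⌉₊ * (d.cb δ C * (M : ℝ) ^ (⌈1 / δ⌉₊ * (2 * d.W D δ))) := by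
  have hM' : (1 : ℝ) ≤ M := by exact_mod_cast hM
  have hR : n.length ≤ ⌈1 / δ⌉₊ := by
    rw [hl]
    have h1 := h.length hδ (h.uS j)
    have h2 := Nat.le_ceil (1 / δ)
    exact_mod_cast h1.trans h2
  have hcb : 0 ≤ d.cb δ C := (abs_nonneg _).trans (h.coef hδ (h.uS j))
  unfold Dat.q
  push_cast
  refine (abs_sum_le_sum_abs _ _).trans ?_
  have h1 : ∀ w ∈ d.Sj j, |(d.e w : ℝ) * ∏ a ∈ range n.length, (n.getD a 0 : ℝ) ^ (d.X D δ j a - w.getD a 0)| ≤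
      d.cb δ C * (M : ℝ) ^ (⌈1 / δ⌉₊ * (2 * d.W D δ)) := by
    intro w hw
    rw [mem_Sj] at hw
    rw [abs_mul]
    refine mul_le_mul (h.coef hδ hw.1) ?_ (abs_nonneg _) hcb
    rw [abs_prod]
    have h2 : ∀ a ∈ range n.length, |(n.getD a 0 : ℝ) ^ (d.X D δ j a - w.getD a 0)| ≤
        (M : ℝ) ^ (2 * d.W D δ) := by
      intro a ha
      have h3 := getD_mem_pos hn a ha
      have h4 : (1 : ℝ) ≤ n.getD a 0 := by exact_mod_cast h3.1
      have h5 : (n.getD a 0 : ℝ) ≤ M := by exact_mod_cast h3.2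
      have h6 := (h.le_W hδ hw.1 a).2
      rw [hw.2] at h6
      have h7 : d.X D δ j a - w.getD a 0 ≤ 2 * d.W D δ := by
        unfold Dat.X
        omega
      rw [abs_of_nonneg (by positivity)]
      exact (pow_le_pow_left₀ (by linarith) h5 _).trans (pow_le_pow_right₀ hM' h7)
    refine (prod_le_prod (fun a _ => abs_nonneg _) h2).trans ?_
    rw [prod_const, card_range, ← pow_mul]
    refine pow_le_pow_right₀ hM' ?_
    rw [mul_comm]
    exact Nat.mul_le_mul_right _ hR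
  refine (sum_le_sum h1).trans ?_
  rw [sum_const, nsmul_eq_mul]
  refine mul_le_mul_of_nonneg_right ?_ (by positivity)
  have h2 := card_words (d.u j).length d.k (d.Sj j) (fun w hw => by
    rw [mem_Sj] at hw
    refine ⟨?_, h.sumS w hw.1⟩
    rw [← h.len w hw.1, hw.2])
  have h3 : ((d.Sj j).card : ℝ) ≤ ((d.k : ℝ) + 1) ^ (d.u j).length := by exact_mod_cast h2
  refine h3.trans (pow_le_pow_right₀ ?_ (by rw [← hl]; exact hR))
  have : (0 : ℝ) ≤ d.k := Nat.cast_nonneg _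
  linarith

/-- the truncated sum is the sum of the terms -/
lemma Ok.trunc_sum (h : Ok D δ C d) (m : ℕ) :
    ∑ w ∈ d.S, (d.e w : ℝ) * trunc w m =
      ∑ j, ∑ n ∈ dec (d.u j).length m, ∑ w ∈ d.Sj j, (d.e w : ℝ) / (pw n w : ℝ) := by
  classical
  rw [← sum_fiberwise (s := d.S) (g := d.f)]
  refine sum_congr rfl fun j _ => ?_
  rw [sum_comm]
  refine sum_congr rfl fun w hw => ?_
  have hw' : w ∈ d.S ∧ d.f w = j := mem_filter.1 hw
  have h1 : (d.u j).length = w.length := by rw [← hw'.2, h.len w hw'.1]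
  rw [GD.trunc_eq, mul_sum, h1]
  exact sum_congr rfl fun n _ => by ring

/-- the tail -/
lemma Ok.tail (h : Ok D δ C d) (hδ : 0 < δ) (ht : TAIL) (hk4 : 4 ≤ ⌈δ * d.k⌉₊) (M : ℕ) :
    |∑ w ∈ d.S, (d.e w : ℝ) * mzv w - ∑ w ∈ d.S, (d.e w : ℝ) * trunc w (M + 1)| ≤
      s * (((d.k : ℝ) + 1) ^ ⌈1 / δ⌉₊ * (d.cb δ C *
        (2 ^ (⌈1 / δ⌉₊ + 1) * ((M : ℝ) + 1) ^ 2 / ((M : ℝ) + 1) ^ ⌈δ * d.k⌉₊))) := by
  classical
  set Q : ℝ := d.cb δ C * (2 ^ (⌈1 / δ⌉₊ + 1) * ((M : ℝ) + 1) ^ 2 / ((M : ℝ) + 1) ^ ⌈δ * d.k⌉₊) with hQ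
  have hR : ∀ w ∈ d.S, w.length ≤ ⌈1 / δ⌉₊ := by
    intro w hw
    have h1 := h.length hδ hw
    have h2 := Nat.le_ceil (1 / δ)
    exact_mod_cast h1.trans h2
  have hM : (0 : ℝ) < (M : ℝ) + 1 := by positivity
  have h1 : ∀ w ∈ d.S, |(d.e w : ℝ) * mzv w - (d.e w : ℝ) * trunc w (M + 1)| ≤ Q := by
    intro w hw
    have hcb : 0 ≤ d.cb δ C := (abs_nonneg _).trans (h.coef hδ hw)
    have h2 : ∀ x ∈ w, ⌈δ * d.k⌉₊ ≤ x := fun x hx => Nat.ceil_le.2 (h.argS w hw x hx)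
    have h3 := ht w M ⌈δ * d.k⌉₊ (fun x hx => hk4.trans (h2 x hx)) h2
    rw [← mul_sub, abs_mul]
    refine mul_le_mul (h.coef hδ hw) (h3.trans ?_) (abs_nonneg _) hcb
    have h4 : (2 : ℝ) ^ (w.length + 1) ≤ 2 ^ (⌈1 / δ⌉₊ + 1) :=
      pow_le_pow_right₀ (by norm_num) (by have := hR w hw; omega)
    gcongr
  rw [← sum_sub_distrib]
  refine (abs_sum_le_sum_abs _ _).trans ((sum_le_sum h1).trans ?_)
  rw [sum_const, nsmul_eq_mul, ← mul_assoc (s : ℝ)]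
  have hQ0 : 0 ≤ Q := by
    rcases d.S.eq_empty_or_nonempty with h2 | ⟨w, hw⟩
    · have hcb : 0 ≤ d.cb δ C := by
        unfold Dat.cb
        have := h.c0
        positivity
      positivity
    · exact (abs_nonneg _).trans (h1 w hw)
  refine mul_le_mul_of_nonneg_right ?_ hQ0
  have h5 : d.S.card ≤ s * (d.k + 1) ^ ⌈1 / δ⌉₊ := by
    rw [card_eq_sum_card_fiberwise (f := d.f) (t := univ) (fun _ _ => mem_coe.2 (mem_univ _))]
    refine (sum_le_sum (g := fun _ => (d.k + 1) ^ ⌈1 / δ⌉₊) fun j _ => ?_).trans ?_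
    · have h2 := card_words (d.u j).length d.k (d.Sj j) (fun w hw => by
        rw [mem_Sj] at hw
        refine ⟨?_, h.sumS w hw.1⟩
        rw [← h.len w hw.1, hw.2])
      exact h2.trans (Nat.pow_le_pow_right (by omega) (hR _ (h.uS j)))
    · rw [sum_const, card_univ, Fintype.card_fin, smul_eq_mul]
  exact_mod_cast h5

end Pool.Agent.NH24.DM
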